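import Pool.Agent.H81.BX.Frame

/-!
Closure of a set of blocks.
-/

set_option autoImplicit false
open scoped Classical

namespace H81BX

open ResXor H33RP

variable {n m : ℕ} (F : Frame n m) {B C : ℕ}

theorem bd_union (J J' : Finset (Fin m)) : F.bd (J ∪ J') ⊆ F.bd J ∪ F.bd J' := by
  intro a ha
  rcases Finset.mem_union.1 (F.bd_sub _ ha) with h | h
  · exact Finset.mem_union_left _ (F.bd_mono _ _ a Finset.subset_union_left h ha)
  · exact Finset.mem_union_right _ (F.bd_mono _ _ a Finset.subset_union_right h ha)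

theorem contained_union (hF : F.Exp C B) {A : Finset (Fin m)} (hA : 2 * (C * A.card) ≤ B) {J J' : Finset (Fin m)}
    (hJ : J.card ≤ B) (hJ' : J'.card ≤ B) (h : F.bd J ⊆ A) (h' : F.bd J' ⊆ A) :
    (J ∪ J').card ≤ C * A.card ∧ F.bd (J ∪ J') ⊆ A := by
  have h1 : J.card ≤ C * A.card := (hF J hJ).trans (Nat.mul_le_mul_left _ (Finset.card_le_card h))
  have h2 : J'.card ≤ C * A.card := (hF J' hJ').trans (Nat.mul_le_mul_left _ (Finset.card_le_card h'))
  have h3 : F.bd (J ∪ J') ⊆ A := (bd_union F J J').trans (Finset.union_subset h h')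
  have h4 := Finset.card_union_le J J'
  exact ⟨(hF _ (by omega)).trans (Nat.mul_le_mul_left _ (Finset.card_le_card h3)), h3⟩

theorem contained_biUnion (hF : F.Exp C B) {A : Finset (Fin m)} (hA : 2 * (C * A.card) ≤ B)
    (s : Finset (Finset (Fin m))) (hs : ∀ J ∈ s, J.card ≤ B ∧ F.bd J ⊆ A) :
    (s.biUnion id).card ≤ C * A.card ∧ F.bd (s.biUnion id) ⊆ A := by
  induction s using Finset.induction_on with
  | empty =>
    rw [Finset.biUnion_empty]
    refine ⟨by simp, (F.bd_sub ∅).trans (Finset.empty_subset _)⟩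
  | insert J s hJs ih =>
    have h1 := ih (fun J' hJ' => hs J' (Finset.mem_insert_of_mem hJ'))
    have h2 := hs J (Finset.mem_insert_self _ _)
    rw [Finset.biUnion_insert]
    exact contained_union F hF hA h2.1 (by omega) h2.2 h1.2

theorem spt_eq (A : Finset (Fin m)) :
    F.Spt B A = (Finset.univ.filter (fun J : Finset (Fin m) => J.card ≤ B ∧ F.bd J ⊆ A)).biUnion id := by
  ext a
  simp only [Frame.Spt, Finset.mem_filter, Finset.mem_univ, true_and, Finset.mem_biUnion, id]
  exact exists_congr fun J => and_assoc.symm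

theorem spt_card (hF : F.Exp C B) (A : Finset (Fin m)) (hA : 2 * (C * A.card) ≤ B) :
    (F.Spt B A).card ≤ C * A.card := by
  rw [spt_eq]
  exact (contained_biUnion F hF hA _ (fun J hJ => (Finset.mem_filter.1 hJ).2)).1

theorem spt_bd (hF : F.Exp C B) (A : Finset (Fin m)) (hA : 2 * (C * A.card) ≤ B) : F.bd (F.Spt B A) ⊆ A := by
  rw [spt_eq]
  exact (contained_biUnion F hF hA _ (fun J hJ => (Finset.mem_filter.1 hJ).2)).2

theorem spt_max (A J : Finset (Fin m)) (hJ : J.card ≤ B) (h : F.bd J ⊆ A) : J ⊆ F.Spt B A := fun a ha =>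
  Finset.mem_filter.2 ⟨Finset.mem_univ _, J, hJ, h, ha⟩

theorem spt_self (A : Finset (Fin m)) (hA : A.card ≤ B) : A ⊆ F.Spt B A :=
  spt_max F A A hA (F.bd_sub A)

theorem spt_sub (hF : F.Exp C B) (A A' : Finset (Fin m)) (hA : 2 * (C * A.card) ≤ B)
    (hA' : 2 * (C * A'.card) ≤ B) (h : A' ⊆ F.Spt B A) : F.Spt B A' ⊆ F.Spt B A := by
  have h1 := spt_card F hF A hA
  have h2 := spt_card F hF A' hA'
  have h3 := Finset.card_union_le (F.Spt B A) (F.Spt B A')
  refine Finset.subset_union_right.trans (spt_max F A (F.Spt B A ∪ F.Spt B A') (by omega) fun a ha => ?_)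
  have h4 : a ∈ F.Spt B A → a ∈ A := fun h5 =>
    spt_bd F hF A hA (F.bd_mono _ _ a Finset.subset_union_left h5 ha)
  rcases Finset.mem_union.1 (F.bd_sub _ ha) with h5 | h5
  · exact h4 h5
  · exact h4 (h (spt_bd F hF A' hA' (F.bd_mono _ _ a Finset.subset_union_right h5 ha)))

theorem spt_private (hF : F.Exp C B) (A : Finset (Fin m)) (hA : 2 * (C * A.card) ≤ B) (J : Finset (Fin m))
    (hJ : J.card ≤ B) (h1 : F.Spt B A ⊆ J) (h2 : J ≠ F.Spt B A) :
    ∃ a ∈ F.bd J, a ∉ A ∧ a ∉ F.Spt B A := by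
  by_contra hcon
  push Not at hcon
  have h3 : F.bd J ⊆ A := by
    intro a ha
    by_contra haA
    exact haA (spt_bd F hF A hA (F.bd_mono _ _ a h1 (hcon a ha haA) ha))
  exact h2 (Finset.Subset.antisymm (spt_max F A J hJ h3) h1)

end H81BX
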