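import Mathlib

/-!
Counting lemmas (helper81, MP_28250c_BX).
-/

set_option autoImplicit false
open scoped Classical

namespace H81BX

/-- Counting the tables whose entries in `P` lie in sets which are determined by the other entries. -/
theorem fib_count {m s : ℕ} {V : Type} [Fintype V] (P : Finset (Fin m × Fin s)) (K : ℕ)
    (W : (Fin m → Fin s → V) → Fin m × Fin s → Finset V)
    (hW : ∀ c c' : Fin m → Fin s → V, (∀ p, p ∉ P → c p.1 p.2 = c' p.1 p.2) → ∀ p ∈ P, W c p = W c' p)
    (hK : ∀ c, ∀ p ∈ P, (W c p).card ≤ K) (A : Finset (Fin m → Fin s → V))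
    (hA : ∀ c ∈ A, ∀ p ∈ P, c p.1 p.2 ∈ W c p) :
    A.card * Fintype.card V ^ P.card ≤ K ^ P.card * Fintype.card V ^ (m * s) := by
  let f : (Fin m → Fin s → V) → ({p : Fin m × Fin s // p ∉ P} → V) := fun c p => c p.1.1 p.1.2
  have h1 : A.card ≤ K ^ P.card * (A.image f).card := by
    refine Finset.card_le_mul_card_image A (K ^ P.card) ?_
    intro r hr
    obtain ⟨c0, hc0, rfl⟩ := Finset.mem_image.1 hr
    let g : (Fin m → Fin s → V) → ({p : Fin m × Fin s // p ∈ P} → V) := fun c p => c p.1.1 p.1.2
    have h2 : (A.filter fun c => f c = f c0).card ≤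
        (Fintype.piFinset (fun p : {p : Fin m × Fin s // p ∈ P} => W c0 p.1)).card := by
      refine Finset.card_le_card_of_injOn g ?_ ?_
      · intro c hc
        have hc' := Finset.mem_coe.1 hc
        obtain ⟨hc1, hc2⟩ := Finset.mem_filter.1 hc'
        rw [Finset.mem_coe, Fintype.mem_piFinset]
        intro p
        have h3 := hA c hc1 p.1 p.2
        have h4 : W c p.1 = W c0 p.1 := hW c c0 (fun p' hp' => congrFun hc2 ⟨p', hp'⟩) p.1 p.2
        rw [← h4]
        exact h3
      · intro c hc c' hc' hcc'
        obtain ⟨-, hc2⟩ := Finset.mem_filter.1 (Finset.mem_coe.1 hc)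
        obtain ⟨-, hc2'⟩ := Finset.mem_filter.1 (Finset.mem_coe.1 hc')
        funext a j
        by_cases h : (a, j) ∈ P
        · exact congrFun hcc' ⟨(a, j), h⟩
        · exact congrFun (hc2.trans hc2'.symm) ⟨(a, j), h⟩
    refine h2.trans ?_
    rw [Fintype.card_piFinset]
    have h3 : ∏ p : {p : Fin m × Fin s // p ∈ P}, (W c0 p.1).card ≤ ∏ _p : {p : Fin m × Fin s // p ∈ P}, K :=
      Finset.prod_le_prod' fun p _ => hK c0 p.1 p.2
    refine h3.trans (le_of_eq ?_)
    rw [Finset.prod_const, Finset.card_univ, Fintype.card_coe]
  have h2 : (A.image f).card * Fintype.card V ^ P.card ≤ Fintype.card V ^ (m * s) := by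
    have h3 : (A.image f).card ≤ Fintype.card V ^ Fintype.card {p : Fin m × Fin s // p ∉ P} := by
      refine (Finset.card_le_univ _).trans (le_of_eq ?_)
      rw [Fintype.card_fun]
    have h4 : Fintype.card {p : Fin m × Fin s // p ∉ P} + P.card = m * s := by
      rw [Fintype.card_subtype_compl, Fintype.card_coe, Fintype.card_prod, Fintype.card_fin, Fintype.card_fin]
      have : P.card ≤ m * s := by
        have h5 := Finset.card_le_univ P
        rwa [Fintype.card_prod, Fintype.card_fin, Fintype.card_fin] at h5
      omega
    calc (A.image f).card * Fintype.card V ^ P.card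
        ≤ Fintype.card V ^ Fintype.card {p : Fin m × Fin s // p ∉ P} * Fintype.card V ^ P.card :=
          Nat.mul_le_mul_right _ h3
      _ = Fintype.card V ^ (m * s) := by rw [← pow_add, h4]
  calc A.card * Fintype.card V ^ P.card ≤ K ^ P.card * (A.image f).card * Fintype.card V ^ P.card :=
        Nat.mul_le_mul_right _ h1
    _ = K ^ P.card * ((A.image f).card * Fintype.card V ^ P.card) := by ring
    _ ≤ K ^ P.card * Fintype.card V ^ (m * s) := Nat.mul_le_mul_left _ h2

/-- A directed cut with a quarter of the arcs. -/
theorem cut {m : ℕ} {α : Type} (I : Finset α) (x y : α → Fin m) (h : ∀ i ∈ I, x i ≠ y i) :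
    ∃ L : Fin m → Bool, I.card ≤ 4 * (I.filter fun i => L (x i) = true ∧ L (y i) = false).card := by
  by_contra hcon
  push Not at hcon
  have h1 : ∀ a b : Fin m, a ≠ b →
      4 * (Finset.univ.filter fun L : Fin m → Bool => L a = true ∧ L b = false).card = 2 ^ m := by
    intro a b hab
    have h2 : (Finset.univ.filter fun L : Fin m → Bool => L a = true ∧ L b = false) =
        Fintype.piFinset (fun i : Fin m => if i = a then {true} else if i = b then {false} else
          (Finset.univ : Finset Bool)) := by
      ext L
      rw [Finset.mem_filter, Fintype.mem_piFinset]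
      constructor
      · rintro ⟨-, h3, h4⟩ i
        by_cases hia : i = a
        · rw [if_pos hia, hia, Finset.mem_singleton]
          exact h3
        · rw [if_neg hia]
          by_cases hib : i = b
          · rw [if_pos hib, hib, Finset.mem_singleton]
            exact h4
          · rw [if_neg hib]
            exact Finset.mem_univ _
      · intro h3
        refine ⟨Finset.mem_univ _, ?_, ?_⟩
        · have h4 := h3 a
          rw [if_pos rfl, Finset.mem_singleton] at h4
          exact h4
        · have h4 := h3 b
          rw [if_neg (Ne.symm hab), if_pos rfl, Finset.mem_singleton] at h4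
          exact h4
    rw [h2, Fintype.card_piFinset]
    have h3 : ∀ i : Fin m, (if i = a then {true} else if i = b then {false} else
          (Finset.univ : Finset Bool)).card = if i = a ∨ i = b then 1 else 2 := by
      intro i
      by_cases hia : i = a
      · rw [if_pos hia, if_pos (Or.inl hia), Finset.card_singleton]
      · rw [if_neg hia]
        by_cases hib : i = b
        · rw [if_pos hib, if_pos (Or.inr hib), Finset.card_singleton]
        · rw [if_neg hib, if_neg (by tauto)]
          rfl
    rw [Finset.prod_congr rfl fun i _ => h3 i, Finset.prod_ite, Finset.prod_const_one, one_mul,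
      Finset.prod_const]
    have h4 : (Finset.univ.filter fun i : Fin m => ¬ (i = a ∨ i = b)).card + 2 = m := by
      have h5 : (Finset.univ.filter fun i : Fin m => i = a ∨ i = b) = {a, b} := by
        ext i
        simp
      have h6 := Finset.card_filter_add_card_filter_not (s := (Finset.univ : Finset (Fin m)))
        (fun i : Fin m => i = a ∨ i = b)
      rw [h5, Finset.card_pair hab, Finset.card_univ, Fintype.card_fin] at h6
      omega
    calc 4 * 2 ^ (Finset.univ.filter fun i : Fin m => ¬ (i = a ∨ i = b)).card
        = 2 ^ ((Finset.univ.filter fun i : Fin m => ¬ (i = a ∨ i = b)).card + 2) := by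
          rw [pow_add]; ring
      _ = 2 ^ m := by rw [h4]
  have h2 : ∑ L : Fin m → Bool, 4 * (I.filter fun i => L (x i) = true ∧ L (y i) = false).card =
      I.card * 2 ^ m := by
    have h3 : ∑ L : Fin m → Bool, 4 * (I.filter fun i => L (x i) = true ∧ L (y i) = false).card =
        ∑ i ∈ I, 4 * (Finset.univ.filter fun L : Fin m → Bool => L (x i) = true ∧ L (y i) = false).card := by
      rw [← Finset.mul_sum, ← Finset.mul_sum]
      congr 1
      simp only [Finset.card_filter]
      exact Finset.sum_comm
    rw [h3, Finset.sum_congr rfl fun i hi => h1 _ _ (h i hi), Finset.sum_const, smul_eq_mul]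
  have h3 : ∑ L : Fin m → Bool, 4 * (I.filter fun i => L (x i) = true ∧ L (y i) = false).card <
      ∑ _L : Fin m → Bool, I.card :=
    Finset.sum_lt_sum_of_nonempty Finset.univ_nonempty fun L _ => hcon L
  rw [h2, Finset.sum_const, Finset.card_univ, Fintype.card_fun, Fintype.card_bool, Fintype.card_fin,
    smul_eq_mul, mul_comm] at h3
  exact lt_irrefl _ h3

end H81BX
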