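import Pool.Agent.H81.BX.Php
import Pool.Agent.H81.BX.Cnt

/-!
Tables of linear maps with bad expansion have a description (helper81, MP_28250c_BX).
-/

set_option autoImplicit false
open scoped Classical

namespace H81BX

open ResXor H33RP

variable {m s l : ℕ}

/-- The described entries. -/
noncomputable def Pt' (τ : Fin m → Fin s → Option (Finset (Fin s))) : Finset (Fin m × Fin s) :=
  Finset.univ.filter fun p => τ p.1 p.2 ≠ none

/-- The table `c` matches the description `τ`. -/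
def Ev (J : Finset (Fin m)) (τ : Fin m → Fin s → Option (Finset (Fin s))) (c : Fin m → Fin s → Fin l → ZMod 2) :
    Prop :=
  ∀ a j R, τ a j = some R → ∃ b ∈ J, (∀ t, τ b t = none) ∧ ∃ v : Fin s → ZMod 2,
    c a j + ∑ i ∈ R, c a i = pos c b v

/-- The entries used by a description are not described. -/
def Tri (τ : Fin m → Fin s → Option (Finset (Fin s))) : Prop :=
  ∀ a j R, τ a j = some R → ∀ i ∈ R, τ a i = none

theorem pos_ind (c : Fin m → Fin s → Fin l → ZMod 2) (a : Fin m) (R : Finset (Fin s)) :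
    pos c a (ind R) = ∑ i ∈ R, c a i := by
  unfold pos
  rw [← Finset.sum_subset (Finset.subset_univ R)]
  · refine Finset.sum_congr rfl fun t ht => ?_
    have h1 : ind R t = 1 := if_pos ht
    rw [h1, one_smul]
  · intro t _ ht
    have h1 : ind R t = 0 := if_neg ht
    rw [h1, zero_smul]

theorem ev_count (J : Finset (Fin m)) (τ : Fin m → Fin s → Option (Finset (Fin s))) (hτ : Tri τ) :
    (Finset.univ.filter (fun c : Fin m → Fin s → Fin l → ZMod 2 => Ev J τ c)).card * (2 ^ l) ^ (Pt' τ).card ≤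
      (2 ^ s * J.card) ^ (Pt' τ).card * (2 ^ l) ^ (m * s) := by
  have hV : Fintype.card (Fin l → ZMod 2) = 2 ^ l := by
    rw [Fintype.card_fun, ZMod.card, Fintype.card_fin]
  rw [← hV]
  obtain ⟨W, hW⟩ : ∃ W : (Fin m → Fin s → Fin l → ZMod 2) → Fin m × Fin s → Finset (Fin l → ZMod 2), W = fun c p =>
    ((J.filter fun b => ∀ t, τ b t = none) ×ˢ (Finset.univ : Finset (Fin s → ZMod 2))).image
      fun q => pos c q.1 q.2 - ∑ i ∈ (τ p.1 p.2).getD ∅, c p.1 i := ⟨_, rfl⟩
  refine fib_count (Pt' τ) (2 ^ s * J.card) W ?_ ?_ _ ?_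
  rotate_left 2
  · intro c hc
    have hc' := (Finset.mem_filter.1 hc).2
    rintro ⟨a, j⟩ hp
    have hp' : τ a j ≠ none := (Finset.mem_filter.1 hp).2
    obtain ⟨R, hR⟩ := Option.ne_none_iff_exists'.1 hp'
    obtain ⟨b, hb, hbn, v, hv⟩ := hc' a j R hR
    rw [hW]
    refine Finset.mem_image.2 ⟨(b, v), Finset.mem_product.2 ⟨Finset.mem_filter.2 ⟨hb, hbn⟩, Finset.mem_univ _⟩, ?_⟩
    change pos c b v - ∑ i ∈ (τ a j).getD ∅, c a i = c a j
    rw [hR, ← hv]
    exact add_sub_cancel_right _ _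
  · rintro c c' hcc' ⟨a, j⟩ hp
    have hp' : τ a j ≠ none := (Finset.mem_filter.1 hp).2
    obtain ⟨R, hR⟩ := Option.ne_none_iff_exists'.1 hp'
    rw [hW]
    refine Finset.image_congr ?_
    rintro ⟨b, v⟩ hb
    have hb1 := (Finset.mem_filter.1 (Finset.mem_product.1 (Finset.mem_coe.1 hb)).1).2
    change pos c b v - ∑ i ∈ (τ a j).getD ∅, c a i = pos c' b v - ∑ i ∈ (τ a j).getD ∅, c' a i
    rw [hR]
    change pos c b v - ∑ i ∈ R, c a i = pos c' b v - ∑ i ∈ R, c' a i
    congr 1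
    · refine Finset.sum_congr rfl fun t _ => ?_
      rw [hcc' (b, t) fun h => (Finset.mem_filter.1 h).2 (hb1 t)]
    · refine Finset.sum_congr rfl fun i hi => ?_
      exact hcc' (a, i) fun h => (Finset.mem_filter.1 h).2 (hτ a j R hR i hi)
  · rintro c p -
    rw [hW]
    refine Finset.card_image_le.trans ?_
    rw [Finset.card_product, Finset.card_univ, Fintype.card_fun, ZMod.card, Fintype.card_fin, mul_comm]
    exact Nat.mul_le_mul_left _ (Finset.card_filter_le _ _)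

theorem bad_data (c : Fin m → Fin s → Fin l → ZMod 2) (e : ℕ) (J : Finset (Fin m))
    (hJ : 4 * ((php c e).bd J).card < J.card) :
    ∃ τ : Fin m → Fin s → Option (Finset (Fin s)), (∀ a, a ∉ J → τ a = fun _ => none) ∧ Tri τ ∧ Ev J τ c ∧
      3 * (s - e) * J.card ≤ 16 * (Pt' τ).card := by
  obtain ⟨U, hU⟩ : ∃ U : Finset (Fin m), U = J.filter fun a => ¬ FreeIn c e J a := ⟨_, rfl⟩
  have hUc : 3 * J.card ≤ 4 * U.card := by
    have h1 := Finset.card_filter_add_card_filter_not (s := J) (FreeIn c e J)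
    have h2 : (php c e).bd J = J.filter (FreeIn c e J) := rfl
    rw [h2] at hJ
    rw [hU]
    omega
  have h1 : ∀ a : Fin m, ∃ D : Finset (Fin s), D.card ≤ e ∧ (a ∈ U → ∀ j, j ∉ D → ∃ R ⊆ D, ∃ b ∈ J, b ≠ a ∧
      ∃ v, pos c a (ind (insert j R)) = pos c b v) := by
    intro a
    by_cases ha : a ∈ U
    · rw [hU] at ha
      have h2 := (Finset.mem_filter.1 ha).2
      unfold FreeIn at h2
      push Not at h2
      obtain ⟨D, hD, h3⟩ := h2
      refine ⟨D, hD, fun _ j hj => ?_⟩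
      obtain ⟨R, hR, b, hb, hba, v, hv⟩ := h3 j hj
      exact ⟨R, hR, b, hb, hba, v, hv⟩
    · exact ⟨∅, by simp, fun h => absurd h ha⟩
  choose D hD hDU using h1
  have h2 : ∀ p : Fin m × Fin s, ∃ (R : Finset (Fin s)) (b : Fin m), p.1 ∈ U → p.2 ∉ D p.1 →
      R ⊆ D p.1 ∧ b ∈ J ∧ b ≠ p.1 ∧ ∃ v, pos c p.1 (ind (insert p.2 R)) = pos c b v := by
    intro p
    by_cases h : p.1 ∈ U ∧ p.2 ∉ D p.1
    · obtain ⟨R, hR, b, hb, hba, v, hv⟩ := hDU p.1 h.1 p.2 h.2
      exact ⟨R, b, fun _ _ => ⟨hR, hb, hba, v, hv⟩⟩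
    · exact ⟨∅, p.1, fun h3 h4 => absurd ⟨h3, h4⟩ h⟩
  choose R b hRb using h2
  obtain ⟨I, hI⟩ : ∃ I : Finset (Fin m × Fin s), I = Finset.univ.filter fun p => p.1 ∈ U ∧ p.2 ∉ D p.1 := ⟨_, rfl⟩
  have hIc : U.card * (s - e) ≤ I.card := by
    have h3 : ∀ a ∈ U, s - e ≤ ((Finset.univ.filter fun j : Fin s => j ∉ D a)).card := by
      intro a _
      have h4 := Finset.card_filter_add_card_filter_not (s := (Finset.univ : Finset (Fin s))) (fun j => j ∈ D a)
      rw [Finset.filter_mem_eq_inter, Finset.univ_inter, Finset.card_univ, Fintype.card_fin] at h4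
      have h5 := hD a
      omega
    have h4 : I = (U.sigma (fun a => (Finset.univ.filter fun j : Fin s => j ∉ D a))).map
        (Equiv.sigmaEquivProd (Fin m) (Fin s)).toEmbedding := by
      ext p
      rw [hI, Finset.mem_filter, Finset.mem_map]
      constructor
      · rintro ⟨-, h5, h6⟩
        exact ⟨⟨p.1, p.2⟩, Finset.mem_sigma.2 ⟨h5, Finset.mem_filter.2 ⟨Finset.mem_univ _, h6⟩⟩, rfl⟩
      · rintro ⟨q, hq, rfl⟩
        obtain ⟨h5, h6⟩ := Finset.mem_sigma.1 hq
        exact ⟨Finset.mem_univ _, h5, (Finset.mem_filter.1 h6).2⟩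
    rw [h4, Finset.card_map, Finset.card_sigma]
    calc U.card * (s - e) = ∑ _a ∈ U, (s - e) := by rw [Finset.sum_const, smul_eq_mul]
      _ ≤ _ := Finset.sum_le_sum h3
  obtain ⟨L, hL⟩ := cut I (fun p => p.1) b (by
    intro p hp
    rw [hI] at hp
    obtain ⟨-, h3, h4⟩ := Finset.mem_filter.1 hp
    exact (hRb p h3 h4).2.2.1.symm)
  obtain ⟨τ, hτ⟩ : ∃ τ : Fin m → Fin s → Option (Finset (Fin s)), τ = fun a j =>
      if (a ∈ U ∧ j ∉ D a) ∧ L a = true ∧ L (b (a, j)) = false then some (R (a, j)) else none := ⟨_, rfl⟩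
  have hτs : ∀ a j S, τ a j = some S → ((a ∈ U ∧ j ∉ D a) ∧ L a = true ∧ L (b (a, j)) = false) ∧ R (a, j) = S := by
    intro a j S h
    rw [hτ] at h
    by_cases h3 : (a ∈ U ∧ j ∉ D a) ∧ L a = true ∧ L (b (a, j)) = false
    · have h4 : (if (a ∈ U ∧ j ∉ D a) ∧ L a = true ∧ L (b (a, j)) = false then some (R (a, j)) else none) =
        some S := h
      rw [if_pos h3] at h4
      exact ⟨h3, Option.some.inj h4⟩
    · have h4 : (if (a ∈ U ∧ j ∉ D a) ∧ L a = true ∧ L (b (a, j)) = false then some (R (a, j)) else none) =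
        some S := h
      rw [if_neg h3] at h4
      exact absurd h4 (by simp)
  have hτn : ∀ a j, ¬ ((a ∈ U ∧ j ∉ D a) ∧ L a = true ∧ L (b (a, j)) = false) → τ a j = none := by
    intro a j h
    rw [hτ]
    exact if_neg h
  refine ⟨τ, ?_, ?_, ?_, ?_⟩
  · intro a ha
    funext j
    refine hτn a j fun h => ha ?_
    have h3 := h.1.1
    rw [hU] at h3
    exact (Finset.mem_filter.1 h3).1
  · intro a j S h i hi
    obtain ⟨h3, rfl⟩ := hτs a j S h
    have h4 := (hRb (a, j) h3.1.1 h3.1.2).1 hi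
    exact hτn a i fun h5 => h5.1.2 h4
  · intro a j S h
    obtain ⟨h3, rfl⟩ := hτs a j S h
    obtain ⟨hRD, hbJ, -, v, hv⟩ := hRb (a, j) h3.1.1 h3.1.2
    refine ⟨b (a, j), hbJ, fun t => hτn _ t fun h5 => ?_, v, ?_⟩
    · have h6 := h5.2.1
      rw [h3.2.2] at h6
      exact Bool.false_ne_true h6
    · rw [pos_ind, Finset.sum_insert fun h6 => h3.1.2 (hRD h6)] at hv
      exact hv
  · have h3 : (I.filter fun i => L i.1 = true ∧ L (b i) = false).card ≤ (Pt' τ).card := by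
      refine Finset.card_le_card fun p hp => ?_
      obtain ⟨hp1, hp2⟩ := Finset.mem_filter.1 hp
      rw [hI] at hp1
      refine Finset.mem_filter.2 ⟨Finset.mem_univ _, ?_⟩
      rw [hτ]
      change (if (p.1 ∈ U ∧ p.2 ∉ D p.1) ∧ L p.1 = true ∧ L (b (p.1, p.2)) = false then some (R (p.1, p.2))
        else none) ≠ none
      rw [if_pos ⟨(Finset.mem_filter.1 hp1).2, hp2⟩]
      simp
    have h4 : 3 * J.card * (s - e) ≤ 4 * U.card * (s - e) := Nat.mul_le_mul_right _ hUc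
    calc 3 * (s - e) * J.card = 3 * J.card * (s - e) := by ring
      _ ≤ 4 * U.card * (s - e) := h4
      _ = 4 * (U.card * (s - e)) := by ring
      _ ≤ 4 * I.card := Nat.mul_le_mul_left _ hIc
      _ ≤ 4 * (4 * (I.filter fun i => L i.1 = true ∧ L (b i) = false).card) := Nat.mul_le_mul_left _ hL
      _ = 16 * (I.filter fun i => L i.1 = true ∧ L (b i) = false).card := by ring
      _ ≤ 16 * (Pt' τ).card := Nat.mul_le_mul_left _ h3

end H81BX
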