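import Pool.Agent.H81.BX.Id

/-!
The frame of the bit pigeonhole principle restricted by linear maps: pigeon `a` sits in the hole `pos c a u`, where `u`
are its `s` variables.
-/

set_option autoImplicit false
open scoped Classical

namespace H81BX

open ResXor H33RP

variable {m s l : ℕ}

/-- The hole of the pigeon `a` for the value `u` of its variables. -/
def pos (c : Fin m → Fin s → Fin l → ZMod 2) (a : Fin m) (u : Fin s → ZMod 2) : Fin l → ZMod 2 :=
  ∑ t, u t • c a t

/-- The indicator vector of a set. -/
noncomputable def ind {α : Type} (R : Finset α) : α → ZMod 2 := fun i => if i ∈ R then 1 else 0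

/-- The pigeon `a` is free in `J`: for every set `D` of at most `e` directions there is a subcube with these directions
none of whose holes can be used by another pigeon of `J`. -/
def FreeIn (c : Fin m → Fin s → Fin l → ZMod 2) (e : ℕ) (J : Finset (Fin m)) (a : Fin m) : Prop :=
  ∀ D : Finset (Fin s), D.card ≤ e → ∃ j ∉ D, ∀ R ⊆ D, ∀ b ∈ J, b ≠ a → ∀ v, pos c a (ind (insert j R)) ≠ pos c b v

/-- The variables of the pigeon `a` in the assignment `x`. -/
def zz (x : Pt (m * s)) (a : Fin m) : Fin s → ZMod 2 := fun t => x (finProdFinEquiv (a, t))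

theorem zz_congr (x y : Pt (m * s)) (a : Fin m) (h : ∀ i, (finProdFinEquiv.symm i).1 = a → x i = y i) :
    zz x a = zz y a := by
  funext t
  exact h _ (by rw [Equiv.symm_apply_apply])

/-- The frame of the pigeonhole principle. -/
noncomputable def php (c : Fin m → Fin s → Fin l → ZMod 2) (e : ℕ) : Frame (m * s) m where
  blk i := (finProdFinEquiv.symm i).1
  Sat J := {x | ∀ a ∈ J, ∀ b ∈ J, a ≠ b → pos c a (zz x a) ≠ pos c b (zz x b)}
  bd J := J.filter (FreeIn c e J)
  sat_mono := fun J J' h x hx a ha b hb hab => hx a (h ha) b (h hb) hab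
  sat_loc := fun J x y h hx a ha b hb hab => by
    rw [← zz_congr x y a fun i hi => h i (hi ▸ ha), ← zz_congr x y b fun i hi => h i (hi ▸ hb)]
    exact hx a ha b hb hab
  bd_sub := fun J => Finset.filter_subset _ _
  bd_mono := fun J J' a hJ haJ' ha => by
    refine Finset.mem_filter.2 ⟨haJ', fun D hD => ?_⟩
    obtain ⟨j, hj, h⟩ := (Finset.mem_filter.1 ha).2 D hD
    exact ⟨j, hj, fun R hR b hb hba v => h R hR b (hJ hb) hba v⟩
  sat_esc := fun J a ha => by
    obtain ⟨j, -, hj⟩ := (Finset.mem_filter.1 ha).2 ∅ (by simp)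
    have hj' := hj ∅ (Finset.Subset.refl _)
    refine ⟨fun i => ind (insert j ∅) (finProdFinEquiv.symm i).2, fun x hx => ?_⟩
    have h1 : zz (fun i => if (finProdFinEquiv.symm i).1 = a then ind (insert j ∅) (finProdFinEquiv.symm i).2
        else x i) a = ind (insert j ∅) := by
      funext t
      change (if (finProdFinEquiv.symm (finProdFinEquiv (a, t))).1 = a then
        ind (insert j ∅) (finProdFinEquiv.symm (finProdFinEquiv (a, t))).2 else _) = _
      rw [Equiv.symm_apply_apply, if_pos rfl]
    have h2 : ∀ b, b ≠ a → zz (fun i => if (finProdFinEquiv.symm i).1 = a then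
        ind (insert j ∅) (finProdFinEquiv.symm i).2 else x i) b = zz x b := by
      intro b hba
      refine zz_congr _ _ b fun i hi => if_neg ?_
      rw [hi]
      exact hba
    intro b hb d hd hbd
    by_cases hba : b = a
    · subst hba
      rw [h1, h2 d (Ne.symm hbd)]
      exact hj' d hd (Ne.symm hbd) _
    · by_cases hda : d = a
      · subst hda
        rw [h1, h2 b hbd]
        exact fun h => hj' b hb hbd _ h.symm
      · rw [h2 b hba, h2 d hda]
        exact hx b (Finset.mem_erase.2 ⟨hba, hb⟩) d (Finset.mem_erase.2 ⟨hda, hd⟩) hbd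

theorem add_ind_loc (u : Pt (m * s)) (R : Finset (Fin (m * s))) (a : Fin m) (R' : Finset (Fin s))
    (h : ∀ t, finProdFinEquiv (a, t) ∈ R ↔ t ∈ R') : zz (u + ind R) a = zz u a + ind R' := by
  funext t
  have h1 : zz (u + ind R) a t = u (finProdFinEquiv (a, t)) + ind R (finProdFinEquiv (a, t)) := rfl
  have h2 : (zz u a + ind R') t = u (finProdFinEquiv (a, t)) + ind R' t := rfl
  rw [h1, h2]
  unfold ind
  by_cases ht : t ∈ R'
  · rw [if_pos ht, if_pos ((h t).2 ht)]
  · rw [if_neg ht, if_neg fun h' => ht ((h t).1 h')]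

/-- A whole subcube of injective assignments. -/
theorem exists_cube (c : Fin m → Fin s → Fin l → ZMod 2) {e B C : ℕ} (hF : (php c e).Exp C B)
    (T : Finset (Fin (m * s))) (hT : ∀ a, (T.filter fun i => (php c e).blk i = a).card ≤ e) :
    ∀ J : Finset (Fin m), J.card ≤ B → ∃ u : Pt (m * s), ∀ R ⊆ T, u + ind R ∈ (php c e).Sat J := by
  intro J
  induction J using Finset.strongInduction with
  | H J ih =>
    intro hJ
    rcases Finset.eq_empty_or_nonempty J with h0 | h0
    · refine ⟨0, fun R _ a ha => ?_⟩
      rw [h0] at ha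
      exact absurd ha (Finset.notMem_empty _)
    · have h1 : ((php c e).bd J).Nonempty := by
        rw [← Finset.card_pos]
        by_contra h2
        have h3 := hF J hJ
        have h4 := Finset.card_pos.2 h0
        rw [Nat.eq_zero_of_not_pos h2, mul_zero] at h3
        omega
      obtain ⟨a, ha⟩ := h1
      have haJ := (php c e).bd_sub J ha
      obtain ⟨u, hu⟩ := ih (J.erase a) (Finset.erase_ssubset haJ) ((Finset.card_erase_le).trans hJ)
      obtain ⟨D, hD⟩ : ∃ D : Finset (Fin s), D = Finset.univ.filter fun t => finProdFinEquiv (a, t) ∈ T := ⟨_, rfl⟩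
      have hDe : D.card ≤ e := by
        refine le_trans ?_ (hT a)
        rw [← Finset.card_image_of_injective D (f := fun t => finProdFinEquiv (a, t))
          (fun t t' h => (Prod.mk.inj (finProdFinEquiv.injective h)).2)]
        refine Finset.card_le_card fun i hi => ?_
        obtain ⟨t, ht, rfl⟩ := Finset.mem_image.1 hi
        rw [hD] at ht
        refine Finset.mem_filter.2 ⟨(Finset.mem_filter.1 ht).2, ?_⟩
        change (finProdFinEquiv.symm (finProdFinEquiv (a, t))).1 = a
        rw [Equiv.symm_apply_apply]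
      obtain ⟨j, hjD, hj⟩ := (Finset.mem_filter.1 ha).2 D hDe
      refine ⟨fun i => if (finProdFinEquiv.symm i).1 = a then ind {j} (finProdFinEquiv.symm i).2 else u i,
        fun R hR => ?_⟩
      obtain ⟨u', hu'⟩ : ∃ u' : Pt (m * s), u' = fun i => if (finProdFinEquiv.symm i).1 = a then
        ind {j} (finProdFinEquiv.symm i).2 else u i := ⟨_, rfl⟩
      rw [← hu']
      have ha1 : zz (u' + ind R) a =
          ind (insert j (Finset.univ.filter fun t => finProdFinEquiv (a, t) ∈ R)) := by
        rw [add_ind_loc u' R a (Finset.univ.filter fun t => finProdFinEquiv (a, t) ∈ R)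
          (fun t => by rw [Finset.mem_filter]; exact ⟨fun h => ⟨Finset.mem_univ _, h⟩, fun h => h.2⟩)]
        funext t
        have h5 : zz u' a t = ind {j} t := by
          rw [hu']
          change (if (finProdFinEquiv.symm (finProdFinEquiv (a, t))).1 = a then
            ind {j} (finProdFinEquiv.symm (finProdFinEquiv (a, t))).2 else _) = _
          rw [Equiv.symm_apply_apply, if_pos rfl]
        rw [Pi.add_apply, h5]
        unfold ind
        by_cases htj : t = j
        · subst htj
          have h6 : t ∉ Finset.univ.filter fun t => finProdFinEquiv (a, t) ∈ R := by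
            intro h7
            refine hjD ?_
            rw [hD]
            exact Finset.mem_filter.2 ⟨Finset.mem_univ _, hR (Finset.mem_filter.1 h7).2⟩
          rw [if_pos (Finset.mem_singleton_self _), if_neg h6, if_pos (Finset.mem_insert_self _ _), add_zero]
        · rw [if_neg (fun h => htj (Finset.mem_singleton.1 h)), zero_add]
          by_cases h7 : t ∈ Finset.univ.filter fun t => finProdFinEquiv (a, t) ∈ R
          · rw [if_pos h7, if_pos (Finset.mem_insert_of_mem h7)]
          · rw [if_neg h7, if_neg fun h => (Finset.mem_insert.1 h).elim htj h7]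
      have hb1 : ∀ b, b ≠ a → zz (u' + ind R) b = zz (u + ind R) b := by
        intro b hba
        refine zz_congr _ _ b fun i hi => ?_
        rw [Pi.add_apply, Pi.add_apply, hu']
        congr 1
        refine if_neg ?_
        rw [hi]
        exact hba
      have hRD : (Finset.univ.filter fun t => finProdFinEquiv (a, t) ∈ R) ⊆ D := by
        intro t ht
        rw [hD]
        exact Finset.mem_filter.2 ⟨Finset.mem_univ _, hR (Finset.mem_filter.1 ht).2⟩
      intro b hb d hd hbd
      by_cases hba : b = a
      · subst hba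
        rw [ha1]
        exact hj _ hRD d hd (Ne.symm hbd) _
      · by_cases hda : d = a
        · subst hda
          rw [ha1]
          exact fun h => hj _ hRD b hb hbd _ h.symm
        · rw [hb1 b hba, hb1 d hda]
          exact hu R hR b (Finset.mem_erase.2 ⟨hba, hb⟩) d (Finset.mem_erase.2 ⟨hda, hd⟩) hbd

theorem cube_sum_zero {n : ℕ} (u : Pt n) (T T' : Finset (Fin n)) (i : Fin n) (hi : i ∈ T) (hi' : i ∉ T') :
    ∑ R ∈ T.powerset, mono T' (u + ind R) = 0 := by
  rw [← Finset.insert_erase hi, Finset.sum_powerset_insert (Finset.notMem_erase _ _), ← Finset.sum_add_distrib]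
  refine Finset.sum_eq_zero fun R _ => ?_
  have h1 : mono T' (u + ind (insert i R)) = mono T' (u + ind R) := by
    refine Finset.prod_congr rfl fun v hv => ?_
    have hvi : v ≠ i := fun h => hi' (h ▸ hv)
    rw [Pi.add_apply, Pi.add_apply]
    unfold ind
    by_cases hvR : v ∈ R
    · rw [if_pos hvR, if_pos (Finset.mem_insert_of_mem hvR)]
    · rw [if_neg hvR, if_neg fun h => (Finset.mem_insert.1 h).elim hvi hvR]
  rw [h1]
  exact CharTwo.add_self_eq_zero _

theorem cube_sum_one {n : ℕ} (u : Pt n) (T : Finset (Fin n)) : ∑ R ∈ T.powerset, mono T (u + ind R) = 1 := by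
  have h1 : ∀ R ∈ T.powerset, mono T (u + ind R) = (∏ v ∈ R, (u v + 1)) * ∏ v ∈ T \ R, u v := by
    intro R hR
    have hR' := Finset.mem_powerset.1 hR
    have h2 : mono T (u + ind R) = (∏ v ∈ T \ R, (u + ind R) v) * ∏ v ∈ R, (u + ind R) v :=
      (Finset.prod_sdiff hR').symm
    rw [h2, mul_comm]
    congr 1
    · refine Finset.prod_congr rfl fun v hv => ?_
      rw [Pi.add_apply]
      unfold ind
      rw [if_pos hv]
    · refine Finset.prod_congr rfl fun v hv => ?_
      rw [Pi.add_apply]
      unfold ind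
      rw [if_neg (Finset.mem_sdiff.1 hv).2, add_zero]
  rw [Finset.sum_congr rfl h1, ← Finset.prod_add]
  refine Finset.prod_eq_one fun v _ => ?_
  have : ∀ z : ZMod 2, z + 1 + z = 1 := by decide
  exact this _

/-- Monomials with at most `e` variables in every block are irreducible. -/
theorem not_red (c : Fin m → Fin s → Fin l → ZMod 2) {e B C : ℕ} (hF : (php c e).Exp C B)
    (o : Finset (Fin (m * s)) → ℕ) (ho : Ord o) (T : Finset (Fin (m * s)))
    (hT : ∀ a, (T.filter fun i => (php c e).blk i = a).card ≤ e) (J : Finset (Fin m)) (hJ : J.card ≤ B) :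
    ¬ Red o (Vn ((php c e).Sat J)) T := by
  intro hred
  obtain ⟨u, hu⟩ := exists_cube c hF T hT J hJ
  let L : Fn (m * s) →ₗ[ZMod 2] ZMod 2 :=
    { toFun := fun g => ∑ R ∈ T.powerset, g (u + ind R)
      map_add' := fun g h => by
        simp only [Pi.add_apply, Finset.sum_add_distrib]
      map_smul' := fun z g => by
        simp only [Pi.smul_apply, smul_eq_mul, RingHom.id_apply, Finset.mul_sum] }
  have hle : Vn ((php c e).Sat J) ⊔ Submodule.span (ZMod 2) (mono '' {T' | o T' < o T}) ≤ LinearMap.ker L := by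
    refine sup_le (fun g hg => ?_) ?_
    · change ∑ R ∈ T.powerset, g (u + ind R) = 0
      exact Finset.sum_eq_zero fun R hR => hg _ (hu R (Finset.mem_powerset.1 hR))
    · rw [Submodule.span_le]
      rintro _ ⟨T', hT', rfl⟩
      have hT'' : o T' < o T := hT'
      change ∑ R ∈ T.powerset, mono T' (u + ind R) = 0
      have h1 : ¬ T ⊆ T' := by
        intro h2
        rcases h2.eq_or_ssubset with h3 | h3
        · rw [h3] at hT''
          exact lt_irrefl _ hT''
        · exact absurd (ho.2 _ _ (Finset.card_lt_card h3)) (not_lt.2 hT''.le)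
      obtain ⟨i, hi, hi'⟩ := Finset.not_subset.1 h1
      exact cube_sum_zero u T T' i hi hi'
  have h1 : L (mono T) = 0 := hle hred
  have h2 : L (mono T) = 1 := cube_sum_one u T
  rw [h2] at h1
  exact one_ne_zero h1

/-- A function of the variables in `Y`. -/
theorem junta {n : ℕ} (Y : Finset (Fin n)) (g : Fn n) (hg : ∀ x y : Pt n, (∀ i ∈ Y, x i = y i) → g x = g y) :
    g ∈ Submodule.span (ZMod 2) (mono '' {T : Finset (Fin n) | T ⊆ Y}) := by
  have h1 : setz Y g = g := by
    funext x
    rw [setz_apply]
    exact hg _ _ fun i hi => if_pos hi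
  rw [← h1]
  have h2 : g ∈ Submodule.span (ZMod 2) (Set.range (mono : Finset (Fin n) → Fn n)) := by
    rw [mono_top]
    trivial
  have hle : Submodule.span (ZMod 2) (Set.range (mono : Finset (Fin n) → Fn n)) ≤
      (Submodule.span (ZMod 2) (mono '' {T : Finset (Fin n) | T ⊆ Y})).comap (setz Y) := by
    rw [Submodule.span_le]
    rintro _ ⟨T, rfl⟩
    change setz Y (mono T) ∈ Submodule.span (ZMod 2) (mono '' {T : Finset (Fin n) | T ⊆ Y})
    by_cases hT : T ⊆ Y
    · rw [setz_mono_of_subset Y T hT]
      exact Submodule.subset_span ⟨T, hT, rfl⟩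
    · rw [setz_mono_of_not_subset Y T hT]
      exact Submodule.zero_mem _
  exact hle h2

/-- The axioms of the restricted pigeonhole principle: 1 if the pigeons `a`, `b` collide. -/
noncomputable def ax (c : Fin m → Fin s → Fin l → ZMod 2) (a b : Fin m) : Fn (m * s) :=
  fun x => if pos c a (zz x a) = pos c b (zz x b) then 1 else 0

theorem ax_span (c : Fin m → Fin s → Fin l → ZMod 2) (e : ℕ) {E : ℕ} (hE : 2 * s ≤ E) (a b : Fin m) :
    ax c a b ∈ Submodule.span (ZMod 2)
      (mono '' {T : Finset (Fin (m * s)) | T.card ≤ E ∧ (php c e).bl T ⊆ {a, b}}) := by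
  obtain ⟨Y, hY⟩ : ∃ Y : Finset (Fin (m * s)), Y = ({a, b} ×ˢ (Finset.univ : Finset (Fin s))).map
    finProdFinEquiv.toEmbedding := ⟨_, rfl⟩
  have hYmem : ∀ i, i ∈ Y ↔ (finProdFinEquiv.symm i).1 ∈ ({a, b} : Finset (Fin m)) := by
    intro i
    rw [hY, Finset.mem_map]
    constructor
    · rintro ⟨p, hp, rfl⟩
      change (finProdFinEquiv.symm (finProdFinEquiv p)).1 ∈ _
      rw [Equiv.symm_apply_apply]
      exact (Finset.mem_product.1 hp).1
    · intro hi
      exact ⟨finProdFinEquiv.symm i, Finset.mem_product.2 ⟨hi, Finset.mem_univ _⟩,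
        Equiv.apply_symm_apply _ _⟩
  have hYc : Y.card ≤ 2 * s := by
    rw [hY, Finset.card_map, Finset.card_product, Finset.card_univ, Fintype.card_fin]
    exact Nat.mul_le_mul_right _ Finset.card_le_two
  refine Submodule.span_mono ?_ (junta Y (ax c a b) fun x y hxy => ?_)
  · rintro _ ⟨T, hT, rfl⟩
    refine ⟨T, ⟨((Finset.card_le_card hT).trans hYc).trans hE, fun d hd => ?_⟩, rfl⟩
    obtain ⟨i, hi, rfl⟩ := Finset.mem_image.1 hd
    exact (hYmem i).1 (hT hi)
  · have h1 : zz x a = zz y a := zz_congr x y a fun i hi => hxy i ((hYmem i).2 (by rw [hi]; simp))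
    have h2 : zz x b = zz y b := zz_congr x y b fun i hi => hxy i ((hYmem i).2 (by rw [hi]; simp))
    unfold ax
    rw [h1, h2]

theorem ax_Vn (c : Fin m → Fin s → Fin l → ZMod 2) (e : ℕ) {a b : Fin m} (hab : a ≠ b) :
    ax c a b ∈ Vn ((php c e).Sat {a, b}) := fun _ hx => if_neg (hx a (by simp) b (by simp) hab)

end H81BX
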