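import Pool.Agent.H81.BX.Stmt
import Pool.Agent.H81.BX.Php
import Pool.Agent.H96.RE.PolRM

/-!
Restriction of a refutation of the bit pigeonhole principle by linear maps (helper81, MP_28250c_BX).
-/

set_option autoImplicit false
open scoped Classical

namespace H81BX

open ResXor BitPigeonhole

variable {m s l : ℕ}

/-- The substitution. -/
def sub (c : Fin m → Fin s → Fin l → ZMod 2) (z : Pt (m * s)) : Fin m × Fin l → ZMod 2 :=
  fun p => pos c p.1 (zz z p.1) p.2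

theorem lin_mem (c : Fin m → Fin s → Fin l → ZMod 2) (p : Fin m × Fin l) :
    (fun z : Pt (m * s) => sub c z p) ∈ H96RE.Pol (m * s) 1 := by
  have h1 : (fun z : Pt (m * s) => sub c z p) =
      ∑ t : Fin s, (c p.1 t p.2) • (H96RE.mono {finProdFinEquiv (p.1, t)} : Pt (m * s) → ZMod 2) := by
    funext z
    unfold sub pos
    rw [Finset.sum_apply, Finset.sum_apply]
    refine Finset.sum_congr rfl fun t _ => ?_
    rw [Pi.smul_apply, Pi.smul_apply, smul_eq_mul, smul_eq_mul]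
    unfold H96RE.mono
    rw [Finset.prod_singleton, mul_comm]
    rfl
  rw [h1]
  exact Submodule.sum_mem _ fun t _ => Submodule.smul_mem _ _ (H96RE.mono_mem (by simp))

theorem prod_mem (c : Fin m → Fin s → Fin l → ZMod 2) (T : Finset (Fin m × Fin l)) :
    (fun z : Pt (m * s) => ∏ v ∈ T, sub c z v) ∈ H96RE.Pol (m * s) T.card := by
  induction T using Finset.induction_on with
  | empty =>
    simp only [Finset.prod_empty]
    exact H96RE.const_mem 1
  | insert v T hv ih =>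
    rw [Finset.card_insert_of_notMem hv, add_comm]
    have h1 : (fun z : Pt (m * s) => ∏ v ∈ insert v T, sub c z v) =
        (fun z : Pt (m * s) => sub c z v) * fun z => ∏ v ∈ T, sub c z v := by
      funext z
      rw [Finset.prod_insert hv]
      rfl
    rw [h1]
    exact H96RE.Pol_mul (lin_mem c v) ih

theorem deg_sub (c : Fin m → Fin s → Fin l → ZMod 2) {d : ℕ} {g : (Fin m × Fin l → ZMod 2) → ZMod 2}
    (hg : DegLE d g) : (fun z : Pt (m * s) => g (sub c z)) ∈ H96RE.Pol (m * s) d := by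
  obtain ⟨a, ha⟩ := hg
  have h1 : (fun z : Pt (m * s) => g (sub c z)) =
      ∑ T ∈ Finset.univ.filter (fun T : Finset (Fin m × Fin l) => T.card ≤ d),
        a T • fun z : Pt (m * s) => ∏ v ∈ T, sub c z v := by
    funext z
    rw [ha, Finset.sum_apply]
    refine Finset.sum_congr rfl fun T _ => ?_
    rw [Pi.smul_apply, smul_eq_mul]
  rw [h1]
  exact Submodule.sum_mem _ fun T hT => Submodule.smul_mem _ _
    (H96RE.Pol_mono (Finset.mem_filter.1 hT).2 (prod_mem c T))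

theorem deg_sub1 (c : Fin m → Fin s → Fin l → ZMod 2) {d : ℕ} {g : (Fin m × Fin l → ZMod 2) → ZMod 2}
    (hg : DegLE d g) : (fun z : Pt (m * s) => 1 + g (sub c z)) ∈ H96RE.Pol (m * s) d := by
  have h1 : (fun z : Pt (m * s) => 1 + g (sub c z)) = (fun _ => (1 : ZMod 2)) + fun z => g (sub c z) := rfl
  rw [h1]
  exact Submodule.add_mem _ (H96RE.const_mem 1) (deg_sub c hg)

theorem bridge {e t f N : ℕ} (h : Refutes e (DegLE t) f (Different m l) N) (c : Fin m → Fin s → Fin l → ZMod 2) :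
    ∃ A : ℕ → Set (Pt (m * s)),
    (∀ i < N, ∃ (P : Set (Pt (m * s) → ZMod 2)) (h : Pt (m * s) → ZMod 2),
      (∀ p ∈ P, p ∈ H96RE.Pol (m * s) e) ∧ h ∈ H96RE.Pol (m * s) t ∧
        A i = {x | (∀ p ∈ P, p x = 0) ∧ h x = 0}) ∧
    (∀ i < N, (∃ a b, a ≠ b ∧ ∀ x ∈ A i, pos c a (zz x a) = pos c b (zz x b)) ∨
      ∃ Q : Finset ℕ, Q.card ≤ f ∧ (∀ j ∈ Q, j < i) ∧ ∀ x ∈ A i, ∃ j ∈ Q, x ∈ A j) ∧
    ∃ i < N, A i = Set.univ := by
  obtain ⟨L, hN, hlast, hL⟩ := h
  have h01 : ∀ a : ZMod 2, 1 + a = 0 ↔ ¬ a = 0 := by decide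
  have hmem : ∀ i (z : Pt (m * s)), z ∈ {z : Pt (m * s) | ¬ (L i).Holds (sub c z)} ↔
      ((∀ p ∈ (fun g : (Fin m × Fin l → ZMod 2) → ZMod 2 => fun z : Pt (m * s) => 1 + g (sub c z)) '' (L i).E,
        p z = 0) ∧ 1 + (L i).p (sub c z) = 0) := by
    intro i z
    have h1 : z ∈ {z : Pt (m * s) | ¬ (L i).Holds (sub c z)} ↔ ¬ (L i).Holds (sub c z) := Iff.rfl
    rw [h1]
    unfold Line.Holds
    rw [not_or]
    constructor
    · rintro ⟨h2, h3⟩
      refine ⟨?_, (h01 _).2 h3⟩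
      rintro _ ⟨g, hg, rfl⟩
      exact (h01 _).2 fun h4 => h2 ⟨g, hg, h4⟩
    · rintro ⟨h2, h3⟩
      refine ⟨?_, (h01 _).1 h3⟩
      rintro ⟨g, hg, h4⟩
      exact (h01 _).1 (h2 _ ⟨g, hg, rfl⟩) h4
  refine ⟨fun i => {z | ¬ (L i).Holds (sub c z)}, ?_, ?_, ?_⟩
  · intro i _
    refine ⟨(fun g : (Fin m × Fin l → ZMod 2) → ZMod 2 => fun z : Pt (m * s) => 1 + g (sub c z)) '' (L i).E,
      fun z => 1 + (L i).p (sub c z), ?_, deg_sub1 c (L i).hp, ?_⟩
    · rintro _ ⟨g, hg, rfl⟩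
      exact deg_sub1 c ((L i).hE g hg)
    · ext z
      exact hmem i z
  · intro i hi
    rcases hL i hi with ⟨C, ⟨a, b, hab, rfl⟩, hC⟩ | ⟨J, hJ, hJi, hJL⟩
    · refine Or.inl ⟨a, b, hab, fun z hz => ?_⟩
      by_contra hne
      have hz' : ¬ (L i).Holds (sub c z) := hz
      refine hz' (hC _ ?_)
      by_contra h2
      refine hne (funext fun j => ?_)
      by_contra h3
      exact h2 ⟨j, h3⟩
    · refine Or.inr ⟨J, hJ, hJi, fun z hz => ?_⟩
      by_contra h2
      have hz' : ¬ (L i).Holds (sub c z) := hz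
      refine hz' (hJL _ fun j hj => ?_)
      by_contra h3
      exact h2 ⟨j, hj, h3⟩
  · refine ⟨N - 1, by omega, ?_⟩
    ext z
    exact ⟨fun _ => Set.mem_univ _, fun _ => hlast _⟩

end H81BX
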