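import Pool.Agent.H96.RE.PolRM
import Pool.Agent.H96.RE.Approx
import Pool.Agent.H33.RP.Prp

/-!
Size-degree relation for a general pseudo-ideal (helper81, MP_28250c_BX); adapted from H96/RE/ThmC (helper27, helper96).
-/

set_option autoImplicit false
open scoped Classical

namespace H81BX

open H96RE

theorem mul_mem_K {n E : ℕ} {K : Submodule (ZMod 2) ((Fin n → ZMod 2) → ZMod 2)} (hK : H33RP.Clo n E K)
    {g h : (Fin n → ZMod 2) → ZMod 2} {a b : ℕ} (hg : g ∈ K) (ha : g ∈ Pol n a) (hb : h ∈ Pol n b)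
    (hab : a + b ≤ E) : g * h ∈ K := by
  have hm : ∀ T : Finset (Fin n), a + T.card ≤ E → g * mono T ∈ K := by
    intro T
    induction T using Finset.induction_on with
    | empty =>
      intro _
      have h1 : g * mono (∅ : Finset (Fin n)) = g := by
        funext x
        simp [mono]
      rw [h1]
      exact hg
    | insert i T hi ih =>
      intro hE
      rw [Finset.card_insert_of_notMem hi] at hE
      have h1 : g * mono (insert i T) = fun x => x i * (g * mono T) x := by
        funext x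
        simp only [Pi.mul_apply, mono, Finset.prod_insert hi]
        ring
      rw [h1]
      exact hK (g * mono T) i (a + T.card) (ih (by omega)) (Pol_mul ha (mono_mem (le_refl T.card))) (by omega)
  unfold Pol at hb
  induction hb using Submodule.span_induction with
  | mem h hh =>
    obtain ⟨T, hT, rfl⟩ := hh
    exact hm T (by have hT' : T.card ≤ b := hT; omega)
  | zero => rw [mul_zero]; exact Submodule.zero_mem _
  | add u v _ _ hu hv => rw [mul_add]; exact Submodule.add_mem _ hu hv
  | smul c u _ hu => rw [mul_smul_comm]; exact Submodule.smul_mem _ c hu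

theorem Sd_zmod (a : ZMod 2) : a = 0 ∨ a = 1 := by
  revert a
  decide

theorem Sd_union {n : ℕ} (D' : ℕ) (Er : ℕ → Set (Fin n → ZMod 2)) (N : ℕ) :
    H96RX.rk (Fin n → ZMod 2) D' {x | ∃ i < N, x ∈ Er i} ≤
      ∑ i ∈ Finset.range N, H96RX.rk (Fin n → ZMod 2) D' (Er i) := by
  induction N with
  | zero =>
    have h1 : {x : Fin n → ZMod 2 | ∃ i < 0, x ∈ Er i} = ∅ := by
      ext x
      simp
    rw [h1, H96RX.rk_empty]
    exact Nat.zero_le _
  | succ N ih =>
    have h1 : {x : Fin n → ZMod 2 | ∃ i < N + 1, x ∈ Er i} = {x | ∃ i < N, x ∈ Er i} ∪ Er N := by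
      ext x
      constructor
      · rintro ⟨i, hi, hx⟩
        rcases Nat.lt_succ_iff_lt_or_eq.1 hi with h | h
        · exact Or.inl ⟨i, h, hx⟩
        · rw [h] at hx
          exact Or.inr hx
      · rintro (⟨i, hi, hx⟩ | hx)
        · exact ⟨i, hi.trans (Nat.lt_succ_self N), hx⟩
        · exact ⟨N, Nat.lt_succ_self N, hx⟩
    rw [h1, Finset.sum_range_succ]
    have h2 := H96RX.rk_submod (V := Fin n → ZMod 2) D' {x | ∃ i < N, x ∈ Er i} (Er N)
    omega

theorem Sd_exists {n N D' : ℕ} (G' : Finset (Finset (Fin n))) (hG' : ∀ T ∈ G', T.card ≤ D')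
    (Er : ℕ → Set (Fin n → ZMod 2))
    (h : ∑ i ∈ Finset.range N, H96RX.rk (Fin n → ZMod 2) D' (Er i) < G'.card) :
    ∃ φ ∈ Submodule.span (ZMod 2) (mono '' (G' : Set (Finset (Fin n)))), φ ≠ 0 ∧
      ∀ i < N, ∀ x ∈ Er i, φ x = 0 := by
  obtain ⟨X, hX⟩ : ∃ X : Submodule (ZMod 2) ((Fin n → ZMod 2) → ZMod 2),
      X = Submodule.span (ZMod 2) (mono '' (G' : Set (Finset (Fin n)))) := ⟨_, rfl⟩
  have hfX : Module.finrank (ZMod 2) X = G'.card := by
    have h1 : LinearIndependent (ZMod 2) (fun T : G' => mono (T : Finset (Fin n))) :=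
      (mono_indep n).comp (fun T : G' => (T : Finset (Fin n))) Subtype.val_injective
    have h2 := finrank_span_eq_card h1
    have h3 : Set.range (fun T : G' => mono (T : Finset (Fin n))) = mono '' (G' : Set (Finset (Fin n))) := by
      ext g
      constructor
      · rintro ⟨T, rfl⟩
        exact ⟨T.1, T.2, rfl⟩
      · rintro ⟨T, hT, rfl⟩
        exact ⟨⟨T, hT⟩, rfl⟩
    rw [h3, Fintype.card_coe] at h2
    rw [hX]
    exact h2
  have hXR : X ≤ H96RX.RM (Fin n → ZMod 2) D' := by
    rw [← Pol_eq_RM, hX]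
    refine Submodule.span_le.2 ?_
    rintro _ ⟨T, hT, rfl⟩
    exact mono_mem (hG' T hT)
  obtain ⟨U, hU⟩ : ∃ U : Set (Fin n → ZMod 2), U = {x | ∃ i < N, x ∈ Er i} := ⟨_, rfl⟩
  have h2 := Sd_union D' Er N
  rw [← hU] at h2
  have h3 := H96RX.rk_add (V := Fin n → ZMod 2) D' U
  have h4 := Submodule.finrank_sup_add_finrank_inf_eq X (H96RX.RM (Fin n → ZMod 2) D' ⊓ H96RX.van U)
  have h5 : Module.finrank (ZMod 2) ↥(X ⊔ (H96RX.RM (Fin n → ZMod 2) D' ⊓ H96RX.van U)) ≤
      Module.finrank (ZMod 2) (H96RX.RM (Fin n → ZMod 2) D') :=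
    Submodule.finrank_mono (sup_le hXR inf_le_left)
  have h6 : 0 < Module.finrank (ZMod 2) ↥(X ⊓ (H96RX.RM (Fin n → ZMod 2) D' ⊓ H96RX.van U)) := by
    omega
  have h7 : X ⊓ (H96RX.RM (Fin n → ZMod 2) D' ⊓ H96RX.van U) ≠ ⊥ := by
    intro h8
    rw [h8, finrank_bot] at h6
    exact lt_irrefl _ h6
  obtain ⟨φ, hφ, hφ0⟩ := Submodule.exists_mem_ne_zero_of_ne_bot h7
  refine ⟨φ, ?_, hφ0, fun i hi x hx => ?_⟩
  · rw [← hX]
    exact hφ.1
  · exact hφ.2.2 x (by rw [hU]; exact ⟨i, hi, hx⟩)

theorem sd {n N k e t f w D E : ℕ} {ι : Type} (K : Submodule (ZMod 2) ((Fin n → ZMod 2) → ZMod 2))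
    (hK : H33RP.Clo n E K) (ax : ι → (Fin n → ZMod 2) → ZMod 2) (hax : ∀ j, ax j ∈ K) (haxk : ∀ j, ax j ∈ Pol n k)
    {q : ℝ} (h0 : 0 < q) (h1 : q < 1) (G : Set (Finset (Fin n)))
    (hG : Disjoint (Submodule.span (ZMod 2) (mono '' {T : Finset (Fin n) | T.card ≤ E ∧ T ∈ G})) K)
    (hE1 : D + (f + 1) * (e * w + t) ≤ E) (hE2 : D + (e * w + t) + k ≤ E)
    (A : ℕ → Set (Fin n → ZMod 2))
    (hA : ∀ i < N, ∃ (P : Set ((Fin n → ZMod 2) → ZMod 2)) (h : (Fin n → ZMod 2) → ZMod 2),
      (∀ p ∈ P, p ∈ Pol n e) ∧ h ∈ Pol n t ∧ A i = {x | (∀ p ∈ P, p x = 0) ∧ h x = 0})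
    (hline : ∀ i < N, (∃ j, ∀ x ∈ A i, ax j x = 1) ∨
      ∃ Q : Finset ℕ, Q.card ≤ f ∧ (∀ j ∈ Q, j < i) ∧ ∀ x ∈ A i, ∃ j ∈ Q, x ∈ A j)
    (hlast : ∃ i < N, A i = Set.univ) :
    (1 - q) * ∑ D' ∈ Finset.range (D + 1), q ^ D' *
      ((Finset.univ.filter (fun T : Finset (Fin n) => T.card ≤ D' ∧ T ∈ G)).card : ℝ) ≤
      N * ((1 - q ^ e / 2) ^ w * (1 + q) ^ n) := by
  obtain ⟨b, hb⟩ : ∃ b, b = e * w + t := ⟨_, rfl⟩
  rw [← hb] at hE1 hE2
  have hch : ∀ i, ∃ (a : (Fin n → ZMod 2) → ZMod 2) (Er : Set (Fin n → ZMod 2)), i < N →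
      a ∈ Pol n b ∧ (∀ x, x ∉ Er → indic (A i) x = a x) ∧
        H96RX.Om (Fin n → ZMod 2) q Er ≤ (1 - q ^ e / 2) ^ w * (1 + q) ^ n := by
    intro i
    by_cases hi : i < N
    · obtain ⟨P, h, hP, hh, hAi⟩ := hA i hi
      obtain ⟨a0, ha0, ha1, hOm⟩ := approx w h0.le h1 P hP
      obtain ⟨c1, hc1, hc1x⟩ : ∃ c1 : (Fin n → ZMod 2) → ZMod 2, c1 ∈ Pol n t ∧ ∀ x, c1 x = 1 :=
        ⟨fun _ => 1, const_mem 1, fun _ => rfl⟩
      refine ⟨a0 * (c1 + h), {x | ¬ (∀ p ∈ P, p x = 0) ∧ a0 x ≠ 0}, fun _ => ⟨?_, ?_, hOm⟩⟩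
      · rw [hb]
        exact Pol_mul ha0 (Submodule.add_mem _ hc1 hh)
      · intro x hx
        rw [Pi.mul_apply, Pi.add_apply, hc1x]
        by_cases hp : ∀ p ∈ P, p x = 0
        · rw [ha1 x hp, one_mul]
          unfold indic
          rcases Sd_zmod (h x) with h2 | h2
          · rw [if_pos (by rw [hAi]; exact ⟨hp, h2⟩), h2, add_zero]
          · rw [if_neg (by rw [hAi]; rintro ⟨_, h3⟩; rw [h2] at h3; exact one_ne_zero h3), h2]
            decide
        · have h3 : a0 x = 0 := by
            by_contra h4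
            exact hx ⟨hp, h4⟩
          rw [h3, zero_mul]
          unfold indic
          exact if_neg (by rw [hAi]; rintro ⟨h4, _⟩; exact hp h4)
    · exact ⟨0, ∅, fun h => absurd h hi⟩
  choose a Er hC using hch
  have claim : ∀ D' ≤ D, (Finset.univ.filter (fun T : Finset (Fin n) => T.card ≤ D' ∧ T ∈ G)).card ≤
      ∑ i ∈ Finset.range N, H96RX.rk (Fin n → ZMod 2) D' (Er i) := by
    intro D' hD'
    obtain ⟨G', hG'⟩ : ∃ G' : Finset (Finset (Fin n)),
        G' = Finset.univ.filter (fun T : Finset (Fin n) => T.card ≤ D' ∧ T ∈ G) := ⟨_, rfl⟩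
    have hG'm : ∀ T, T ∈ G' ↔ T.card ≤ D' ∧ T ∈ G := by
      intro T
      rw [hG', Finset.mem_filter]
      exact ⟨fun h => h.2, fun h => ⟨Finset.mem_univ _, h⟩⟩
    rw [← hG']
    by_contra hcon
    obtain ⟨φ, hφX, hφ0, hφE⟩ := Sd_exists G' (fun T hT => ((hG'm T).1 hT).1) Er (not_le.1 hcon)
    apply hφ0
    have hφP : φ ∈ Pol n D' := by
      refine (Submodule.span_le.2 ?_) hφX
      rintro _ ⟨T, hT, rfl⟩
      exact mono_mem ((hG'm T).1 hT).1
    have heq : ∀ i < N, φ * indic (A i) = φ * a i := by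
      intro i hi
      funext x
      rw [Pi.mul_apply, Pi.mul_apply]
      by_cases hx : x ∈ Er i
      · rw [hφE i hi x hx, zero_mul, zero_mul]
      · rw [(hC i hi).2.1 x hx]
    have hPol : ∀ i < N, φ * a i ∈ Pol n (D' + b) := fun i hi => Pol_mul hφP (hC i hi).1
    have hPK : ∀ i, i < N → φ * a i ∈ K := by
      intro i
      induction i using Nat.strong_induction_on with
      | _ i ih =>
        intro hi
        rcases hline i hi with ⟨j, hj⟩ | ⟨Q, hQf, hQi, hcov⟩
        · have h2 : φ * a i = ax j * (φ * a i) := by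
            funext x
            rw [← heq i hi, Pi.mul_apply, Pi.mul_apply, Pi.mul_apply]
            unfold indic
            by_cases hx : x ∈ A i
            · rw [if_pos hx, hj x hx, one_mul]
            · rw [if_neg hx, mul_zero, mul_zero]
          rw [h2]
          exact mul_mem_K hK (hax j) (haxk j) (hPol i hi) (by omega)
        · -- the product over the premises
          have hPr : ∀ K' : Finset ℕ, (∀ j ∈ K', j < i) →
              (∏ j ∈ K', (1 + a j)) ∈ Pol n (b * K'.card) := by
            intro K'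
            induction K' using Finset.induction_on with
            | empty =>
              intro _
              rw [Finset.prod_empty]
              exact const_mem 1
            | insert j K' hjK ihK =>
              intro hlt
              rw [Finset.prod_insert hjK, Finset.card_insert_of_notMem hjK, Nat.mul_succ, add_comm (b * K'.card) b]
              have hjN : j < N := (hlt j (Finset.mem_insert_self j K')).trans hi
              refine Pol_mul (Submodule.add_mem _ (const_mem 1) (hC j hjN).1) ?_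
              exact ihK fun l hl => hlt l (Finset.mem_insert_of_mem hl)
          have hstep : ∀ K' : Finset ℕ, (∀ j ∈ K', j < i) → K'.card ≤ f →
              φ * a i * (1 + ∏ j ∈ K', (1 + a j)) ∈ K := by
            intro K'
            induction K' using Finset.induction_on with
            | empty =>
              intro _ _
              have h3 : φ * a i * (1 + ∏ j ∈ (∅ : Finset ℕ), (1 + a j)) = 0 := by
                funext x
                have h4 : (1 : ZMod 2) + 1 = 0 := by decide
                rw [Finset.prod_empty]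
                simp only [Pi.mul_apply, Pi.add_apply, Pi.one_apply, Pi.zero_apply, h4, mul_zero]
              rw [h3]
              exact Submodule.zero_mem _
            | insert j K' hjK ihK =>
              intro hlt hcard
              rw [Finset.card_insert_of_notMem hjK] at hcard
              have hji : j < i := hlt j (Finset.mem_insert_self j K')
              have hjN : j < N := hji.trans hi
              have hlt' : ∀ l ∈ K', l < i := fun l hl => hlt l (Finset.mem_insert_of_mem hl)
              have h3 : φ * a i * (1 + ∏ l ∈ insert j K', (1 + a l)) =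
                  φ * a i * (1 + ∏ l ∈ K', (1 + a l)) + φ * a j * (a i * ∏ l ∈ K', (1 + a l)) := by
                rw [Finset.prod_insert hjK]
                ring
              rw [h3]
              refine Submodule.add_mem _ (ihK hlt' (by omega)) ?_
              refine mul_mem_K hK (ih j hji hjN) (hPol j hjN) (Pol_mul (hC i hi).1 (hPr K' hlt')) ?_
              have h4 : b * K'.card + b ≤ b * f := by
                rw [← Nat.mul_succ]
                exact Nat.mul_le_mul_left _ hcard
              have h5 : (f + 1) * b = b * f + b := by ring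
              omega
          have h3 : φ * a i = φ * a i * (1 + ∏ j ∈ Q, (1 + a j)) := by
            funext x
            by_cases hφx : φ x = 0
            · simp only [Pi.mul_apply, hφx, zero_mul]
            · have hEr : ∀ l < N, x ∉ Er l := fun l hl hx => hφx (hφE l hl x hx)
              simp only [Pi.mul_apply, Pi.add_apply, Pi.one_apply, Finset.prod_apply]
              rw [← (hC i hi).2.1 x (hEr i hi)]
              by_cases hx : x ∈ A i
              · obtain ⟨j, hj, hxj⟩ := hcov x hx
                have hjN : j < N := (hQi j hj).trans hi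
                have h4 : (1 : ZMod 2) + a j x = 0 := by
                  rw [← (hC j hjN).2.1 x (hEr j hjN)]
                  unfold indic
                  rw [if_pos hxj]
                  decide
                rw [Finset.prod_eq_zero hj h4, add_zero, mul_one]
              · have h4 : indic (A i) x = 0 := if_neg hx
                rw [h4, mul_zero, zero_mul]
          rw [h3]
          exact hstep Q hQi hQf
    obtain ⟨i, hi, hAi⟩ := hlast
    have h2 : φ * a i = φ := by
      rw [← heq i hi]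
      funext x
      rw [Pi.mul_apply]
      unfold indic
      rw [if_pos (by rw [hAi]; exact Set.mem_univ x), mul_one]
    have h3 : φ ∈ K := by
      rw [← h2]
      exact hPK i hi
    have h4 : φ ∈ Submodule.span (ZMod 2) (mono '' {T : Finset (Fin n) | T.card ≤ E ∧ T ∈ G}) := by
      refine (Submodule.span_mono (Set.image_mono ?_)) hφX
      intro T hT
      have h5 := (hG'm T).1 hT
      exact ⟨by have h6 := h5.1; omega, h5.2⟩
    exact Submodule.disjoint_def.1 hG φ h4 h3
  have hOm : ∀ i < N, (1 - q) * ∑ D' ∈ Finset.range (D + 1), q ^ D' * (H96RX.rk (Fin n → ZMod 2) D' (Er i) : ℝ) ≤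
      (1 - q ^ e / 2) ^ w * (1 + q) ^ n := by
    intro i hi
    refine le_trans ?_ (hC i hi).2.2
    unfold H96RX.Om
    refine mul_le_mul_of_nonneg_left ?_ (by linarith)
    exact Summable.sum_le_tsum _ (fun D' _ => by positivity) (H96RX.om_summable h0.le h1 (Er i))
  have hsum : (1 - q) * ∑ D' ∈ Finset.range (D + 1), q ^ D' *
      ((Finset.univ.filter (fun T : Finset (Fin n) => T.card ≤ D' ∧ T ∈ G)).card : ℝ) ≤
      ∑ i ∈ Finset.range N, ((1 - q) * ∑ D' ∈ Finset.range (D + 1),
        q ^ D' * (H96RX.rk (Fin n → ZMod 2) D' (Er i) : ℝ)) := by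
    rw [← Finset.mul_sum, Finset.sum_comm]
    refine mul_le_mul_of_nonneg_left (Finset.sum_le_sum fun D' hD' => ?_) (by linarith)
    rw [← Finset.mul_sum]
    refine mul_le_mul_of_nonneg_left ?_ (pow_nonneg h0.le _)
    exact_mod_cast claim D' (Nat.lt_succ_iff.1 (Finset.mem_range.1 hD'))
  refine hsum.trans ?_
  calc _ ≤ ∑ _i ∈ Finset.range N, ((1 - q ^ e / 2) ^ w * (1 + q) ^ n) :=
        Finset.sum_le_sum fun i hi => hOm i (Finset.mem_range.1 hi)
    _ = N * ((1 - q ^ e / 2) ^ w * (1 + q) ^ n) := by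
        rw [Finset.sum_const, Finset.card_range, nsmul_eq_mul]

end H81BX
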