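import Mathlib

/-!
The weight of the sets with at most `e` elements in every block (helper81, MP_28250c_BX).
-/

set_option autoImplicit false
open scoped Classical

namespace H81BX

/-- The part of `T` in the block `a`. -/
noncomputable def part {m s : ℕ} (T : Finset (Fin (m * s))) (a : Fin m) : Finset (Fin s) :=
  Finset.univ.filter fun t => finProdFinEquiv (a, t) ∈ T

/-- A set is given by its parts. -/
noncomputable def partE (m s : ℕ) : Finset (Fin (m * s)) ≃ (Fin m → Finset (Fin s)) where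
  toFun T a := part T a
  invFun F := Finset.univ.filter fun i => (finProdFinEquiv.symm i).2 ∈ F (finProdFinEquiv.symm i).1
  left_inv := by
    intro T
    ext i
    constructor
    · intro h
      have h1 := (Finset.mem_filter.1 (Finset.mem_filter.1 h).2).2
      rwa [Prod.mk.eta, Equiv.apply_symm_apply] at h1
    · intro h
      refine Finset.mem_filter.2 ⟨Finset.mem_univ _, Finset.mem_filter.2 ⟨Finset.mem_univ _, ?_⟩⟩
      rwa [Prod.mk.eta, Equiv.apply_symm_apply]
  right_inv := by
    intro F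
    funext a
    ext t
    constructor
    · intro h
      have h1 := (Finset.mem_filter.1 (Finset.mem_filter.1 h).2).2
      rwa [Equiv.symm_apply_apply] at h1
    · intro h
      refine Finset.mem_filter.2 ⟨Finset.mem_univ _, Finset.mem_filter.2 ⟨Finset.mem_univ _, ?_⟩⟩
      rwa [Equiv.symm_apply_apply]

theorem part_card {m s : ℕ} (T : Finset (Fin (m * s))) (a : Fin m) :
    (part T a).card = (T.filter fun i => (finProdFinEquiv.symm i).1 = a).card := by
  refine Finset.card_bij (fun t _ => finProdFinEquiv (a, t)) ?_ ?_ ?_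
  · intro t ht
    refine Finset.mem_filter.2 ⟨(Finset.mem_filter.1 ht).2, ?_⟩
    rw [Equiv.symm_apply_apply]
  · intro t _ t' _ h
    exact (Prod.mk.inj (finProdFinEquiv.injective h)).2
  · intro i hi
    obtain ⟨h1, h2⟩ := Finset.mem_filter.1 hi
    refine ⟨(finProdFinEquiv.symm i).2, Finset.mem_filter.2 ⟨Finset.mem_univ _, ?_⟩, ?_⟩
    · rw [← h2, Prod.mk.eta, Equiv.apply_symm_apply]
      exact h1
    · rw [← h2, Prod.mk.eta, Equiv.apply_symm_apply]

theorem card_parts {m s : ℕ} (T : Finset (Fin (m * s))) : T.card = ∑ a, (part T a).card := by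
  rw [Finset.card_eq_sum_card_fiberwise (f := fun i => (finProdFinEquiv.symm i).1) (t := Finset.univ)
    (fun _ _ => Finset.mem_coe.2 (Finset.mem_univ _))]
  exact Finset.sum_congr rfl fun a _ => (part_card T a).symm

theorem sum_parts {m s : ℕ} (φ : Finset (Fin s) → ℝ) :
    ∑ T : Finset (Fin (m * s)), ∏ a, φ (part T a) = (∑ U, φ U) ^ m := by
  have h1 : ∑ T : Finset (Fin (m * s)), ∏ a, φ (part T a) = ∑ F : Fin m → Finset (Fin s), ∏ a, φ (F a) :=
    Fintype.sum_equiv (partE m s) _ _ fun T => rfl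
  rw [h1]
  have h2 := Finset.prod_univ_sum (fun _ : Fin m => (Finset.univ : Finset (Finset (Fin s)))) (fun _ U => φ U)
  rw [Fintype.piFinset_univ] at h2
  rw [← h2, Finset.prod_const, Finset.card_univ, Fintype.card_fin]

theorem sum_pow_card (s : ℕ) (q : ℝ) : ∑ U : Finset (Fin s), q ^ U.card = (1 + q) ^ s := by
  have h1 := Finset.sum_pow_mul_eq_add_pow q 1 (Finset.univ : Finset (Fin s))
  rw [Finset.powerset_univ, Finset.card_univ, Fintype.card_fin] at h1
  rw [add_comm, ← h1]
  refine Finset.sum_congr rfl fun U _ => ?_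
  rw [one_pow, mul_one]

/-- The sets with at most `e` elements in every block. -/
def Gd (m s e : ℕ) : Set (Finset (Fin (m * s))) :=
  {T | ∀ a : Fin m, (T.filter fun i => (finProdFinEquiv.symm i).1 = a).card ≤ e}

theorem sum_Gd {m s e : ℕ} (q : ℝ) :
    ∑ T ∈ Finset.univ.filter (fun T : Finset (Fin (m * s)) => T ∈ Gd m s e), q ^ T.card =
      (∑ U ∈ Finset.univ.filter (fun U : Finset (Fin s) => U.card ≤ e), q ^ U.card) ^ m := by
  rw [Finset.sum_filter, Finset.sum_filter, ← sum_parts]
  refine Finset.sum_congr rfl fun T _ => ?_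
  by_cases hT : T ∈ Gd m s e
  · rw [if_pos hT, card_parts, ← Finset.prod_pow_eq_pow_sum]
    refine Finset.prod_congr rfl fun a _ => ?_
    rw [if_pos]
    rw [part_card]
    exact hT a
  · rw [if_neg hT]
    unfold Gd at hT
    have h1 : ∃ a : Fin m, ¬ (T.filter fun i => (finProdFinEquiv.symm i).1 = a).card ≤ e := by
      by_contra h2
      push Not at h2
      exact hT h2
    obtain ⟨a, ha⟩ := h1
    refine (Finset.prod_eq_zero (Finset.mem_univ a) ?_).symm
    rw [if_neg]
    rw [part_card]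
    exact ha

theorem block_weight {s e : ℕ} {q : ℝ} (h0 : 0 ≤ q) (h1 : q ≤ 1) :
    (1 + q) ^ s * (1 - 2 ^ s * q ^ (e + 1)) ≤
      ∑ U ∈ Finset.univ.filter (fun U : Finset (Fin s) => U.card ≤ e), q ^ U.card := by
  have h2 := Finset.sum_filter_add_sum_filter_not (Finset.univ : Finset (Finset (Fin s)))
    (fun U => U.card ≤ e) (fun U => q ^ U.card)
  rw [sum_pow_card] at h2
  have h3 : ∑ U ∈ Finset.univ.filter (fun U : Finset (Fin s) => ¬ U.card ≤ e), q ^ U.card ≤
      2 ^ s * q ^ (e + 1) := by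
    calc ∑ U ∈ Finset.univ.filter (fun U : Finset (Fin s) => ¬ U.card ≤ e), q ^ U.card
        ≤ ∑ _U ∈ Finset.univ.filter (fun U : Finset (Fin s) => ¬ U.card ≤ e), q ^ (e + 1) := by
          refine Finset.sum_le_sum fun U hU => ?_
          have h4 := (Finset.mem_filter.1 hU).2
          exact pow_le_pow_of_le_one h0 h1 (by omega)
      _ = (Finset.univ.filter (fun U : Finset (Fin s) => ¬ U.card ≤ e)).card * q ^ (e + 1) := by
          rw [Finset.sum_const, nsmul_eq_mul]
      _ ≤ 2 ^ s * q ^ (e + 1) := by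
          refine mul_le_mul_of_nonneg_right ?_ (by positivity)
          have h4 := Finset.card_filter_le (Finset.univ : Finset (Finset (Fin s))) (fun U => ¬ U.card ≤ e)
          rw [Finset.card_univ, Fintype.card_finset, Fintype.card_fin] at h4
          exact_mod_cast h4
  have h4 : (1 : ℝ) ≤ (1 + q) ^ s := one_le_pow₀ (by linarith)
  have h5 : (0 : ℝ) ≤ 2 ^ s * q ^ (e + 1) := by positivity
  have h6 : 2 ^ s * q ^ (e + 1) ≤ (1 + q) ^ s * (2 ^ s * q ^ (e + 1)) := le_mul_of_one_le_left h5 h4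
  linarith

theorem tail {n D : ℕ} {q : ℝ} (h0 : 0 ≤ q) (hD : 3 * q * n ≤ D) :
    ∑ T ∈ Finset.univ.filter (fun T : Finset (Fin n) => D < T.card), q ^ T.card ≤ 1 / 2 := by
  have h1 : ∑ T ∈ Finset.univ.filter (fun T : Finset (Fin n) => D < T.card), q ^ T.card ≤
      ∑ T : Finset (Fin n), (2 * q) ^ T.card / 2 ^ (D + 1) := by
    rw [Finset.sum_filter]
    refine Finset.sum_le_sum fun T _ => ?_
    by_cases hT : D < T.card
    · rw [if_pos hT, mul_pow, le_div_iff₀ (by positivity), mul_comm]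
      refine mul_le_mul_of_nonneg_right ?_ (by positivity)
      exact pow_le_pow_right₀ (by norm_num) hT
    · rw [if_neg hT]
      positivity
  refine h1.trans ?_
  rw [← Finset.sum_div, sum_pow_card]
  have h2 : (1 + 2 * q) ^ n ≤ 2 ^ D := by
    have h3 : (1 + 2 * q) ^ n ≤ Real.exp (2 * q) ^ n := by
      refine pow_le_pow_left₀ (by linarith) ?_ n
      have := Real.add_one_le_exp (2 * q)
      linarith
    refine h3.trans ?_
    rw [← Real.exp_nat_mul]
    have h4 : (2 : ℝ) ^ D = Real.exp (D * Real.log 2) := by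
      rw [Real.exp_nat_mul, Real.exp_log (by norm_num)]
    rw [h4, Real.exp_le_exp]
    have h5 := Real.log_two_gt_d9
    have h6 : (0 : ℝ) ≤ D := Nat.cast_nonneg D
    nlinarith
  rw [div_le_div_iff₀ (by positivity) (by norm_num), pow_succ]
  linarith

theorem weight {m s e D : ℕ} {q : ℝ} (h0 : 0 ≤ q) (h1 : q ≤ 1) (hx : 2 ^ s * q ^ (e + 1) ≤ 1)
    (hD : 3 * q * ((m * s : ℕ) : ℝ) ≤ D) :
    (1 + q) ^ (m * s) * (1 - 2 ^ s * q ^ (e + 1)) ^ m ≤
      2 * ∑ T ∈ Finset.univ.filter (fun T : Finset (Fin (m * s)) => T.card ≤ D ∧ T ∈ Gd m s e), q ^ T.card := by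
  obtain ⟨Z, hZ⟩ : ∃ Z : ℝ, Z = ∑ T ∈ Finset.univ.filter (fun T : Finset (Fin (m * s)) => T ∈ Gd m s e),
      q ^ T.card := ⟨_, rfl⟩
  have hZ1 : (1 + q) ^ (m * s) * (1 - 2 ^ s * q ^ (e + 1)) ^ m ≤ Z := by
    rw [hZ, sum_Gd, mul_comm m s, pow_mul, ← mul_pow]
    refine pow_le_pow_left₀ ?_ (block_weight h0 h1) m
    have h2 : (0 : ℝ) ≤ 1 - 2 ^ s * q ^ (e + 1) := by linarith
    positivity
  have hZ2 : 1 ≤ Z := by
    rw [hZ]
    have h2 : (∅ : Finset (Fin (m * s))) ∈ Finset.univ.filter (fun T : Finset (Fin (m * s)) => T ∈ Gd m s e) := by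
      refine Finset.mem_filter.2 ⟨Finset.mem_univ _, fun a => ?_⟩
      simp
    have h3 := Finset.single_le_sum (f := fun T : Finset (Fin (m * s)) => q ^ T.card)
      (fun T _ => by positivity) h2
    simpa using h3
  have h2 : Z ≤ ∑ T ∈ Finset.univ.filter (fun T : Finset (Fin (m * s)) => T.card ≤ D ∧ T ∈ Gd m s e), q ^ T.card +
      ∑ T ∈ Finset.univ.filter (fun T : Finset (Fin (m * s)) => D < T.card), q ^ T.card := by
    rw [hZ, Finset.sum_filter, Finset.sum_filter, Finset.sum_filter, ← Finset.sum_add_distrib]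
    refine Finset.sum_le_sum fun T _ => ?_
    have h3 : 0 ≤ q ^ T.card := by positivity
    by_cases hT : T ∈ Gd m s e
    · by_cases hc : T.card ≤ D
      · rw [if_pos hT, if_pos ⟨hc, hT⟩, if_neg (by omega)]
        linarith
      · rw [if_pos hT, if_neg (fun h => hc h.1), if_pos (by omega)]
        linarith
    · rw [if_neg hT, if_neg (fun h => hT h.2)]
      by_cases hc : D < T.card
      · rw [if_pos hc]
        linarith
      · rw [if_neg hc]
        linarith
  have h3 := tail (n := m * s) (D := D) h0 hD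
  linarith

end H81BX
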