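import Pool.Agent.H81.BX.Php
import Pool.Agent.H81.BX.Sd
import Pool.Agent.H81.BX.Wt

/-!
The lower bound for a table of linear maps with good expansion (helper81, MP_28250c_BX).
-/

set_option autoImplicit false
open scoped Classical

namespace H81BX

open ResXor

theorem core0 {m s l e f t w D E B N : ℕ} (c : Fin m → Fin s → Fin l → ZMod 2) (hc : (php c e).Exp 4 B)
    (hEB : 8 * E ≤ B) (hsE : 2 * s ≤ E) (hs1 : 1 ≤ s) {q : ℝ} (h0 : 0 < q) (h1 : q ≤ 1 / 2)
    (hE1 : D + (f + 1) * (e * w + t) ≤ E) (hE2 : D + (e * w + t) + 2 * s ≤ E)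
    (A : ℕ → Set (Pt (m * s)))
    (hA : ∀ i < N, ∃ (P : Set (Pt (m * s) → ZMod 2)) (h : Pt (m * s) → ZMod 2),
      (∀ p ∈ P, p ∈ H96RE.Pol (m * s) e) ∧ h ∈ H96RE.Pol (m * s) t ∧ A i = {x | (∀ p ∈ P, p x = 0) ∧ h x = 0})
    (hline : ∀ i < N, (∃ a b, a ≠ b ∧ ∀ x ∈ A i, pos c a (zz x a) = pos c b (zz x b)) ∨
      ∃ Q : Finset ℕ, Q.card ≤ f ∧ (∀ j ∈ Q, j < i) ∧ ∀ x ∈ A i, ∃ j ∈ Q, x ∈ A j)
    (hlast : ∃ i < N, A i = Set.univ) :
    ∑ T ∈ Finset.univ.filter (fun T : Finset (Fin (m * s)) => T.card ≤ D ∧ T ∈ Gd m s e), q ^ T.card ≤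
      2 * (N * ((1 - q ^ e / 2) ^ w * (1 + q) ^ (m * s))) := by
  obtain ⟨o, ho⟩ := H33RP.ord_exists (m * s)
  obtain ⟨K, hK, hKax, hKgood⟩ := ideal (F := php c e) (E := E) (B := B) (C := 4) o ho hc (by omega) (by norm_num)
  have hsd := sd (N := N) (k := 2 * s) (e := e) (t := t) (f := f) (w := w) (D := D) (E := E)
    (ι := {p : Fin m × Fin m // p.1 ≠ p.2}) K hK (fun p => ax c p.1.1 p.1.2)
    (by
      rintro ⟨⟨a, b⟩, hab⟩
      exact hKax {a, b} ((Finset.card_le_two).trans (by omega)) _ (ax_span c e hsE a b) (ax_Vn c e hab))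
    (by
      rintro ⟨⟨a, b⟩, hab⟩
      refine Submodule.span_mono (Set.image_mono ?_) (ax_span c e (E := 2 * s) le_rfl a b)
      rintro T ⟨hT, -⟩
      exact hT)
    h0 (by linarith) (Gd m s e)
    (by
      rw [Submodule.disjoint_def]
      intro g hg hgK
      refine hKgood g (Submodule.span_mono (Set.image_mono ?_) hg) hgK
      rintro T ⟨hT1, hT2⟩
      exact ⟨hT1, fun J hJ => not_red c hc o ho T hT2 J hJ⟩)
    hE1 hE2 A hA
    (by
      intro i hi
      rcases hline i hi with ⟨a, b, hab, h2⟩ | h2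
      · exact Or.inl ⟨⟨(a, b), hab⟩, fun x hx => if_pos (h2 x hx)⟩
      · exact Or.inr h2)
    hlast
  have h2 : ∑ T ∈ Finset.univ.filter (fun T : Finset (Fin (m * s)) => T.card ≤ D ∧ T ∈ Gd m s e), q ^ T.card ≤
      ∑ D' ∈ Finset.range (D + 1), q ^ D' *
      ((Finset.univ.filter (fun T : Finset (Fin (m * s)) => T.card ≤ D' ∧ T ∈ Gd m s e)).card : ℝ) := by
    have h3 : ∑ T ∈ Finset.univ.filter (fun T : Finset (Fin (m * s)) => T.card ≤ D ∧ T ∈ Gd m s e), q ^ T.card =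
        ∑ D' ∈ Finset.range (D + 1), ∑ T ∈ (Finset.univ.filter
          (fun T : Finset (Fin (m * s)) => T.card ≤ D ∧ T ∈ Gd m s e)).filter (fun T => T.card = D'),
            q ^ T.card := by
      refine (Finset.sum_fiberwise_of_maps_to ?_ _).symm
      intro T hT
      exact Finset.mem_range.2 (Nat.lt_succ_of_le (Finset.mem_filter.1 hT).2.1)
    rw [h3]
    refine Finset.sum_le_sum fun D' _ => ?_
    have h4 : ∑ T ∈ (Finset.univ.filter
          (fun T : Finset (Fin (m * s)) => T.card ≤ D ∧ T ∈ Gd m s e)).filter (fun T => T.card = D'),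
            q ^ T.card = q ^ D' * (((Finset.univ.filter
          (fun T : Finset (Fin (m * s)) => T.card ≤ D ∧ T ∈ Gd m s e)).filter (fun T => T.card = D')).card : ℝ) := by
      rw [Finset.sum_congr rfl fun T hT => by rw [(Finset.mem_filter.1 hT).2], Finset.sum_const, nsmul_eq_mul,
        mul_comm]
    rw [h4]
    refine mul_le_mul_of_nonneg_left ?_ (by positivity)
    have h5 : ((Finset.univ.filter
          (fun T : Finset (Fin (m * s)) => T.card ≤ D ∧ T ∈ Gd m s e)).filter (fun T => T.card = D')).card ≤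
        (Finset.univ.filter (fun T : Finset (Fin (m * s)) => T.card ≤ D' ∧ T ∈ Gd m s e)).card := by
      refine Finset.card_le_card fun T hT => ?_
      obtain ⟨h6, h7⟩ := Finset.mem_filter.1 hT
      exact Finset.mem_filter.2 ⟨Finset.mem_univ _, h7.le, (Finset.mem_filter.1 h6).2.2⟩
    exact_mod_cast h5
  have h3 : (0 : ℝ) ≤ ∑ D' ∈ Finset.range (D + 1), q ^ D' *
      ((Finset.univ.filter (fun T : Finset (Fin (m * s)) => T.card ≤ D' ∧ T ∈ Gd m s e)).card : ℝ) := by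
    positivity
  nlinarith

/-- Numerical form. -/
theorem core1 {m s l e f t E B N b κ : ℕ} (c : Fin m → Fin s → Fin l → ZMod 2) (hc : (php c e).Exp 4 B)
    (hEB : 8 * E ≤ B) (hs1 : 1 ≤ s) (he1 : 1 ≤ e) (hm : 1 ≤ m) (hEm : E ≤ m)
    (hκ : κ = 2 ^ (s + 6) * (f + 1) * e) (ht : 4 * (f + 1) * t ≤ E)
    (hb : 96 * (f + 1) * e * κ ^ e * b * m ^ e ≤ E ^ (e + 1))
    (A : ℕ → Set (Pt (m * s)))
    (hA : ∀ i < N, ∃ (P : Set (Pt (m * s) → ZMod 2)) (h : Pt (m * s) → ZMod 2),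
      (∀ p ∈ P, p ∈ H96RE.Pol (m * s) e) ∧ h ∈ H96RE.Pol (m * s) t ∧ A i = {x | (∀ p ∈ P, p x = 0) ∧ h x = 0})
    (hline : ∀ i < N, (∃ a b, a ≠ b ∧ ∀ x ∈ A i, pos c a (zz x a) = pos c b (zz x b)) ∨
      ∃ Q : Finset ℕ, Q.card ≤ f ∧ (∀ j ∈ Q, j < i) ∧ ∀ x ∈ A i, ∃ j ∈ Q, x ∈ A j)
    (hlast : ∃ i < N, A i = Set.univ) :
    2 ^ b ≤ N := by
  rcases Nat.eq_zero_or_pos b with hb0 | hb0
  · obtain ⟨i, hi, -⟩ := hlast
    rw [hb0, pow_zero]
    omega
  have hκ1 : 2 ^ (s + 6) ≤ κ := by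
    rw [hκ, mul_assoc]
    exact Nat.le_mul_of_pos_right _ (by positivity)
  have hκe : κ ≤ κ ^ e := Nat.le_self_pow (by omega) κ
  have hs2 : s < 2 ^ s := Nat.lt_two_pow_self
  have h64 : 64 * 2 ^ s ≤ κ := by
    refine le_trans (le_of_eq ?_) hκ1
    rw [pow_add]
    ring
  -- `E` is large
  have hE1 : 96 * (f + 1) * e * κ ≤ E := by
    have h1 : 96 * (f + 1) * e * κ * E ^ e ≤ E * E ^ e := by
      calc 96 * (f + 1) * e * κ * E ^ e ≤ 96 * (f + 1) * e * κ ^ e * m ^ e := by gcongr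
        _ = 96 * (f + 1) * e * κ ^ e * 1 * m ^ e := by ring
        _ ≤ 96 * (f + 1) * e * κ ^ e * b * m ^ e := by gcongr; omega
        _ ≤ E ^ (e + 1) := hb
        _ = E * E ^ e := by ring
    rcases Nat.eq_zero_or_pos E with h2 | h2
    · exfalso
      rw [h2, zero_pow (by omega)] at hb
      have h3 : 0 < 96 * (f + 1) * e * κ ^ e * b * m ^ e := by
        have : 0 < κ := by omega
        positivity
      omega
    · exact Nat.le_of_mul_le_mul_right h1 (by positivity)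
  have hfe : 1 ≤ (f + 1) * e := Nat.mul_pos (by omega) (by omega)
  have hE2 : 96 * κ ≤ E := by
    refine le_trans ?_ hE1
    calc 96 * κ = 96 * 1 * κ := by ring
      _ ≤ 96 * ((f + 1) * e) * κ := by gcongr
      _ = 96 * (f + 1) * e * κ := by ring
  have hE3 : 96 * ((f + 1) * e) ≤ E := by
    refine le_trans ?_ hE1
    calc 96 * ((f + 1) * e) = 96 * (f + 1) * e * 1 := by ring
      _ ≤ 96 * (f + 1) * e * κ := by gcongr; omega
  obtain ⟨F, hF⟩ : ∃ F : ℕ, F = (f + 1) * e := ⟨_, rfl⟩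
  rw [← hF] at hfe hE3
  obtain ⟨w, hw⟩ : ∃ w : ℕ, w = E / (4 * F) := ⟨_, rfl⟩
  obtain ⟨D, hD⟩ : ∃ D : ℕ, D = E / 8 := ⟨_, rfl⟩
  have hw1 : 4 * F * w ≤ E := by
    rw [hw]
    exact Nat.mul_div_le E (4 * F)
  have hw2 : E < 4 * F * (w + 1) := by
    rw [hw]
    exact Nat.lt_mul_div_succ E (by omega)
  have hw3 : E ≤ 8 * F * w := by
    have : 4 * F * (w + 1) = 4 * F * w + 4 * F := by ring
    have : 8 * F * w = 2 * (4 * F * w) := by ring
    omega
  have hew : e * w ≤ (f + 1) * e * w := by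
    calc e * w = 1 * (e * w) := by ring
      _ ≤ (f + 1) * (e * w) := by gcongr; omega
      _ = (f + 1) * e * w := by ring
  have hft : t ≤ (f + 1) * t := by
    calc t = 1 * t := by ring
      _ ≤ (f + 1) * t := by gcongr; omega
  have hE4 : D + (f + 1) * (e * w + t) ≤ E := by
    have h1 : (f + 1) * (e * w + t) = F * w + (f + 1) * t := by rw [hF]; ring
    have h2 : 4 * F * w = 4 * (F * w) := by ring
    have h3 : 4 * (f + 1) * t = 4 * ((f + 1) * t) := by ring
    omega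
  have hE5 : D + (e * w + t) + 2 * s ≤ E := by
    have h2 : 4 * F * w = 4 * ((f + 1) * e * w) := by rw [hF]; ring
    have h3 : 4 * (f + 1) * t = 4 * ((f + 1) * t) := by ring
    omega
  have hE0 : (0 : ℝ) < E := by
    have : 0 < E := by omega
    exact_mod_cast this
  have hm0 : (0 : ℝ) < m := by exact_mod_cast hm
  have hκ0 : (0 : ℝ) < κ := by
    have : 0 < κ := by omega
    exact_mod_cast this
  obtain ⟨q, hq⟩ : ∃ q : ℝ, q = E / (κ * m) := ⟨_, rfl⟩
  have hq0 : 0 < q := by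
    rw [hq]
    positivity
  have hEmr : (E : ℝ) ≤ m := by exact_mod_cast hEm
  have hqκ : q * κ ≤ 1 := by
    rw [hq, div_mul_eq_mul_div, div_le_one (by positivity)]
    nlinarith
  have h64r : (64 : ℝ) * 2 ^ s ≤ κ := by exact_mod_cast h64
  have h2s : (1 : ℝ) ≤ 2 ^ s := one_le_pow₀ (by norm_num)
  have hq64 : q * (64 * 2 ^ s) ≤ 1 := (mul_le_mul_of_nonneg_left h64r hq0.le).trans hqκ
  have hq1 : q ≤ 1 / 2 := by nlinarith
  have hqe : q ^ e ≤ 1 := pow_le_one₀ hq0.le (by linarith)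
  have hqe0 : 0 < q ^ e := pow_pos hq0 e
  obtain ⟨x, hx⟩ : ∃ x : ℝ, x = 2 ^ s * q ^ (e + 1) := ⟨_, rfl⟩
  have hx0 : 0 ≤ x := by
    rw [hx]
    positivity
  have hx1 : x ≤ 1 / 2 := by
    have h1 : x = q ^ e * (2 ^ s * q) := by
      rw [hx, pow_succ]
      ring
    have h2 : 2 ^ s * q ≤ 1 / 2 := by nlinarith
    rw [h1]
    calc q ^ e * (2 ^ s * q) ≤ 1 * (1 / 2) := mul_le_mul hqe h2 (by positivity) (by norm_num)
      _ = 1 / 2 := by ring
  have hDr : 3 * q * ((m * s : ℕ) : ℝ) ≤ D := by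
    have h1 : 3 * q * ((m * s : ℕ) : ℝ) = 3 * (q * m) * s := by
      push_cast
      ring
    have h2 : q * m = E / κ := by
      rw [hq]
      field_simp
    have h3 : (s : ℝ) ≤ κ / 64 := by
      have h4 : (s : ℝ) ≤ 2 ^ s := by exact_mod_cast hs2.le
      linarith
    have h4 : (E : ℝ) / κ * s ≤ E / 64 := by
      rw [div_mul_eq_mul_div, div_le_div_iff₀ hκ0 (by norm_num)]
      nlinarith
    have h5 : 3 * E ≤ 64 * D := by omega
    have h6 : (3 : ℝ) * E ≤ 64 * D := by exact_mod_cast h5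
    rw [h1, h2]
    linarith
  have hc0 := core0 (w := w) (D := D) (f := f) (t := t) c hc hEB (by omega) hs1 hq0 hq1 hE4 hE5 A hA hline hlast
  have hwt := weight (m := m) (s := s) (e := e) (D := D) hq0.le (by linarith) (by rw [← hx]; linarith) hDr
  rw [← hx] at hwt
  have h5 : (1 + q) ^ (m * s) * (1 - x) ^ m ≤ (1 + q) ^ (m * s) * (4 * N * (1 - q ^ e / 2) ^ w) := by
    refine hwt.trans ((mul_le_mul_of_nonneg_left hc0 (by norm_num)).trans (le_of_eq ?_))
    ring
  have h6 : (1 - x) ^ m ≤ 4 * N * (1 - q ^ e / 2) ^ w := le_of_mul_le_mul_left h5 (by positivity)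
  have h7 : Real.exp (-(2 * x * m)) ≤ (1 - x) ^ m := by
    have h8 : Real.exp (-(2 * x)) ≤ 1 - x := by
      rw [Real.exp_neg]
      have h9 := Real.add_one_le_exp (2 * x)
      rw [inv_le_comm₀ (Real.exp_pos _) (by linarith)]
      refine le_trans ?_ h9
      rw [inv_le_iff_one_le_mul₀ (by linarith)]
      nlinarith
    calc Real.exp (-(2 * x * m)) = Real.exp (-(2 * x)) ^ m := by
          rw [← Real.exp_nat_mul]
          congr 1
          ring
      _ ≤ (1 - x) ^ m := pow_le_pow_left₀ (Real.exp_pos _).le h8 m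
  have h8 : (1 - q ^ e / 2) ^ w ≤ Real.exp (-(q ^ e / 2 * w)) := by
    calc (1 - q ^ e / 2) ^ w ≤ Real.exp (-(q ^ e / 2)) ^ w := by
          refine pow_le_pow_left₀ (by linarith) ?_ w
          have := Real.add_one_le_exp (-(q ^ e / 2))
          linarith
      _ = Real.exp (-(q ^ e / 2 * w)) := by
          rw [← Real.exp_nat_mul]
          congr 1
          ring
  have hN0 : (0 : ℝ) ≤ N := Nat.cast_nonneg N
  have h9 : Real.exp (-(2 * x * m)) ≤ 4 * N * Real.exp (-(q ^ e / 2 * w)) :=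
    h7.trans (h6.trans (mul_le_mul_of_nonneg_left h8 (by positivity)))
  have h10 : 2 * x * m ≤ q ^ e * w / 4 := by
    have h11 : 2 * x * m = q ^ e * (2 ^ (s + 1) * (q * m)) := by
      rw [hx, pow_succ, pow_succ]
      ring
    have h12 : q * m = E / κ := by
      rw [hq]
      field_simp
    have h13 : 2 ^ (s + 1) * ((E : ℝ) / κ) ≤ w / 4 := by
      have h14 : (κ : ℝ) = 2 ^ (s + 6) * F := by
        rw [hκ, hF]
        push_cast
        ring
      have h15 : (E : ℝ) ≤ 8 * F * w := by exact_mod_cast hw3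
      have hF0 : (0 : ℝ) < F := by
        have : 0 < F := by omega
        exact_mod_cast this
      rw [h14, mul_div_assoc', div_le_div_iff₀ (by positivity) (by norm_num)]
      have h16 : (2 : ℝ) ^ (s + 6) = 32 * 2 ^ (s + 1) := by
        rw [pow_add, pow_add]
        norm_num
        ring
      rw [h16]
      have h17 : (0 : ℝ) < 2 ^ (s + 1) := by positivity
      nlinarith
    rw [h11, h12]
    calc q ^ e * (2 ^ (s + 1) * ((E : ℝ) / κ)) ≤ q ^ e * (w / 4) := mul_le_mul_of_nonneg_left h13 hqe0.le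
      _ = q ^ e * w / 4 := by ring
  have h11 : Real.exp (q ^ e * w / 4) ≤ 4 * N := by
    have h12 : Real.exp (-(2 * x * m)) * Real.exp (q ^ e / 2 * w) ≤ 4 * N := by
      have h13 := mul_le_mul_of_nonneg_right h9 (Real.exp_pos (q ^ e / 2 * w)).le
      rw [mul_assoc (4 * (N : ℝ)), ← Real.exp_add (-(q ^ e / 2 * w)), neg_add_cancel, Real.exp_zero, mul_one] at h13
      exact h13
    refine le_trans ?_ h12
    rw [← Real.exp_add, Real.exp_le_exp]
    linarith
  have h12 : (3 : ℝ) * b ≤ q ^ e * w / 4 := by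
    have h13 : (E : ℝ) ≤ 8 * F * w := by exact_mod_cast hw3
    have hF0 : (0 : ℝ) < F := by
      have : 0 < F := by omega
      exact_mod_cast this
    have h14 : (96 : ℝ) * F * κ ^ e * b * m ^ e ≤ E ^ (e + 1) := by
      have h15 : 96 * F * κ ^ e * b * m ^ e ≤ E ^ (e + 1) := by
        rw [hF]
        refine le_trans (le_of_eq ?_) hb
        ring
      exact_mod_cast h15
    have h15 : q ^ e * (κ ^ e * m ^ e) = E ^ e := by
      rw [hq, div_pow, mul_pow, div_mul_cancel₀]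
      positivity
    have h16 : (96 : ℝ) * F * b * (κ ^ e * m ^ e) ≤ q ^ e * (8 * F * w) * (κ ^ e * m ^ e) := by
      calc (96 : ℝ) * F * b * (κ ^ e * m ^ e) = 96 * F * κ ^ e * b * m ^ e := by ring
        _ ≤ E ^ (e + 1) := h14
        _ = E ^ e * E := pow_succ _ _
        _ ≤ E ^ e * (8 * F * w) := mul_le_mul_of_nonneg_left h13 (by positivity)
        _ = q ^ e * (8 * F * w) * (κ ^ e * m ^ e) := by rw [← h15]; ring
    have h17 : (96 : ℝ) * F * b ≤ q ^ e * (8 * F * w) := le_of_mul_le_mul_right h16 (by positivity)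
    have h18 : (8 * F : ℝ) * (12 * b) ≤ (8 * F : ℝ) * (q ^ e * w) := by
      calc (8 * F : ℝ) * (12 * b) = 96 * F * b := by ring
        _ ≤ q ^ e * (8 * F * w) := h17
        _ = (8 * F : ℝ) * (q ^ e * w) := by ring
    have h19 := le_of_mul_le_mul_left h18 (by positivity)
    linarith
  have h13 : (4 : ℝ) * 2 ^ b ≤ Real.exp (3 * b) := by
    have h14 : (8 : ℝ) ≤ Real.exp 3 := by
      have h15 : (2 : ℝ) ≤ Real.exp 1 := by
        have := Real.add_one_le_exp (1 : ℝ)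
        linarith
      calc (8 : ℝ) = 2 ^ 3 := by norm_num
        _ ≤ Real.exp 1 ^ 3 := pow_le_pow_left₀ (by norm_num) h15 3
        _ = Real.exp 3 := by
          rw [Real.exp_one_pow]
          norm_num
    have h15 : Real.exp (3 * b) = Real.exp 3 ^ b := by
      rw [← Real.exp_nat_mul]
      congr 1
      ring
    rw [h15]
    calc (4 : ℝ) * 2 ^ b ≤ 4 ^ b * 2 ^ b := by
          refine mul_le_mul_of_nonneg_right ?_ (by positivity)
          exact le_self_pow₀ (by norm_num) (by omega)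
      _ = 8 ^ b := by rw [← mul_pow]; norm_num
      _ ≤ Real.exp 3 ^ b := pow_le_pow_left₀ (by norm_num) h14 b
  have h14 : (4 : ℝ) * 2 ^ b ≤ 4 * N := h13.trans ((Real.exp_le_exp.2 h12).trans h11)
  have h15 : (2 : ℝ) ^ b ≤ N := by linarith
  exact_mod_cast h15

end H81BX
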