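import Pool.Agent.H81.BX.Mi

/-!
The two parts of the lower bound (helper81, MP_28250c_BX).
-/

set_option autoImplicit false
open scoped Classical

namespace H81BX

open BitPigeonhole

theorem partA (e C f : ℕ) (he : 1 ≤ e) : ∃ c : ℕ, 1 ≤ c ∧ ∀ l m t N : ℕ, 2 ^ l < m → m ≤ C * 2 ^ l →
    c * t ≤ 2 ^ l → Refutes e (DegLE t) f (Different m l) N → 2 ^ (2 ^ l / c) ≤ N := by
  obtain ⟨K, hK, hmain⟩ := main_int (r := 1) he le_rfl
  obtain ⟨c, hc⟩ : ∃ c : ℕ, c = K * (f + 1) ^ (2 * (e + 1)) * (C + 1) ^ (3 * e + 1) := ⟨_, rfl⟩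
  have hc1 : 1 ≤ c := by
    rw [hc]
    exact Nat.mul_pos (Nat.mul_pos hK (by positivity)) (by positivity)
  refine ⟨c, hc1, fun l m t N hm hmC ht hR => ?_⟩
  obtain ⟨n, hn⟩ : ∃ n : ℕ, n = 2 ^ l := ⟨_, rfl⟩
  obtain ⟨b, hb⟩ : ∃ b : ℕ, b = 2 ^ l / c := ⟨_, rfl⟩
  have hcb : c * b ≤ n := by
    rw [hb, hn]
    exact Nat.mul_div_le _ _
  rw [← hn] at hmC ht
  have hmC' : m ≤ (C + 1) * n := hmC.trans (Nat.mul_le_mul_right _ (by omega))
  rw [← hb]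
  refine hmain m l t f b N hm ?_ ?_ hR
  · rw [← hn]
    change K * (((f + 1) ^ (e + 1) * b * m ^ e) ^ 2 * m ^ (e + 1)) ≤ (n ^ 3) ^ (e + 1)
    calc K * (((f + 1) ^ (e + 1) * b * m ^ e) ^ 2 * m ^ (e + 1))
        = K * (f + 1) ^ (2 * (e + 1)) * b ^ 2 * m ^ (3 * e + 1) := by
          rw [mul_pow, mul_pow, ← pow_mul, ← pow_mul, mul_comm (e + 1) 2,
            show 3 * e + 1 = e * 2 + (e + 1) by ring, pow_add m (e * 2)]
          ring
      _ ≤ K * (f + 1) ^ (2 * (e + 1)) * b ^ 2 * ((C + 1) * n) ^ (3 * e + 1) := by gcongr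
      _ = c * b ^ 2 * n ^ (3 * e + 1) := by
          rw [hc, mul_pow]
          ring
      _ ≤ (c * b) ^ 2 * n ^ (3 * e + 1) := by
          refine Nat.mul_le_mul_right _ ?_
          rw [mul_pow, pow_two c]
          exact Nat.mul_le_mul_right _ (Nat.le_mul_of_pos_left c hc1)
      _ ≤ n ^ 2 * n ^ (3 * e + 1) := by gcongr
      _ = (n ^ 3) ^ (e + 1) := by
          rw [← pow_mul, ← pow_add]
          congr 1
          ring
  · rw [← hn]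
    change K * (((f + 1) * t) ^ 2 * m) ≤ n ^ 3
    have h1 : K * (f + 1) ^ 2 * (C + 1) ≤ c := by
      rw [hc]
      refine Nat.mul_le_mul (Nat.mul_le_mul_left _ (Nat.pow_le_pow_right (by omega) (by omega))) ?_
      exact Nat.le_self_pow (by omega) _
    calc K * (((f + 1) * t) ^ 2 * m) ≤ K * (((f + 1) * t) ^ 2 * ((C + 1) * n)) := by gcongr
      _ = (K * (f + 1) ^ 2 * (C + 1)) * t ^ 2 * n := by ring
      _ ≤ c * t ^ 2 * n := by gcongr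
      _ ≤ (c * t) ^ 2 * n := by
          refine Nat.mul_le_mul_right _ ?_
          rw [mul_pow, pow_two c]
          exact Nat.mul_le_mul_right _ (Nat.le_mul_of_pos_left c hc1)
      _ ≤ n ^ 2 * n := by gcongr
      _ = n ^ 3 := by ring

private theorem Fin_pow (a : ℝ) (k : ℕ) : ((2 : ℝ) ^ a) ^ k = (2 : ℝ) ^ (a * k) := by
  rw [Real.rpow_mul (by norm_num), Real.rpow_natCast]

private theorem Fin_mul (a b : ℝ) : (2 : ℝ) ^ a * (2 : ℝ) ^ b = (2 : ℝ) ^ (a + b) :=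
  (Real.rpow_add (by norm_num) a b).symm

theorem partB (e : ℕ) (he : 1 ≤ e) (η : ℝ) (hη : 0 < η) : ∃ δ : ℝ, 0 < δ ∧ ∃ l₀ : ℕ, ∀ l ≥ l₀,
    ∀ m t f b N : ℕ, 2 ^ l < m → (f : ℝ) ≤ 2 ^ (δ * l) → (t : ℝ) ≤ 2 ^ ((1 - η) * l) →
      (b : ℝ) * m ^ e ≤ 2 ^ ((e + 1 - η) * l) → Refutes e (DegLE t) f (Different m l) N → 2 ^ b ≤ N := by
  obtain ⟨r, hr⟩ : ∃ r : ℕ, r = ⌈2 * ((e : ℝ) + 2) / η⌉₊ + 1 := ⟨_, rfl⟩
  have hr1 : 1 ≤ r := by omega
  obtain ⟨K, hK, hmain⟩ := main_int he hr1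
  obtain ⟨ρ, hρ⟩ : ∃ ρ : ℕ, ρ = 3 * r - 1 := ⟨_, rfl⟩
  have hρη : 2 * ((e : ℝ) + 2) ≤ η * ρ := by
    have h1 : 2 * ((e : ℝ) + 2) / η ≤ (⌈2 * ((e : ℝ) + 2) / η⌉₊ : ℝ) := Nat.le_ceil _
    have h2 : ⌈2 * ((e : ℝ) + 2) / η⌉₊ ≤ ρ := by omega
    have h3 : (⌈2 * ((e : ℝ) + 2) / η⌉₊ : ℝ) ≤ ρ := by exact_mod_cast h2
    rw [div_le_iff₀ hη] at h1
    nlinarith
  have he0 : (1 : ℝ) ≤ e := by exact_mod_cast he
  have hρ0 : (0 : ℝ) ≤ ρ := Nat.cast_nonneg ρ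
  obtain ⟨δ, hδ⟩ : ∃ δ : ℝ, δ = η / (2 * (e + 1)) := ⟨_, rfl⟩
  have hδ0 : 0 < δ := by
    rw [hδ]
    positivity
  have hδe : δ * (e + 1) = η / 2 := by
    rw [hδ]
    field_simp
  refine ⟨δ, hδ0, K + (e + 1) * ρ, fun l hl m t f b N hm hf ht hb hR => ?_⟩
  have hN1 : 1 ≤ N := by
    obtain ⟨L, h1, -⟩ := hR
    exact h1
  rcases Nat.eq_zero_or_pos b with hb0 | hb0
  · rw [hb0, pow_zero]
    exact hN1
  obtain ⟨L, hL⟩ : ∃ L : ℝ, L = l := ⟨_, rfl⟩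
  rw [← hL] at hf ht hb
  have hL0 : 0 ≤ L := by
    rw [hL]
    exact Nat.cast_nonneg l
  have hlL : (K : ℝ) + (e + 1) * ρ ≤ L := by
    rw [hL]
    exact_mod_cast hl
  have hm1 : (1 : ℝ) ≤ m := by
    have : 1 ≤ m := by
      have : 0 < 2 ^ l := by positivity
      omega
    exact_mod_cast this
  have hKp : (K : ℝ) ≤ 2 ^ (K : ℝ) := by
    rw [Real.rpow_natCast]
    exact_mod_cast Nat.lt_two_pow_self.le
  have hf1 : ((f : ℝ) + 1) ≤ 2 ^ (1 + δ * L) := by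
    rw [Real.rpow_add (by norm_num), Real.rpow_one]
    have h1 : (1 : ℝ) ≤ 2 ^ (δ * L) := Real.one_le_rpow (by norm_num) (by positivity)
    linarith
  have hb1 : (1 : ℝ) ≤ b := by exact_mod_cast hb0
  have hme : (m : ℝ) ^ e ≤ 2 ^ ((e + 1 - η) * L) := by
    refine le_trans ?_ hb
    exact le_mul_of_one_le_left (by positivity) hb1
  have hme2 : (m : ℝ) ^ e ≤ 2 ^ ((e + 1) * L) := by
    refine hme.trans (Real.rpow_le_rpow_of_exponent_le (by norm_num) ?_)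
    nlinarith
  have hmm : (m : ℝ) ^ (e + 1) ≤ 2 ^ (2 * (e + 1) * L) := by
    calc (m : ℝ) ^ (e + 1) ≤ (m : ℝ) ^ (e * 2) := pow_le_pow_right₀ hm1 (by omega)
      _ = ((m : ℝ) ^ e) ^ 2 := pow_mul _ _ _
      _ ≤ (2 ^ ((e + 1) * L)) ^ 2 := pow_le_pow_left₀ (by positivity) hme2 2
      _ = 2 ^ (2 * (e + 1) * L) := by
          rw [Fin_pow]
          congr 1
          push_cast
          ring
  have hm' : (m : ℝ) ≤ 2 ^ ((e + 1) * L) := (le_self_pow₀ hm1 (by omega)).trans hme2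
  have hρ3 : (3 * r : ℕ) = ρ + 1 := by omega
  refine hmain m l t f b N hm ?_ ?_ hR
  · rw [← hρ, hρ3]
    have h1 : ((K * (((f + 1) ^ (e + 1) * b * m ^ e) ^ ρ * m ^ (e + 1)) : ℕ) : ℝ) ≤
        (((2 ^ l) ^ (ρ + 1)) ^ (e + 1) : ℕ) := by
      push_cast
      calc (K : ℝ) * ((((f : ℝ) + 1) ^ (e + 1) * b * m ^ e) ^ ρ * m ^ (e + 1))
          = K * ((((f : ℝ) + 1) ^ (e + 1) * (b * m ^ e)) ^ ρ * m ^ (e + 1)) := by ring
        _ ≤ 2 ^ (K : ℝ) * (((2 ^ (1 + δ * L)) ^ (e + 1) * 2 ^ ((e + 1 - η) * L)) ^ ρ * 2 ^ (2 * (e + 1) * L)) := by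
            gcongr
        _ = 2 ^ ((K : ℝ) + (((1 + δ * L) * ((e + 1 : ℕ) : ℝ) + (e + 1 - η) * L) * ρ + 2 * (e + 1) * L)) := by
            rw [Fin_pow, Fin_mul, Fin_pow, Fin_mul, Fin_mul]
        _ ≤ 2 ^ (L * ((ρ : ℝ) + 1) * (e + 1)) := by
            refine Real.rpow_le_rpow_of_exponent_le (by norm_num) ?_
            push_cast
            have h2 : δ * L * (e + 1) = η / 2 * L := by
              rw [← hδe]
              ring
            nlinarith [mul_nonneg hL0 hρ0]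
        _ = (((2 : ℝ) ^ l) ^ (ρ + 1)) ^ (e + 1) := by
            rw [← pow_mul, ← pow_mul, ← Real.rpow_natCast 2 (l * ((ρ + 1) * (e + 1))), hL]
            congr 1
            push_cast
            ring
    exact_mod_cast h1
  · rw [← hρ, hρ3]
    have h1 : ((K * (((f + 1) * t) ^ ρ * m) : ℕ) : ℝ) ≤ (((2 ^ l) ^ (ρ + 1) : ℕ) : ℝ) := by
      push_cast
      calc (K : ℝ) * ((((f : ℝ) + 1) * t) ^ ρ * m)
          ≤ 2 ^ (K : ℝ) * ((2 ^ (1 + δ * L) * 2 ^ ((1 - η) * L)) ^ ρ * 2 ^ ((e + 1) * L)) := by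
            gcongr
        _ = 2 ^ ((K : ℝ) + (((1 + δ * L) + (1 - η) * L) * ρ + (e + 1) * L)) := by
            rw [Fin_mul, Fin_pow, Fin_mul, Fin_mul]
        _ ≤ 2 ^ (L * ((ρ : ℝ) + 1)) := by
            refine Real.rpow_le_rpow_of_exponent_le (by norm_num) ?_
            have h2 : δ ≤ η / 4 := by nlinarith
            have h3 : δ * L * ρ ≤ η / 4 * L * ρ := by gcongr
            have h4 : (ρ : ℝ) ≤ (e + 1) * ρ := by nlinarith
            nlinarith [mul_nonneg hL0 hρ0]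
        _ = ((2 : ℝ) ^ l) ^ (ρ + 1) := by
            rw [← pow_mul, ← Real.rpow_natCast 2 (l * (ρ + 1)), hL]
            congr 1
            push_cast
            ring
    exact_mod_cast h1

end H81BX
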