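import Pool.Agent.H33.RP.Prp

/-!
MP_28250c_BX (helper81): the bit pigeonhole principle, exponential lower bound for resolution over parities / over
polynomials of degree `e`.  Abstract frame for the Alekhnovich-Razborov operator with blocks of variables.
-/

set_option autoImplicit false
open scoped Classical

namespace H81BX

open ResXor H33RP

/-- The functions which vanish on the set `A`. -/
def Vn {n : ℕ} (A : Set (Pt n)) : Submodule (ZMod 2) (Fn n) where
  carrier := {g | ∀ x ∈ A, g x = 0}
  add_mem' := by
    intro a b ha hb x hx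
    show a x + b x = 0
    rw [ha x hx, hb x hx, add_zero]
  zero_mem' := by
    intro x _
    rfl
  smul_mem' := by
    intro c a ha x hx
    show c * a x = 0
    rw [ha x hx, mul_zero]

/-- The variables are divided into `m` blocks (`blk`); `Sat J` is the set of the assignments which satisfy the
constraints inside the set `J` of blocks; `bd J` is the set of the blocks of `J` which can be satisfied by a value which
does not interfere with the other blocks of `J`. -/
structure Frame (n m : ℕ) where
  blk : Fin n → Fin m
  Sat : Finset (Fin m) → Set (Pt n)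
  bd : Finset (Fin m) → Finset (Fin m)
  sat_mono : ∀ J J', J ⊆ J' → Sat J' ⊆ Sat J
  sat_loc : ∀ J (x y : Pt n), (∀ i, blk i ∈ J → x i = y i) → x ∈ Sat J → y ∈ Sat J
  bd_sub : ∀ J, bd J ⊆ J
  bd_mono : ∀ J J' a, J' ⊆ J → a ∈ J' → a ∈ bd J → a ∈ bd J'
  sat_esc : ∀ J a, a ∈ bd J → ∃ u : Pt n, ∀ x ∈ Sat (J.erase a), (fun i => if blk i = a then u i else x i) ∈ Sat J

/-- The blocks of a set of variables. -/
noncomputable def Frame.bl {n m : ℕ} (F : Frame n m) (T : Finset (Fin n)) : Finset (Fin m) := T.image F.blk

/-- The closure of a set of blocks. -/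
noncomputable def Frame.Spt {n m : ℕ} (F : Frame n m) (B : ℕ) (A : Finset (Fin m)) : Finset (Fin m) :=
  Finset.univ.filter (fun a => ∃ J : Finset (Fin m), J.card ≤ B ∧ F.bd J ⊆ A ∧ a ∈ J)

/-- Expansion: every set of at most `B` blocks has at least a fraction `1 / C` of free blocks. -/
def Frame.Exp {n m : ℕ} (F : Frame n m) (C B : ℕ) : Prop :=
  ∀ J : Finset (Fin m), J.card ≤ B → J.card ≤ C * (F.bd J).card

end H81BX
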