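import Pool.Agent.H81.BX.Vr
import Pool.Agent.H33.RP.Mb

/-!
The Alekhnovich-Razborov operator for a frame.
-/

set_option autoImplicit false
open scoped Classical

namespace H81BX

open ResXor H33RP

variable {n m : ℕ} (F : Frame n m) {B C E : ℕ}

theorem map_span_eq {n : ℕ} {P Q : Fn n →ₗ[ZMod 2] Fn n} {s : Set (Finset (Fin n))}
    (h : ∀ T ∈ s, P (mono T) = Q (mono T)) {g : Fn n} (hg : g ∈ Submodule.span (ZMod 2) (mono '' s)) : P g = Q g := by
  have hle : Submodule.span (ZMod 2) (mono '' s) ≤ LinearMap.eqLocus P Q := by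
    rw [Submodule.span_le]
    rintro _ ⟨T, hT, rfl⟩
    exact h T hT
  exact hle hg

theorem mulx_mono {n : ℕ} (i : Fin n) (T : Finset (Fin n)) : (mono {i} : Fn n) * mono T = mono (insert i T) := by
  rw [mono_mul, Finset.insert_eq]

theorem ideal (o : Finset (Fin n) → ℕ) (ho : Ord o) (hF : F.Exp C B) (hE : 2 * (C * E) ≤ B) (hC : 1 ≤ C) :
    ∃ K : Submodule (ZMod 2) (Fn n), Clo n E K ∧
      (∀ A : Finset (Fin m), A.card ≤ E → ∀ g ∈ Submodule.span (ZMod 2)
        (mono '' {T : Finset (Fin n) | T.card ≤ E ∧ F.bl T ⊆ A}), g ∈ Vn (F.Sat A) → g ∈ K) ∧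
      ∀ f ∈ Submodule.span (ZMod 2) (mono '' {T : Finset (Fin n) | T.card ≤ E ∧
        ∀ J : Finset (Fin m), J.card ≤ B → ¬ Red o (Vn (F.Sat J)) T}), f ∈ K → f = 0 := by
  have hCE : ∀ A : Finset (Fin m), A.card ≤ E → 2 * (C * A.card) ≤ B := fun A hA =>
    (Nat.mul_le_mul_left _ (Nat.mul_le_mul_left _ hA)).trans hE
  have hEB : E ≤ B := by
    have h1 : E ≤ C * E := Nat.le_mul_of_pos_left _ hC
    omega
  have hblc : ∀ T : Finset (Fin n), (F.bl T).card ≤ T.card := fun T => Finset.card_image_le
  choose P hP0 hP1 hP2 hP3 using fun J : Finset (Fin m) => proj o ho.1 (Vn (F.Sat J))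
  obtain ⟨c, hc⟩ : ∃ c : Finset (Fin n) → Finset (Fin m), c = fun T => F.Spt B (F.bl T) := ⟨_, rfl⟩
  have hcB : ∀ T : Finset (Fin n), T.card ≤ E → (c T).card ≤ B := by
    intro T hT
    rw [hc]
    have h1 := spt_card F hF (F.bl T) (hCE _ ((hblc T).trans hT))
    have h2 := hCE _ ((hblc T).trans hT)
    change (F.Spt B (F.bl T)).card ≤ B
    omega
  have hblT : ∀ T : Finset (Fin n), T.card ≤ E → F.bl T ⊆ c T := by
    intro T hT
    rw [hc]
    exact spt_self F _ (((hblc T).trans hT).trans hEB)
  have hcsub : ∀ (A : Finset (Fin m)) (T : Finset (Fin n)), A.card ≤ E → T.card ≤ E → F.bl T ⊆ F.Spt B A →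
      c T ⊆ F.Spt B A := by
    intro A T hA hT h
    rw [hc]
    exact spt_sub F hF A (F.bl T) (hCE _ hA) (hCE _ ((hblc T).trans hT)) h
  have hcard : ∀ T T' : Finset (Fin n), o T' ≤ o T → T'.card ≤ T.card := by
    intro T T' h
    by_contra hlt
    exact absurd (ho.2 T' T (not_le.1 hlt)) (not_lt.2 h)
  have hVle : ∀ J J' : Finset (Fin m), J ⊆ J' → Vn (F.Sat J) ≤ Vn (F.Sat J') := fun J J' h =>
    Vn_anti (F.sat_mono J J' h)
  -- normal forms
  have hnf : ∀ T : Finset (Fin n), T.card ≤ E → P (c T) (mono T) ∈ Submodule.span (ZMod 2)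
      (mono '' {T' | ¬ Red o (Vn (F.Sat (c T))) T' ∧ T'.card ≤ T.card ∧ F.bl T' ⊆ c T}) := by
    intro T hT
    refine Submodule.span_mono ?_ (proj_blocks F o ho.1 (c T) T _ (hP3 (c T) T) (hP2 (c T) (mono T)))
    rintro _ ⟨T', ⟨h1, h2, h3⟩, rfl⟩
    exact ⟨T', ⟨h1, hcard T T' h2, h3.trans (Finset.union_subset (hblT T hT) (Finset.Subset.refl _))⟩, rfl⟩
  -- (1)
  have claim1 : ∀ T : Finset (Fin n), T.card ≤ E → ∀ J : Finset (Fin m), c T ⊆ J → J.card ≤ B →
      P J (mono T) = P (c T) (mono T) := by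
    intro T hT J hJ hJB
    have h1 : P J (P (c T) (mono T)) = P (c T) (mono T) := by
      have h2 := map_span_eq (P := P J) (Q := LinearMap.id) (fun T' hT' => ?_) (hnf T hT)
      · exact h2
      · obtain ⟨h3, h4, h5⟩ := hT'
        refine hP1 J T' fun h6 => h3 ?_
        have h7 : c T' ⊆ c T := by
          have h8 : c T = F.Spt B (F.bl T) := by rw [hc]
          rw [h8]
          rw [h8] at h5
          exact hcsub (F.bl T) T' ((hblc T).trans hT) (h4.trans hT) h5
        have h9 : Red o (Vn (F.Sat (c T'))) T' := by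
          rw [hc]
          refine red_spt F o ho hF T' (hCE _ ((hblc T').trans (h4.trans hT))) J hJB ?_ h6
          have h10 : c T' = F.Spt B (F.bl T') := by rw [hc]
          rw [← h10]
          exact h7.trans hJ
        unfold Red at h9 ⊢
        exact sup_le_sup_right (hVle _ _ h7) _ h9
    have h2 : P J (mono T - P (c T) (mono T)) = 0 := hP0 J _ (hVle _ _ hJ (hP2 (c T) (mono T)))
    rw [map_sub, h1, sub_eq_zero] at h2
    exact h2
  -- (2)
  obtain ⟨b, hb⟩ : ∃ b : Module.Basis (Finset (Fin n)) (ZMod 2) (Fn n), ∀ T, b T = mono T :=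
    ⟨Module.Basis.mk (mono_li n) (mono_top n).ge, fun T => Module.Basis.mk_apply _ _ T⟩
  obtain ⟨R, hR⟩ : ∃ R : Fn n →ₗ[ZMod 2] Fn n, ∀ T : Finset (Fin n),
      R (mono T) = if T.card ≤ E then P (c T) (mono T) else 0 :=
    ⟨b.constr (ZMod 2) (fun T => if T.card ≤ E then P (c T) (mono T) else 0), fun T => by
      rw [← hb T, Module.Basis.constr_basis, hb T]⟩
  have hRloc : ∀ J : Finset (Fin m), J.card ≤ B → ∀ g ∈ Submodule.span (ZMod 2)
      (mono '' {T : Finset (Fin n) | T.card ≤ E ∧ c T ⊆ J}), R g = P J g := by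
    intro J hJ g hg
    refine map_span_eq (fun T hT => ?_) hg
    rw [hR T, if_pos hT.1, claim1 T hT.1 J hT.2 hJ]
  refine ⟨RM n E ⊓ LinearMap.ker R, ?_, ?_, ?_⟩
  · -- closure
    intro g i D hg hgD hD
    have hxg : ∀ g : Fn n, (fun x => x i * g x) = mono {i} * g := by
      intro g
      ext x
      change x i * g x = (∏ j ∈ {i}, x j) * g x
      rw [Finset.prod_singleton]
    have hx1 : (mono {i} : Fn n) ∈ RM n 1 := Submodule.subset_span ⟨{i}, by simp, rfl⟩
    rw [hxg]
    refine ⟨?_, ?_⟩
    · have h1 := RM_mul hx1 hgD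
      exact RM_le (by omega) h1
    · have key : R (mono {i} * g) = R (mono {i} * R g) := by
        let L1 : Fn n →ₗ[ZMod 2] Fn n := R.comp (LinearMap.mulLeft (ZMod 2) (mono {i} : Fn n))
        let L2 : Fn n →ₗ[ZMod 2] Fn n := (R.comp (LinearMap.mulLeft (ZMod 2) (mono {i} : Fn n))).comp R
        refine map_span_eq (P := L1) (Q := L2) (s := {T : Finset (Fin n) | T.card ≤ D}) (fun T hT => ?_) hgD
        have hT' : T.card ≤ D := hT
        change R (mono {i} * mono T) = R (mono {i} * R (mono T))
        obtain ⟨J, hJ⟩ : ∃ J, J = c (insert i T) := ⟨_, rfl⟩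
        have hic : (insert i T).card ≤ E := (Finset.card_insert_le _ _).trans (by omega)
        have hJB : J.card ≤ B := hJ ▸ hcB _ hic
        have hJS : J = F.Spt B (F.bl (insert i T)) := by rw [hJ, hc]
        have hAc : (F.bl (insert i T)).card ≤ E := (hblc _).trans hic
        have hblJ : F.bl (insert i T) ⊆ J := by
          rw [hJ]
          exact hblT _ hic
        have hTJ : c T ⊆ J := by
          rw [hJS]
          refine hcsub _ T hAc (by omega) ?_
          rw [← hJS]
          exact (Finset.image_subset_image (Finset.subset_insert _ _)).trans hblJ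
        have e1 : R (mono {i} * mono T) = P J (mono {i} * mono T) := by
          rw [mulx_mono, hR, if_pos hic, ← hJ]
        have e2 : P J (mono {i} * mono T) = P J (mono {i} * R (mono T)) := by
          have h1 : mono {i} * (mono T - R (mono T)) ∈ Vn (F.Sat J) := by
            intro x hx
            have h2 : (mono T - R (mono T)) x = 0 := by
              rw [hR T, if_pos (by omega)]
              exact hVle _ _ hTJ (hP2 (c T) (mono T)) x hx
            change mono {i} x * (mono T - R (mono T)) x = 0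
            rw [h2, mul_zero]
          have h3 := hP0 J _ h1
          rw [mul_sub, map_sub, sub_eq_zero] at h3
          exact h3
        have e3 : R (mono {i} * R (mono T)) = P J (mono {i} * R (mono T)) := by
          refine hRloc J hJB _ ?_
          have h1 : R (mono T) ∈ Submodule.span (ZMod 2)
              (mono '' {T' | ¬ Red o (Vn (F.Sat (c T))) T' ∧ T'.card ≤ T.card ∧ F.bl T' ⊆ c T}) := by
            rw [hR T, if_pos (by omega)]
            exact hnf T (by omega)
          have hle : Submodule.span (ZMod 2)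
              (mono '' {T' | ¬ Red o (Vn (F.Sat (c T))) T' ∧ T'.card ≤ T.card ∧ F.bl T' ⊆ c T}) ≤
              (Submodule.span (ZMod 2) (mono '' {T : Finset (Fin n) | T.card ≤ E ∧ c T ⊆ J})).comap
                (LinearMap.mulLeft (ZMod 2) (mono {i} : Fn n)) := by
            rw [Submodule.span_le]
            rintro _ ⟨T', ⟨-, h3, h4⟩, rfl⟩
            change mono {i} * mono T' ∈ Submodule.span (ZMod 2)
              (mono '' {T : Finset (Fin n) | T.card ≤ E ∧ c T ⊆ J})
            rw [mulx_mono]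
            have h5 : (insert i T').card ≤ E := (Finset.card_insert_le _ _).trans (by omega)
            refine Submodule.subset_span ⟨_, ⟨h5, ?_⟩, rfl⟩
            rw [hJS]
            refine hcsub _ _ hAc h5 ?_
            rw [← hJS]
            intro a ha
            obtain ⟨v, hv, rfl⟩ := Finset.mem_image.1 ha
            rcases Finset.mem_insert.1 hv with rfl | hv
            · exact hblJ (Finset.mem_image_of_mem _ (Finset.mem_insert_self _ _))
            · exact hTJ (h4 (Finset.mem_image_of_mem _ hv))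
          exact hle h1
        rw [e1, e2, e3]
      have h2 : R g = 0 := hg.2
      change R (mono {i} * g) = 0
      rw [key, h2, mul_zero, map_zero]
  · -- the axioms
    intro A hA g hg hgV
    refine ⟨Submodule.span_mono ?_ hg, ?_⟩
    · rintro _ ⟨T, hT, rfl⟩
      exact ⟨T, hT.1, rfl⟩
    · have hAJ : A ⊆ F.Spt B A := spt_self F A (hA.trans hEB)
      have hJB : (F.Spt B A).card ≤ B := by
        have h1 := spt_card F hF A (hCE _ hA)
        have h2 := hCE _ hA
        omega
      change R g = 0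
      rw [hRloc (F.Spt B A) hJB g (Submodule.span_mono ?_ hg)]
      · exact hP0 _ _ (hVle _ _ hAJ hgV)
      · rintro _ ⟨T, hT, rfl⟩
        exact ⟨T, ⟨hT.1, hcsub A T hA hT.1 (hT.2.trans hAJ)⟩, rfl⟩
  · -- good monomials
    intro f hf hfK
    have h1 : R f = f := by
      refine map_span_eq (P := R) (Q := LinearMap.id) (fun T hT => ?_) hf
      rw [hR T, if_pos hT.1]
      exact hP1 _ _ (hT.2 _ (hcB T hT.1))
    rw [← h1]
    exact hfK.2

end H81BX
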