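import Pool.Agent.H81.BX.Bad

/-!
Existence of a table of linear maps with good expansion (helper81, MP_28250c_BX).
-/

set_option autoImplicit false
open scoped Classical

namespace H81BX

open ResXor H33RP

theorem geo_sum (m : ℕ) : ∑ j ∈ Finset.range m, ((1 : ℝ) / 4) ^ (j + 1) ≤ (1 - (1 / 4) ^ m) / 3 := by
  induction m with
  | zero => simp
  | succ m ih =>
    rw [Finset.sum_range_succ]
    have h1 : ((1 : ℝ) / 4) ^ (m + 1) = (1 / 4) ^ m * (1 / 4) := pow_succ _ _
    rw [h1]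
    have h2 : (0 : ℝ) < (1 / 4) ^ m := by positivity
    linarith

theorem choose_small {m j : ℕ} (hj : 1 ≤ j) (hm : 1 ≤ m) :
    (m.choose j : ℝ) * ((j : ℝ) / (12 * m)) ^ j ≤ (1 / 4) ^ j := by
  have hm0 : (0 : ℝ) < m := by exact_mod_cast hm
  have h1 : (m.choose j : ℝ) ≤ (m : ℝ) ^ j / (j.factorial : ℝ) := Nat.choose_le_pow_div j m
  have h2 := Real.pow_div_factorial_le_exp (j : ℝ) (Nat.cast_nonneg j) j
  have h3 : Real.exp (j : ℝ) ≤ 3 ^ j := by
    rw [← Real.exp_one_pow]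
    refine pow_le_pow_left₀ (Real.exp_pos _).le ?_ j
    have := Real.exp_one_lt_d9
    linarith
  have h4 : (0 : ℝ) ≤ ((j : ℝ) / (12 * m)) ^ j := by positivity
  calc (m.choose j : ℝ) * ((j : ℝ) / (12 * m)) ^ j
      ≤ (m : ℝ) ^ j / (j.factorial : ℝ) * ((j : ℝ) / (12 * m)) ^ j := mul_le_mul_of_nonneg_right h1 h4
    _ = (j : ℝ) ^ j / (j.factorial : ℝ) * (1 / 12) ^ j := by
        rw [div_pow, mul_pow, one_div, inv_pow]
        field_simp
    _ ≤ 3 ^ j * (1 / 12) ^ j := mul_le_mul_of_nonneg_right (h2.trans h3) (by positivity)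
    _ = (1 / 4) ^ j := by rw [← mul_pow]; norm_num

theorem sum_small {m : ℕ} (B : ℕ) (g : ℕ → ℝ) (hg : ∀ j, 1 ≤ j → j ≤ B → j ≤ m → g j ≤ ((j : ℝ) / (12 * m)) ^ j) :
    ∑ J ∈ Finset.univ.filter (fun J : Finset (Fin m) => 1 ≤ J.card ∧ J.card ≤ B), g J.card < 1 := by
  rw [Finset.sum_filter]
  have h1 := Finset.sum_powerset_apply_card (fun j => if 1 ≤ j ∧ j ≤ B then g j else 0)
    (x := (Finset.univ : Finset (Fin m)))
  rw [Finset.powerset_univ, Finset.card_univ, Fintype.card_fin] at h1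
  rw [h1, Finset.sum_range_succ']
  have h2 : (m.choose 0) • (if 1 ≤ 0 ∧ 0 ≤ B then g 0 else 0) = 0 := by
    rw [if_neg (by omega), smul_zero]
  rw [h2, add_zero]
  have h3 : ∑ j ∈ Finset.range m, (m.choose (j + 1)) • (if 1 ≤ j + 1 ∧ j + 1 ≤ B then g (j + 1) else 0) ≤
      ∑ j ∈ Finset.range m, ((1 : ℝ) / 4) ^ (j + 1) := by
    refine Finset.sum_le_sum fun j hj => ?_
    have hjm : j + 1 ≤ m := Finset.mem_range.1 hj
    by_cases hB : j + 1 ≤ B
    · rw [if_pos ⟨by omega, hB⟩, nsmul_eq_mul]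
      refine le_trans (mul_le_mul_of_nonneg_left (hg (j + 1) (by omega) hB hjm) (Nat.cast_nonneg _)) ?_
      exact choose_small (by omega) (by omega)
    · rw [if_neg (fun h => hB h.2), smul_zero]
      positivity
  have h4 := geo_sum m
  have h5 : (0 : ℝ) < (1 / 4) ^ m := by positivity
  linarith

variable {m s l : ℕ}

theorem card_dt (s : ℕ) : Fintype.card (Fin s → Option (Finset (Fin s))) = (2 ^ s + 1) ^ s := by
  rw [Fintype.card_fun, Fintype.card_option, Fintype.card_finset, Fintype.card_fin]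

/-- The descriptions for the set `J`. -/
noncomputable def Ts (e : ℕ) (J : Finset (Fin m)) : Finset (Fin m → Fin s → Option (Finset (Fin s))) :=
  (Fintype.piFinset fun a : Fin m => if a ∈ J then (Finset.univ : Finset (Fin s → Option (Finset (Fin s))))
    else {fun _ => none}).filter fun τ => Tri τ ∧ 3 * (s - e) * J.card ≤ 16 * (Pt' τ).card

theorem card_Ts (e : ℕ) (J : Finset (Fin m)) : (Ts (s := s) e J).card ≤ ((2 ^ s + 1) ^ s) ^ J.card := by
  refine (Finset.card_filter_le _ _).trans ?_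
  rw [Fintype.card_piFinset]
  have h1 : ∀ a : Fin m, (if a ∈ J then (Finset.univ : Finset (Fin s → Option (Finset (Fin s))))
      else {fun _ => none}).card = if a ∈ J then (2 ^ s + 1) ^ s else 1 := by
    intro a
    by_cases ha : a ∈ J
    · rw [if_pos ha, if_pos ha, Finset.card_univ, card_dt]
    · rw [if_neg ha, if_neg ha, Finset.card_singleton]
  rw [Finset.prod_congr rfl fun a _ => h1 a, Finset.prod_ite, Finset.prod_const_one, mul_one, Finset.prod_const,
    Finset.filter_mem_eq_inter, Finset.univ_inter]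

/-- A table of linear maps with good expansion. -/
theorem exists_maps {e r B : ℕ} (hs : s = e + 16 * r) (hr : 1 ≤ r)
    (hB : 12 * ((2 ^ s + 1) ^ s * (2 ^ (3 * r * s) * (m * B ^ (3 * r - 1)))) ≤ (2 ^ l) ^ (3 * r)) :
    ∃ c : Fin m → Fin s → Fin l → ZMod 2, (php c e).Exp 4 B := by
  by_contra hcon
  push Not at hcon
  obtain ⟨C1, hC1⟩ : ∃ C1 : ℕ, C1 = (2 ^ s + 1) ^ s := ⟨_, rfl⟩
  obtain ⟨n, hn⟩ : ∃ n : ℕ, n = 2 ^ l := ⟨_, rfl⟩
  have hC1p : 1 ≤ C1 := by
    rw [hC1]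
    exact Nat.one_le_pow _ _ (by positivity)
  have hnp : 0 < n := by
    rw [hn]
    positivity
  have hnr : (0 : ℝ) < n := by exact_mod_cast hnp
  -- numerics
  have hnum : ∀ j : ℕ, 1 ≤ j → j ≤ B → 12 * m * (C1 * (2 ^ s * j) ^ (3 * r)) ≤ j * n ^ (3 * r) := by
    intro j hj hjB
    have h1 : j ^ (3 * r) = j * j ^ (3 * r - 1) := by
      rw [← pow_succ']
      congr 1
      omega
    have h2 : j ^ (3 * r - 1) ≤ B ^ (3 * r - 1) := Nat.pow_le_pow_left hjB _
    rw [← hC1, ← hn] at hB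
    calc 12 * m * (C1 * (2 ^ s * j) ^ (3 * r))
        = j * (12 * (C1 * (2 ^ (3 * r * s) * (m * j ^ (3 * r - 1))))) := by
          rw [mul_pow, h1, ← pow_mul, mul_comm s (3 * r)]
          ring
      _ ≤ j * (12 * (C1 * (2 ^ (3 * r * s) * (m * B ^ (3 * r - 1))))) := by gcongr
      _ ≤ j * n ^ (3 * r) := Nat.mul_le_mul_left _ hB
  have hle : ∀ j : ℕ, 1 ≤ j → j ≤ B → j ≤ m → 2 ^ s * j ≤ n := by
    intro j hj hjB hjm
    have h1 := hnum j hj hjB
    have h2 : j * (2 ^ s * j) ^ (3 * r) ≤ 12 * m * (C1 * (2 ^ s * j) ^ (3 * r)) := by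
      calc j * (2 ^ s * j) ^ (3 * r) = j * (1 * (2 ^ s * j) ^ (3 * r)) := by ring
        _ ≤ (12 * m) * (C1 * (2 ^ s * j) ^ (3 * r)) :=
          Nat.mul_le_mul (by omega) (Nat.mul_le_mul_right _ hC1p)
    have h3 : (2 ^ s * j) ^ (3 * r) ≤ n ^ (3 * r) := Nat.le_of_mul_le_mul_left (h2.trans h1) (by omega)
    exact (Nat.pow_le_pow_iff_left (by omega)).1 h3
  -- the count for one description
  have hev : ∀ J : Finset (Fin m), 1 ≤ J.card → J.card ≤ B → ∀ τ ∈ Ts (s := s) e J,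
      ((Finset.univ.filter (fun c : Fin m → Fin s → Fin l → ZMod 2 => Ev J τ c)).card : ℝ) ≤
        (n : ℝ) ^ (m * s) * (((2 ^ s * J.card : ℕ) : ℝ) / n) ^ (3 * r * J.card) := by
    intro J hJ1 hJB τ hτ
    obtain ⟨-, hτ1, hτ2⟩ := Finset.mem_filter.1 hτ
    have hJm : J.card ≤ m := by
      have := Finset.card_le_univ J
      rwa [Fintype.card_fin] at this
    have h1 := ev_count (l := l) J τ hτ1
    rw [← hn] at h1
    have h2 : ((Finset.univ.filter (fun c : Fin m → Fin s → Fin l → ZMod 2 => Ev J τ c)).card : ℝ) *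
        (n : ℝ) ^ (Pt' τ).card ≤ ((2 ^ s * J.card : ℕ) : ℝ) ^ (Pt' τ).card * (n : ℝ) ^ (m * s) := by
      exact_mod_cast h1
    have h3 : ((Finset.univ.filter (fun c : Fin m → Fin s → Fin l → ZMod 2 => Ev J τ c)).card : ℝ) ≤
        (n : ℝ) ^ (m * s) * (((2 ^ s * J.card : ℕ) : ℝ) / n) ^ (Pt' τ).card := by
      rw [div_pow, mul_div_assoc', le_div_iff₀ (by positivity)]
      linarith
    refine h3.trans (mul_le_mul_of_nonneg_left ?_ (by positivity))
    refine pow_le_pow_of_le_one (by positivity) ?_ ?_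
    · rw [div_le_one hnr]
      exact_mod_cast hle J.card hJ1 hJB hJm
    · have h4 : s - e = 16 * r := by omega
      rw [h4] at hτ2
      have h5 : 3 * (16 * r) * J.card = 16 * (3 * r * J.card) := by ring
      rw [h5] at hτ2
      omega
  -- the union bound
  have hcov : (Finset.univ : Finset (Fin m → Fin s → Fin l → ZMod 2)) ⊆
      (Finset.univ.filter (fun J : Finset (Fin m) => 1 ≤ J.card ∧ J.card ≤ B)).biUnion fun J =>
        (Ts (s := s) e J).biUnion fun τ => Finset.univ.filter (fun c => Ev J τ c) := by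
    intro c _
    have h1 := hcon c
    unfold Frame.Exp at h1
    push Not at h1
    obtain ⟨J, hJB, hJ⟩ := h1
    obtain ⟨τ, hτ1, hτ2, hτ3, hτ4⟩ := bad_data c e J hJ
    refine Finset.mem_biUnion.2 ⟨J, Finset.mem_filter.2 ⟨Finset.mem_univ _, by omega, hJB⟩,
      Finset.mem_biUnion.2 ⟨τ, Finset.mem_filter.2 ⟨?_, hτ2, hτ4⟩, Finset.mem_filter.2 ⟨Finset.mem_univ _, hτ3⟩⟩⟩
    rw [Fintype.mem_piFinset]
    intro a
    by_cases ha : a ∈ J
    · rw [if_pos ha]
      exact Finset.mem_univ _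
    · rw [if_neg ha, Finset.mem_singleton]
      exact hτ1 a ha
  have hcard : Fintype.card (Fin m → Fin s → Fin l → ZMod 2) = n ^ (m * s) := by
    rw [Fintype.card_fun, Fintype.card_fun, Fintype.card_fun, ZMod.card, Fintype.card_fin, Fintype.card_fin,
      Fintype.card_fin, ← pow_mul, hn, mul_comm s m]
  have h1 : ((n ^ (m * s) : ℕ) : ℝ) ≤
      ∑ J ∈ Finset.univ.filter (fun J : Finset (Fin m) => 1 ≤ J.card ∧ J.card ≤ B),
        ∑ τ ∈ Ts (s := s) e J,
          ((Finset.univ.filter (fun c : Fin m → Fin s → Fin l → ZMod 2 => Ev J τ c)).card : ℝ) := by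
    rw [← hcard, ← Finset.card_univ]
    have h2 := (Finset.card_le_card hcov).trans (Finset.card_biUnion_le.trans
      (Finset.sum_le_sum fun J _ => Finset.card_biUnion_le))
    exact_mod_cast h2
  obtain ⟨g, hg⟩ : ∃ g : ℕ → ℝ, g = fun j => ((C1 : ℝ) * (((2 ^ s * j : ℕ) : ℝ) / n) ^ (3 * r)) ^ j := ⟨_, rfl⟩
  have h2 : ∀ J ∈ Finset.univ.filter (fun J : Finset (Fin m) => 1 ≤ J.card ∧ J.card ≤ B),
      ∑ τ ∈ Ts (s := s) e J,
          ((Finset.univ.filter (fun c : Fin m → Fin s → Fin l → ZMod 2 => Ev J τ c)).card : ℝ) ≤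
        (n : ℝ) ^ (m * s) * g J.card := by
    intro J hJ
    obtain ⟨-, hJ1, hJB⟩ := Finset.mem_filter.1 hJ
    calc ∑ τ ∈ Ts (s := s) e J,
          ((Finset.univ.filter (fun c : Fin m → Fin s → Fin l → ZMod 2 => Ev J τ c)).card : ℝ)
        ≤ ∑ _τ ∈ Ts (s := s) e J, (n : ℝ) ^ (m * s) * (((2 ^ s * J.card : ℕ) : ℝ) / n) ^ (3 * r * J.card) :=
          Finset.sum_le_sum (hev J hJ1 hJB)
      _ = (Ts (s := s) e J).card * ((n : ℝ) ^ (m * s) * (((2 ^ s * J.card : ℕ) : ℝ) / n) ^ (3 * r * J.card)) := by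
          rw [Finset.sum_const, nsmul_eq_mul]
      _ ≤ ((C1 ^ J.card : ℕ) : ℝ) *
          ((n : ℝ) ^ (m * s) * (((2 ^ s * J.card : ℕ) : ℝ) / n) ^ (3 * r * J.card)) := by
          refine mul_le_mul_of_nonneg_right ?_ (by positivity)
          rw [hC1]
          exact_mod_cast card_Ts (s := s) e J
      _ = (n : ℝ) ^ (m * s) * g J.card := by
          rw [hg]
          simp only
          rw [mul_pow, ← pow_mul]
          push_cast
          ring
  have h3 := h1.trans (Finset.sum_le_sum h2)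
  rw [← Finset.mul_sum] at h3
  have h4 := sum_small (m := m) B g (by
    intro j hj hjB hjm
    rw [hg]
    simp only
    refine pow_le_pow_left₀ (by positivity) ?_ j
    have hm0 : (0 : ℝ) < m := by
      have : 0 < m := by omega
      exact_mod_cast this
    rw [le_div_iff₀ (by positivity), div_pow, mul_div_assoc', div_mul_eq_mul_div, div_le_iff₀ (by positivity)]
    have h5 : ((12 * m * (C1 * (2 ^ s * j) ^ (3 * r)) : ℕ) : ℝ) ≤ ((j * n ^ (3 * r) : ℕ) : ℝ) := by
      exact_mod_cast hnum j hj hjB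
    push_cast at h5 ⊢
    linarith)
  have h5 : (0 : ℝ) < (n : ℝ) ^ (m * s) := by positivity
  push_cast at h3
  nlinarith

end H81BX
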