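import Pool.Agent.H81.BX.Br
import Pool.Agent.H81.BX.Mp
import Pool.Agent.H81.BX.Core

/-!
The lower bound in integer form (helper81, MP_28250c_BX).
-/

set_option autoImplicit false
open scoped Classical

namespace H81BX

open ResXor BitPigeonhole

theorem main_int {e r : ℕ} (he : 1 ≤ e) (hr : 1 ≤ r) : ∃ C : ℕ, 1 ≤ C ∧ ∀ m l t f b N : ℕ, 2 ^ l < m →
    C * (((f + 1) ^ (e + 1) * b * m ^ e) ^ (3 * r - 1) * m ^ (e + 1)) ≤ ((2 ^ l) ^ (3 * r)) ^ (e + 1) →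
    C * (((f + 1) * t) ^ (3 * r - 1) * m) ≤ (2 ^ l) ^ (3 * r) →
    Refutes e (DegLE t) f (Different m l) N → 2 ^ b ≤ N := by
  obtain ⟨s, hs⟩ : ∃ s : ℕ, s = e + 16 * r := ⟨_, rfl⟩
  obtain ⟨ρ, hρ⟩ : ∃ ρ : ℕ, ρ = 3 * r - 1 := ⟨_, rfl⟩
  have hρ1 : 1 ≤ ρ := by omega
  have hρ2 : 3 * r = ρ + 1 := by omega
  obtain ⟨C2, hC2⟩ : ∃ C2 : ℕ, C2 = 12 * (2 ^ s + 1) ^ s * 2 ^ (3 * r * s) * 8 ^ ρ := ⟨_, rfl⟩
  obtain ⟨C3, hC3⟩ : ∃ C3 : ℕ, C3 = C2 * 2 ^ ρ := ⟨_, rfl⟩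
  obtain ⟨C4, hC4⟩ : ∃ C4 : ℕ, C4 = 96 * e * (2 ^ (s + 6) * e) ^ e := ⟨_, rfl⟩
  have hC2p : 1 ≤ C2 := by
    rw [hC2]
    exact Nat.mul_pos (Nat.mul_pos (Nat.mul_pos (by norm_num) (Nat.pow_pos (by positivity))) (by positivity))
      (by positivity)
  have hC3p : 1 ≤ C3 := by
    rw [hC3]
    exact Nat.mul_pos hC2p (by positivity)
  refine ⟨C4 ^ ρ * C3 ^ (e + 1) + 4 ^ ρ * C3 + C2 ^ (e + 1), ?_, ?_⟩
  · have : 1 ≤ C2 ^ (e + 1) := Nat.one_le_pow _ _ hC2p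
    omega
  intro m l t f b N hm hb ht hR
  obtain ⟨n, hn⟩ : ∃ n : ℕ, n = 2 ^ l := ⟨_, rfl⟩
  rw [← hn] at hm
  rw [← hn, ← hρ] at hb ht
  rw [hρ2] at hb ht
  obtain ⟨C, hC⟩ : ∃ C : ℕ, C = C4 ^ ρ * C3 ^ (e + 1) + 4 ^ ρ * C3 + C2 ^ (e + 1) := ⟨_, rfl⟩
  rw [← hC] at hb ht
  have hN1 : 1 ≤ N := by
    obtain ⟨L, h1, -⟩ := hR
    exact h1
  rcases Nat.eq_zero_or_pos b with hb0 | hb0
  · rw [hb0, pow_zero]
    exact hN1
  obtain ⟨Y, hY⟩ : ∃ Y : ℕ, Y = (f + 1) ^ (e + 1) * b * m ^ e := ⟨_, rfl⟩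
  have hY1 : 1 ≤ Y := by
    rw [hY]
    exact Nat.mul_pos (Nat.mul_pos (by positivity) hb0) (Nat.pow_pos (by omega))
  rw [← hY] at hb
  obtain ⟨E, hE⟩ : ∃ E : ℕ, E = Nat.findGreatest (fun E => C2 * (m * E ^ ρ) ≤ n ^ (ρ + 1)) n := ⟨_, rfl⟩
  have hPE : C2 * (m * E ^ ρ) ≤ n ^ (ρ + 1) := by
    have h1 : (fun E => C2 * (m * E ^ ρ) ≤ n ^ (ρ + 1)) 0 := by
      change C2 * (m * 0 ^ ρ) ≤ n ^ (ρ + 1)
      rw [zero_pow (by omega), mul_zero, mul_zero]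
      exact Nat.zero_le _
    have h2 := Nat.findGreatest_spec (P := fun E => C2 * (m * E ^ ρ) ≤ n ^ (ρ + 1)) (Nat.zero_le n) h1
    rw [← hE] at h2
    exact h2
  have hEn : E ≤ n := by
    rw [hE]
    exact Nat.findGreatest_le n
  have hnp : 0 < n := by
    rw [hn]
    positivity
  have hEn' : E < n := by
    rcases hEn.lt_or_eq with h1 | h1
    · exact h1
    · exfalso
      rw [h1, pow_succ] at hPE
      have h2 : n * n ^ ρ < C2 * (m * n ^ ρ) := by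
        calc n * n ^ ρ < m * n ^ ρ := Nat.mul_lt_mul_of_pos_right hm (Nat.pow_pos hnp)
          _ = 1 * (m * n ^ ρ) := by ring
          _ ≤ C2 * (m * n ^ ρ) := Nat.mul_le_mul_right _ hC2p
      rw [mul_comm (n ^ ρ) n] at hPE
      omega
  have hPE1 : n ^ (ρ + 1) < C2 * (m * (E + 1) ^ ρ) := by
    by_contra h1
    have h2 : E + 1 ≤ Nat.findGreatest (fun E => C2 * (m * E ^ ρ) ≤ n ^ (ρ + 1)) n :=
      Nat.le_findGreatest (by omega) (not_lt.1 h1)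
    rw [← hE] at h2
    omega
  have hE1 : 1 ≤ E := by
    by_contra h1
    have h2 : E = 0 := by omega
    rw [h2] at hPE1
    have h3 : n ^ (ρ + 1) < C2 * m := by simpa using hPE1
    have h4 : (n ^ (ρ + 1)) ^ (e + 1) < (C2 * m) ^ (e + 1) := Nat.pow_lt_pow_left h3 (by omega)
    have h5 : C2 ^ (e + 1) * m ^ (e + 1) ≤ C * (Y ^ ρ * m ^ (e + 1)) := by
      calc C2 ^ (e + 1) * m ^ (e + 1) ≤ C * m ^ (e + 1) := Nat.mul_le_mul_right _ (by omega)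
        _ = C * (1 * m ^ (e + 1)) := by ring
        _ ≤ C * (Y ^ ρ * m ^ (e + 1)) := by
          gcongr
          exact Nat.one_le_pow _ _ hY1
    rw [mul_pow] at h4
    omega
  have hE2 : n ^ (ρ + 1) ≤ C3 * m * E ^ ρ := by
    calc n ^ (ρ + 1) ≤ C2 * (m * (E + 1) ^ ρ) := hPE1.le
      _ ≤ C2 * (m * (2 * E) ^ ρ) := by
        gcongr
        omega
      _ = C3 * m * E ^ ρ := by
        rw [hC3, mul_pow]
        ring
  have hmp : 0 < m := by omega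
  have hbE : 96 * (f + 1) * e * (2 ^ (s + 6) * (f + 1) * e) ^ e * b * m ^ e ≤ E ^ (e + 1) := by
    have h1 : 96 * (f + 1) * e * (2 ^ (s + 6) * (f + 1) * e) ^ e * b * m ^ e = C4 * Y := by
      rw [hC4, hY, mul_pow, mul_pow, mul_pow, pow_succ]
      ring
    rw [h1]
    have h2 : (C4 * Y) ^ ρ * (C3 * m) ^ (e + 1) ≤ (E ^ (e + 1)) ^ ρ * (C3 * m) ^ (e + 1) := by
      calc (C4 * Y) ^ ρ * (C3 * m) ^ (e + 1) = (C4 ^ ρ * C3 ^ (e + 1)) * (Y ^ ρ * m ^ (e + 1)) := by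
            rw [mul_pow, mul_pow]
            ring
        _ ≤ C * (Y ^ ρ * m ^ (e + 1)) := Nat.mul_le_mul_right _ (by omega)
        _ ≤ (n ^ (ρ + 1)) ^ (e + 1) := hb
        _ ≤ (C3 * m * E ^ ρ) ^ (e + 1) := Nat.pow_le_pow_left hE2 _
        _ = (E ^ (e + 1)) ^ ρ * (C3 * m) ^ (e + 1) := by
          rw [mul_pow (C3 * m), ← pow_mul, ← pow_mul, mul_comm ρ (e + 1)]
          ring
    have h3 : (C4 * Y) ^ ρ ≤ (E ^ (e + 1)) ^ ρ :=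
      Nat.le_of_mul_le_mul_right h2 (Nat.pow_pos (Nat.mul_pos hC3p hmp))
    exact (Nat.pow_le_pow_iff_left (by omega)).1 h3
  have htE : 4 * (f + 1) * t ≤ E := by
    have h2 : (4 * (f + 1) * t) ^ ρ * (C3 * m) ≤ E ^ ρ * (C3 * m) := by
      calc (4 * (f + 1) * t) ^ ρ * (C3 * m) = (4 ^ ρ * C3) * (((f + 1) * t) ^ ρ * m) := by
            rw [mul_assoc 4, mul_pow]
            ring
        _ ≤ C * (((f + 1) * t) ^ ρ * m) := Nat.mul_le_mul_right _ (by omega)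
        _ ≤ n ^ (ρ + 1) := ht
        _ ≤ C3 * m * E ^ ρ := hE2
        _ = E ^ ρ * (C3 * m) := by ring
    have h3 : (4 * (f + 1) * t) ^ ρ ≤ E ^ ρ := Nat.le_of_mul_le_mul_right h2 (Nat.mul_pos hC3p hmp)
    exact (Nat.pow_le_pow_iff_left (by omega)).1 h3
  obtain ⟨c, hc⟩ := exists_maps (m := m) (l := l) (B := 8 * E) hs hr (by
    rw [← hρ, ← hn, hρ2, mul_pow]
    refine le_trans (le_of_eq ?_) hPE
    rw [hC2, hρ2]
    ring)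
  obtain ⟨A, hA, hline, hlast⟩ := bridge hR c
  exact core1 c hc le_rfl (by omega) he (by omega) (by omega) rfl htE hbE A hA hline hlast

end H81BX
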