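import Pool.Agent.H81.BX.Tr

/-!
A function of `s` parities is a polynomial of degree at most `s` (helper81, MP_28250c_BX).
-/

set_option autoImplicit false
open scoped Classical

namespace H81BX

/-- monomials -/
def mn {X : Type} (T : Finset X) : (X → ZMod 2) → ZMod 2 := fun x => ∏ v ∈ T, x v

theorem deg_iff {X : Type} [Fintype X] (d : ℕ) (g : (X → ZMod 2) → ZMod 2) :
    BitPigeonhole.DegLE d g ↔ g ∈ Submodule.span (ZMod 2) (mn '' {T : Finset X | T.card ≤ d}) := by
  constructor
  · rintro ⟨a, ha⟩
    have h1 : g = ∑ T ∈ Finset.univ.filter (fun T : Finset X => T.card ≤ d), a T • mn T := by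
      funext x
      rw [ha, Finset.sum_apply]
      exact Finset.sum_congr rfl fun T _ => rfl
    rw [h1]
    exact Submodule.sum_mem _ fun T hT => Submodule.smul_mem _ _
      (Submodule.subset_span ⟨T, (Finset.mem_filter.1 hT).2, rfl⟩)
  · intro hg
    induction hg using Submodule.span_induction with
    | mem g hg =>
      obtain ⟨T, hT, rfl⟩ := hg
      have hT' : T.card ≤ d := hT
      refine ⟨fun T' => if T' = T then 1 else 0, fun x => ?_⟩
      rw [Finset.sum_eq_single T]
      · change mn T x = (if T = T then (1 : ZMod 2) else 0) * ∏ v ∈ T, x v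
        rw [if_pos rfl, one_mul]
        rfl
      · intro T' _ h
        change (if T' = T then (1 : ZMod 2) else 0) * ∏ v ∈ T', x v = 0
        rw [if_neg h, zero_mul]
      · intro h
        refine absurd ?_ h
        rw [Finset.mem_filter]
        exact ⟨Finset.mem_univ _, hT'⟩
    | zero => exact ⟨fun _ => 0, fun x => by simp⟩
    | add g h _ _ hg hh =>
      obtain ⟨a, ha⟩ := hg
      obtain ⟨b, hb⟩ := hh
      refine ⟨fun T => a T + b T, fun x => ?_⟩
      rw [Pi.add_apply, ha, hb, ← Finset.sum_add_distrib]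
      exact Finset.sum_congr rfl fun T _ => by ring
    | smul c g _ hg =>
      obtain ⟨a, ha⟩ := hg
      refine ⟨fun T => c * a T, fun x => ?_⟩
      rw [Pi.smul_apply, ha, smul_eq_mul, Finset.mul_sum]
      exact Finset.sum_congr rfl fun T _ => by ring

theorem mn_mul {X : Type} (T T' : Finset X) : (mn T * mn T' : (X → ZMod 2) → ZMod 2) = mn (T ∪ T') := by
  funext x
  rw [Pi.mul_apply]
  unfold mn
  rw [← Finset.prod_union_inter]
  have h1 : T ∩ T' ⊆ T ∪ T' := Finset.inter_subset_union
  have hsq : ∀ t : ZMod 2, t * t = t := by decide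
  rw [← Finset.prod_sdiff h1, mul_assoc, hsq]

theorem deg_mul {X : Type} [Fintype X] {a b : ℕ} {g h : (X → ZMod 2) → ZMod 2}
    (hg : g ∈ Submodule.span (ZMod 2) (mn '' {T : Finset X | T.card ≤ a}))
    (hh : h ∈ Submodule.span (ZMod 2) (mn '' {T : Finset X | T.card ≤ b})) :
    g * h ∈ Submodule.span (ZMod 2) (mn '' {T : Finset X | T.card ≤ a + b}) := by
  have h1 : Submodule.span (ZMod 2) (mn '' {T : Finset X | T.card ≤ a}) *
      Submodule.span (ZMod 2) (mn '' {T : Finset X | T.card ≤ b}) ≤
      Submodule.span (ZMod 2) (mn '' {T : Finset X | T.card ≤ a + b}) := by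
    rw [Submodule.span_mul_span]
    refine Submodule.span_le.2 ?_
    rintro _ ⟨_, ⟨T, hT, rfl⟩, _, ⟨T', hT', rfl⟩, rfl⟩
    have h3 : (T ∪ T').card ≤ a + b := (Finset.card_union_le T T').trans (Nat.add_le_add hT hT')
    exact Submodule.subset_span ⟨T ∪ T', h3, (mn_mul T T').symm⟩
  exact h1 (Submodule.mul_mem_mul hg hh)

theorem par_deg {X : Type} [Fintype X] {s : ℕ} {p : (X → ZMod 2) → ZMod 2} (hp : BitPigeonhole.OfParities s p) :
    BitPigeonhole.DegLE s p := by
  obtain ⟨T, h, hTh⟩ := hp
  rw [deg_iff]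
  have h1 : ∀ (w : Fin s → ZMod 2) (J : Finset (Fin s)),
      (∏ j ∈ J, (fun x : X → ZMod 2 => ∑ v ∈ T j, x v + (w j + 1))) ∈
        Submodule.span (ZMod 2) (mn '' {T : Finset X | T.card ≤ J.card}) := by
    intro w J
    induction J using Finset.induction_on with
    | empty =>
      rw [Finset.prod_empty, Finset.card_empty]
      exact (deg_iff 0 _).1 (deg0 1)
    | insert j J hj ih =>
      rw [Finset.prod_insert hj, Finset.card_insert_of_notMem hj, add_comm J.card 1]
      exact deg_mul ((deg_iff 1 _).1 ((deg1_iff _).2 ⟨T j, w j + 1, fun x => rfl⟩)) ih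
  have h2 : p = ∑ w : Fin s → ZMod 2, h w • ∏ j ∈ Finset.univ, (fun x : X → ZMod 2 => ∑ v ∈ T j, x v + (w j + 1)) := by
    funext x
    rw [hTh, Finset.sum_apply]
    rw [Finset.sum_eq_single (fun j => ∑ v ∈ T j, x v)]
    · rw [Pi.smul_apply, smul_eq_mul, Finset.prod_apply]
      have h3 : ∏ j : Fin s, (∑ v ∈ T j, x v + (∑ v ∈ T j, x v + 1)) = 1 := by
        refine Finset.prod_eq_one fun j _ => ?_
        generalize ∑ v ∈ T j, x v = z
        revert z
        decide
      rw [h3, mul_one]
    · intro w _ hw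
      rw [Pi.smul_apply, smul_eq_mul, Finset.prod_apply]
      obtain ⟨j, hj⟩ : ∃ j, w j ≠ ∑ v ∈ T j, x v := by
        by_contra h3
        push Not at h3
        exact hw (funext h3)
      have h3 : ∑ v ∈ T j, x v + (w j + 1) = 0 := by
        revert hj
        generalize ∑ v ∈ T j, x v = z
        generalize w j = y
        revert z y
        decide
      rw [Finset.prod_eq_zero (Finset.mem_univ j) h3, mul_zero]
    · intro h3
      exact absurd (Finset.mem_univ _) h3
  rw [h2]
  refine Submodule.sum_mem _ fun w _ => Submodule.smul_mem _ _ ?_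
  have h4 := h1 w Finset.univ
  rw [Finset.card_univ, Fintype.card_fin] at h4
  exact h4

end H81BX
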