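import Pool.Agent.H96.RX.Stmt2
import Pool.Agent.H96.RX.Dich
import Pool.Agent.H96.RX.Easy
import Pool.Agent.H19.RX.Core2
import Pool.Agent.H96.RX.Asym

/-!
The quasi-polynomial lower bound (helper96), as a module (helper81, MP_28250c_BX).
-/

set_option autoImplicit false
open scoped Classical

namespace H81BX

open _root_.ParityResolution

/-- the lower bound with explicit parameters -/
theorem bound {m l s f N r d α : ℕ} (hα : 2 ≤ α) (hl : 2 ≤ l) (hr : 1 ≤ r) (hun : f * (r + s) ^ 2 * 2 ^ d ≤ 2 ^ l)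
    (h : RefutesAll s f (Different m l) N) :
    1 ≤ (N : ℝ) * ((1 - (1 / 2 : ℝ) ^ α) ^ r + (1 / 2 : ℝ) ^ (d * α)) := by
  obtain ⟨L, hN, hlast, hline⟩ := h
  have hcard : Fintype.card (Fin m × Fin l) = m * l := by
    rw [Fintype.card_prod, Fintype.card_fin, Fintype.card_fin]
  refine H19RX.bphp_prod (M := m) (l := l) (N := N) (B := r + s) (f := f) (d := d) (α := α) (mb := r) hα hl hun
    (fun i => {x | ¬ (L i).Holds (H96RX.toB x)}) ?_ ?_ ?_
  · intro i _
    rcases H96RX.dichotomy hr (L i) with ⟨W, x0, h1, h2⟩ | ⟨W, h1, h2⟩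
    · left
      refine ⟨W, x0, fun x hx => h1 x hx, ?_⟩
      rw [← hcard]
      exact h2
    · right
      refine ⟨W, fun x hx w hw => h1 x hx w hw, ?_⟩
      rw [← hcard]
      exact h2
  · intro i hi
    rcases hline i hi with ⟨C, ⟨p, q, hpq, rfl⟩, hC⟩ | ⟨J, h1, h2, h3⟩
    · left
      refine ⟨p, q, hpq, ?_⟩
      intro x hx t
      by_contra hne
      apply hx
      apply hC
      refine ⟨t, ?_⟩
      intro heq
      apply hne
      unfold H96RX.toB at heq
      have h4 : (x (p, t) = 1) ↔ (x (q, t) = 1) := by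
        have := decide_eq_decide.1 heq
        exact this
      have h5 : ∀ a b : ZMod 2, (a = 1 ↔ b = 1) → a = b := by decide
      exact h5 _ _ h4
    · right
      refine ⟨J, h1, h2, ?_⟩
      intro x hx
      by_contra hcon
      push Not at hcon
      apply hx
      apply h3
      intro j hj
      have := hcon j hj
      simpa using this
  · refine ⟨N - 1, by omega, ?_⟩
    rw [Set.eq_univ_iff_forall]
    intro x
    exact hlast _

theorem quasi : ∀ c : ℝ, c < 1 / 8 → ∃ ε : ℝ, 0 < ε ∧ ∃ l₀ : ℕ, ∀ l ≥ l₀, ∀ m s f N : ℕ,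
      (s : ℝ) ≤ 2 ^ (ε * l) → (f : ℝ) ≤ 2 ^ (ε * l) → RefutesAll s f (Different m l) N →
        (2 : ℝ) ^ (c * l ^ 2) ≤ N := by
  intro c hc
  obtain ⟨c', hc'⟩ : ∃ c' : ℝ, c' = max c 0 := ⟨_, rfl⟩
  have h0 : 0 ≤ c' := by rw [hc']; exact le_max_right _ _
  have h1 : c' < 1 / 8 := by rw [hc']; exact max_lt hc (by norm_num)
  have hcc : c ≤ c' := by rw [hc']; exact le_max_left _ _
  obtain ⟨ε, hε, l₀, hl₀⟩ := H96RX.params h0 h1
  refine ⟨ε, hε, max l₀ 2, ?_⟩
  intro l hl m s f N hs hf hR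
  obtain ⟨r, d, α, hα, hr, hun, hnum, hbig⟩ := hl₀ l (le_trans (le_max_left _ _) hl) f s hf hs
  have hl2 : 2 ≤ l := le_trans (le_max_right _ _) hl
  have h2 := H96RX.num_main hnum (bound hα hl2 hr hun hR)
  have h3 : (2 : ℝ) ^ (c * (l : ℝ) ^ 2) ≤ (2 : ℝ) ^ ((((d * α : ℕ) : ℝ)) - 1) := by
    apply Real.rpow_le_rpow_of_exponent_le (by norm_num)
    have h4 : c * (l : ℝ) ^ 2 ≤ c' * (l : ℝ) ^ 2 := mul_le_mul_of_nonneg_right hcc (by positivity)
    linarith
  have h5 : (2 : ℝ) ^ ((((d * α : ℕ) : ℝ)) - 1) = 2 ^ (d * α) / 2 := by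
    rw [Real.rpow_sub (by norm_num), Real.rpow_natCast, Real.rpow_one]
  calc (2 : ℝ) ^ (c * (l : ℝ) ^ 2) ≤ 2 ^ (d * α) / 2 := by rw [← h5]; exact h3
    _ ≤ N := by linarith

theorem upper : ∀ m l : ℕ, 2 ^ l < m → ∃ N ≤ 2 ^ (m * l + 1), RefutesAll 0 2 (Clauses m l) N := by
  intro m l hml
  obtain ⟨N, hN, L, h1, hlast, hline⟩ := _root_.ParityResolution.complete (BPHP m l) (fun v => bphp_unsat hml v)
  refine ⟨N, ?_, L, h1, hlast, ?_⟩
  · rw [Fintype.card_prod, Fintype.card_fin, Fintype.card_fin] at hN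
    exact hN
  · intro i hi
    rcases hline i hi with ⟨C, ⟨p, q, h, hpq, rfl⟩, hC⟩ | h
    · left
      refine ⟨_, ⟨p, q, h, hpq, rfl⟩, ?_⟩
      rintro v ⟨t, ht⟩
      apply hC
      rcases ht with ht | ht
      · exact ⟨((p, t), !(h t)), ⟨Or.inl rfl, rfl⟩, by
          show v (p, t) = !(h t)
          revert ht
          cases v (p, t) <;> cases h t <;> simp⟩
      · exact ⟨((q, t), !(h t)), ⟨Or.inr rfl, rfl⟩, by
          show v (q, t) = !(h t)
          revert ht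
          cases v (q, t) <;> cases h t <;> simp⟩
    · exact Or.inr h

end H81BX
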