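import Pool.Agent.H81.BX.Ba

/-!
Substituting the variables of a free block.
-/

set_option autoImplicit false
open scoped Classical

namespace H81BX

open ResXor H33RP

variable {n m : ℕ} (F : Frame n m) {B C : ℕ}

theorem Vn_anti {A A' : Set (Pt n)} (h : A ⊆ A') : Vn A' ≤ Vn A := fun _ hg x hx => hg x (h hx)

/-- Substitution of the block `a` by the values of `u`. -/
def subst (a : Fin m) (u : Pt n) : Fn n →ₗ[ZMod 2] Fn n where
  toFun g := fun x => g (fun i => if F.blk i = a then u i else x i)
  map_add' _ _ := rfl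
  map_smul' _ _ := rfl

theorem subst_mono (a : Fin m) (u : Pt n) (T : Finset (Fin n)) :
    subst F a u (mono T) = (∏ i ∈ T.filter (fun i => F.blk i = a), u i) • mono (T.filter (fun i => ¬ F.blk i = a)) := by
  ext x
  change ∏ i ∈ T, (if F.blk i = a then u i else x i) = _
  rw [Finset.prod_ite]
  rfl

theorem subst_span (o : Finset (Fin n) → ℕ) (ho : Ord o) (a : Fin m) (u : Pt n) (N : ℕ) {w : Fn n}
    (hw : w ∈ Submodule.span (ZMod 2) (mono '' {T' | o T' < N})) :
    subst F a u w ∈ Submodule.span (ZMod 2) (mono '' {T' | o T' < N}) := by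
  have hle : Submodule.span (ZMod 2) (mono '' {T' | o T' < N}) ≤
      (Submodule.span (ZMod 2) (mono '' {T' | o T' < N})).comap (subst F a u) := by
    rw [Submodule.span_le]
    rintro _ ⟨T', hT', rfl⟩
    change subst F a u (mono T') ∈ Submodule.span (ZMod 2) (mono '' {T' | o T' < N})
    rw [subst_mono]
    refine Submodule.smul_mem _ _ (Submodule.subset_span ⟨_, ?_, rfl⟩)
    have h1 : o T' < N := hT'
    change o (T'.filter (fun i => ¬ F.blk i = a)) < N
    rcases (Finset.filter_subset (fun i => ¬ F.blk i = a) T').eq_or_ssubset with h | h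
    · rw [h]
      exact h1
    · exact (ho.2 _ _ (Finset.card_lt_card h)).trans h1
  exact hle hw

theorem red_erase (o : Finset (Fin n) → ℕ) (ho : Ord o) (J : Finset (Fin m)) (a : Fin m) (ha : a ∈ F.bd J)
    (T : Finset (Fin n)) (hT : ∀ i ∈ T, F.blk i ≠ a) (h : Red o (Vn (F.Sat J)) T) :
    Red o (Vn (F.Sat (J.erase a))) T := by
  obtain ⟨u, hu⟩ := F.sat_esc J a ha
  obtain ⟨g, hg, w, hw, hgw⟩ := Submodule.mem_sup.1 h
  have h1 : subst F a u (mono T) = mono T := by
    rw [subst_mono]
    have h2 : T.filter (fun i => F.blk i = a) = ∅ := Finset.filter_false_of_mem fun i hi => hT i hi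
    have h3 : T.filter (fun i => ¬ F.blk i = a) = T := Finset.filter_true_of_mem fun i hi => hT i hi
    rw [h2, h3, Finset.prod_empty, one_smul]
  unfold Red
  rw [← h1, ← hgw, map_add]
  refine Submodule.add_mem_sup (fun x hx => hg _ (hu x hx)) (subst_span F o ho a u _ hw)

theorem red_spt (o : Finset (Fin n) → ℕ) (ho : Ord o) (hF : F.Exp C B) (T : Finset (Fin n))
    (hT : 2 * (C * (F.bl T).card) ≤ B) (J : Finset (Fin m)) (hJ : J.card ≤ B) (h1 : F.Spt B (F.bl T) ⊆ J)
    (h : Red o (Vn (F.Sat J)) T) : Red o (Vn (F.Sat (F.Spt B (F.bl T)))) T := by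
  induction J using Finset.strongInduction with
  | H J ih =>
    by_cases h2 : J = F.Spt B (F.bl T)
    · rwa [← h2]
    · obtain ⟨a, ha, haT, haS⟩ := spt_private F hF (F.bl T) hT J hJ h1 h2
      have haJ := F.bd_sub J ha
      refine ih (J.erase a) (Finset.erase_ssubset haJ) ((Finset.card_erase_le).trans hJ) ?_
        (red_erase F o ho J a ha T ?_ h)
      · intro b hb
        exact Finset.mem_erase.2 ⟨fun hba => haS (hba ▸ hb), h1 hb⟩
      · intro i hi hia
        exact haT (hia ▸ Finset.mem_image_of_mem _ hi)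

end H81BX
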