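import Mathlib

/-!
Definitions used in the hand-in statement (helper81): lines, refutations, the bit pigeonhole principle.
-/

set_option autoImplicit false
open scoped Classical

namespace BitPigeonhole

/-- The function `g` is a polynomial of degree at most `d` over the field with two elements in the variables `X`. -/
def DegLE {X : Type} [Fintype X] (d : ℕ) (g : (X → ZMod 2) → ZMod 2) : Prop :=
  ∃ a : Finset X → ZMod 2, ∀ x, g x = ∑ T ∈ Finset.univ.filter (fun T : Finset X => T.card ≤ d),
    a T * ∏ v ∈ T, x v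

/-- The function `p` is an arbitrary function of `s` parities (sums of variables modulo 2). -/
def OfParities {X : Type} (s : ℕ) (p : (X → ZMod 2) → ZMod 2) : Prop :=
  ∃ (T : Fin s → Finset X) (h : (Fin s → ZMod 2) → ZMod 2), ∀ x, p x = h (fun j => ∑ v ∈ T j, x v)

/-- A proof line: the disjunction of the polynomial equations `g = 0`, `g ∈ E`, of degree at most `e` (any number of
them) and of one equation `p = 0` with a function `p` from the class `Q`. For `e = 1`, `Q = DegLE 0` this is a line of
resolution over parities: a disjunction of linear equations over the field with two elements. -/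
structure Line (X : Type) [Fintype X] (e : ℕ) (Q : ((X → ZMod 2) → ZMod 2) → Prop) where
  E : Set ((X → ZMod 2) → ZMod 2)
  hE : ∀ g ∈ E, DegLE e g
  p : (X → ZMod 2) → ZMod 2
  hp : Q p

/-- The line is true at the assignment `x`. -/
def Line.Holds {X : Type} [Fintype X] {e : ℕ} {Q : ((X → ZMod 2) → ZMod 2) → Prop} (L : Line X e Q)
    (x : X → ZMod 2) : Prop := (∃ g ∈ L.E, g x = 0) ∨ L.p x = 0

/-- The family `𝒜` of constraints (sets of assignments) has a refutation with `N` lines: every line is implied by one
constraint or by at most `f` earlier lines (any sound inference), and the last line is false everywhere. -/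
def Refutes {X : Type} [Fintype X] (e : ℕ) (Q : ((X → ZMod 2) → ZMod 2) → Prop) (f : ℕ)
    (𝒜 : Set (Set (X → ZMod 2))) (N : ℕ) : Prop :=
  ∃ L : ℕ → Line X e Q, 1 ≤ N ∧ (∀ x, ¬ (L (N - 1)).Holds x) ∧
    ∀ i < N, (∃ C ∈ 𝒜, ∀ x ∈ C, (L i).Holds x) ∨
      ∃ J : Finset ℕ, J.card ≤ f ∧ (∀ j ∈ J, j < i) ∧ ∀ x, (∀ j ∈ J, (L j).Holds x) → (L i).Holds x

/-- There are `m` pigeons and `2 ^ l` holes; `x (a, i)` is bit `i` of the hole of the pigeon `a`. The constraints: the
pigeons `a ≠ b` are in different holes. -/
def Different (m l : ℕ) : Set (Set (Fin m × Fin l → ZMod 2)) :=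
  {C | ∃ a b : Fin m, a ≠ b ∧ C = {x | ∃ i, x (a, i) ≠ x (b, i)}}

/-- The clauses of the bit pigeonhole principle: the pigeons `a ≠ b` are not both in the hole `h`. -/
def Clauses (m l : ℕ) : Set (Set (Fin m × Fin l → ZMod 2)) :=
  {C | ∃ (a b : Fin m) (h : Fin l → ZMod 2), a ≠ b ∧ C = {x | ∃ i, x (a, i) ≠ h i ∨ x (b, i) ≠ h i}}

end BitPigeonhole
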