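import Pool.Agent.H81.BX.Stmt
import Pool.Agent.H96.RX.Dich
import Pool.Agent.H96.RX.Stmt2

/-!
Translation between the two descriptions of lines (helper81, MP_28250c_BX).
-/

set_option autoImplicit false
open scoped Classical

namespace H81BX

open H96RX

theorem sum_deg1 {X : Type} [Fintype X] (a : Finset X → ZMod 2) (x : X → ZMod 2) :
    ∑ T ∈ Finset.univ.filter (fun T : Finset X => T.card ≤ 1), a T * ∏ v ∈ T, x v = a ∅ + ∑ v, a {v} * x v := by
  have h1 : Finset.univ.filter (fun T : Finset X => T.card ≤ 1) =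
      insert ∅ (Finset.univ.image fun v : X => ({v} : Finset X)) := by
    ext T
    rw [Finset.mem_filter, Finset.mem_insert, Finset.mem_image]
    constructor
    · rintro ⟨-, h⟩
      rcases Nat.le_one_iff_eq_zero_or_eq_one.1 h with h | h
      · exact Or.inl (Finset.card_eq_zero.1 h)
      · obtain ⟨v, hv⟩ := Finset.card_eq_one.1 h
        exact Or.inr ⟨v, Finset.mem_univ _, hv.symm⟩
    · rintro (rfl | ⟨v, -, rfl⟩)
      · exact ⟨Finset.mem_univ _, by simp⟩
      · exact ⟨Finset.mem_univ _, by simp⟩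
  rw [h1, Finset.sum_insert, Finset.prod_empty, mul_one, Finset.sum_image]
  · congr 1
    refine Finset.sum_congr rfl fun v _ => ?_
    rw [Finset.prod_singleton]
  · intro v _ w _ h
    exact Finset.singleton_injective h
  · intro h
    obtain ⟨v, -, hv⟩ := Finset.mem_image.1 h
    exact Finset.singleton_ne_empty v hv

theorem deg1_iff {X : Type} [Fintype X] (g : (X → ZMod 2) → ZMod 2) :
    BitPigeonhole.DegLE 1 g ↔ ∃ (S : Finset X) (b : ZMod 2), ∀ x, g x = ∑ v ∈ S, x v + b := by
  constructor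
  · rintro ⟨a, ha⟩
    refine ⟨Finset.univ.filter fun v => a {v} = 1, a ∅, fun x => ?_⟩
    rw [ha, sum_deg1, add_comm]
    congr 1
    rw [Finset.sum_filter]
    refine Finset.sum_congr rfl fun v _ => ?_
    by_cases h : a {v} = 1
    · rw [if_pos h, h, one_mul]
    · rw [if_neg h, (RXDich_zmod (a {v})).resolve_right h, zero_mul]
  · rintro ⟨S, b, h⟩
    refine ⟨fun T => if T = ∅ then b else if ∃ v ∈ S, T = {v} then 1 else 0, fun x => ?_⟩
    rw [h, sum_deg1, if_pos rfl, add_comm]
    congr 1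
    rw [← Finset.sum_subset (Finset.subset_univ S)]
    · refine Finset.sum_congr rfl fun v hv => ?_
      rw [if_neg (Finset.singleton_ne_empty v), if_pos ⟨v, hv, rfl⟩, one_mul]
    · intro v _ hv
      rw [if_neg (Finset.singleton_ne_empty v), if_neg, zero_mul]
      rintro ⟨w, hw, hvw⟩
      rw [Finset.singleton_injective hvw] at hv
      exact hv hw

theorem deg0 {X : Type} [Fintype X] (c : ZMod 2) : BitPigeonhole.DegLE (X := X) 0 (fun _ => c) := by
  refine ⟨fun _ => c, fun x => ?_⟩
  have h1 : Finset.univ.filter (fun T : Finset X => T.card ≤ 0) = {∅} := by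
    ext T
    rw [Finset.mem_filter, Finset.mem_singleton, Nat.le_zero, Finset.card_eq_zero]
    exact ⟨fun h => h.2, fun h => ⟨Finset.mem_univ _, h⟩⟩
  rw [h1, Finset.sum_singleton, Finset.prod_empty, mul_one]

theorem zb (a b : ZMod 2) : a + b = 0 ↔ decide (a = 1) = decide (b = 1) := by
  revert a b
  decide

theorem line_to {X : Type} [Fintype X] {s : ℕ} (L : BitPigeonhole.Line X 1 (BitPigeonhole.OfParities s)) :
    ∃ L' : ParityResolution.Line X s, ∀ x, L'.Holds (toB x) ↔ L.Holds x := by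
  obtain ⟨T, h, hTh⟩ := L.hp
  refine ⟨⟨{p | ∃ g ∈ L.E, ∃ b : ZMod 2, (∀ x, g x = ∑ v ∈ p.1, x v + b) ∧ p.2 = decide (b = 1)}, T,
    {w | h (fun j => if w j = true then 1 else 0) = 0}⟩, fun x => ?_⟩
  unfold ParityResolution.Line.Holds BitPigeonhole.Line.Holds
  constructor
  · rintro (⟨p, ⟨g, hg, b, hgb, hp⟩, hpx⟩ | h1)
    · refine Or.inl ⟨g, hg, ?_⟩
      rw [hgb, zb, ← par_toB, hpx, hp]
    · right
      rw [hTh]
      have h2 : h (fun j => if ParityResolution.par (T j) (toB x) = true then 1 else 0) = 0 := h1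
      rw [← h2]
      congr 1
      funext j
      rw [par_toB]
      rcases RXDich_zmod (∑ v ∈ T j, x v) with h3 | h3
      · rw [h3]
        simp
      · rw [h3]
        simp
  · rintro (⟨g, hg, hgx⟩ | h1)
    · obtain ⟨S, b, hgb⟩ := (deg1_iff g).1 (L.hE g hg)
      refine Or.inl ⟨(S, decide (b = 1)), ⟨g, hg, b, hgb, rfl⟩, ?_⟩
      rw [hgb, zb] at hgx
      rw [par_toB]
      exact hgx
    · right
      rw [hTh] at h1
      change h (fun j => if ParityResolution.par (T j) (toB x) = true then 1 else 0) = 0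
      refine Eq.trans (congrArg h (funext fun j => ?_)) h1
      rw [par_toB]
      rcases RXDich_zmod (∑ v ∈ T j, x v) with h3 | h3
      · rw [h3]
        simp
      · rw [h3]
        simp

theorem line_from {X : Type} [Fintype X] (L' : ParityResolution.Line X 0) :
    ∃ L : BitPigeonhole.Line X 1 (BitPigeonhole.DegLE 0), ∀ x, L.Holds x ↔ L'.Holds (toB x) := by
  refine ⟨⟨{g | ∃ p ∈ L'.eqs, g = fun x => ∑ v ∈ p.1, x v + if p.2 = true then 1 else 0}, ?_,
    fun _ => if (fun j => ParityResolution.par (L'.T j) (fun _ => false)) ∈ L'.g then 0 else 1, deg0 _⟩,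
    fun x => ?_⟩
  · rintro g ⟨p, hp, rfl⟩
    exact (deg1_iff _).2 ⟨p.1, _, fun x => rfl⟩
  · unfold ParityResolution.Line.Holds BitPigeonhole.Line.Holds
    have h0 : (fun j => ParityResolution.par (L'.T j) (fun _ => false)) =
        fun j => ParityResolution.par (L'.T j) (toB x) := by
      funext j
      exact Fin.elim0 j
    refine or_congr ?_ ?_
    · constructor
      · rintro ⟨g, ⟨p, hp, rfl⟩, hg⟩
        refine ⟨p, hp, ?_⟩
        rw [zb, ← par_toB] at hg
        rw [hg]
        cases p.2 <;> simp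
      · rintro ⟨p, hp, hpx⟩
        refine ⟨_, ⟨p, hp, rfl⟩, ?_⟩
        rw [zb, ← par_toB, hpx]
        cases p.2 <;> simp
    · rw [← h0]
      change (if (fun j => ParityResolution.par (L'.T j) (fun _ => false)) ∈ L'.g then (0 : ZMod 2) else 1) = 0 ↔
        (fun j => ParityResolution.par (L'.T j) (fun _ => false)) ∈ L'.g
      by_cases h : (fun j => ParityResolution.par (L'.T j) (fun _ => false)) ∈ L'.g
      · rw [if_pos h]
        exact ⟨fun _ => h, fun _ => rfl⟩
      · rw [if_neg h]
        exact ⟨fun h1 => absurd h1 one_ne_zero, fun h1 => absurd h1 h⟩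

theorem refutes_to {m l s f N : ℕ}
    (h : BitPigeonhole.Refutes 1 (BitPigeonhole.OfParities s) f (BitPigeonhole.Different m l) N) :
    ParityResolution.RefutesAll s f (ParityResolution.Different m l) N := by
  obtain ⟨L, hN, hlast, hline⟩ := h
  choose L' hL' using fun i => line_to (L i)
  refine ⟨L', hN, fun v => ?_, fun i hi => ?_⟩
  · obtain ⟨x, rfl⟩ := toB_surj v
    rw [hL']
    exact hlast x
  · rcases hline i hi with ⟨C, ⟨a, b, hab, rfl⟩, hC⟩ | ⟨J, h1, h2, h3⟩
    · refine Or.inl ⟨_, ⟨a, b, hab, rfl⟩, ?_⟩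
      rintro v ⟨t, ht⟩
      obtain ⟨x, rfl⟩ := toB_surj v
      rw [hL']
      refine hC x ⟨t, fun h4 => ht ?_⟩
      unfold toB
      rw [h4]
    · refine Or.inr ⟨J, h1, h2, fun v hv => ?_⟩
      obtain ⟨x, rfl⟩ := toB_surj v
      rw [hL']
      exact h3 x fun j hj => (hL' j x).1 (hv j hj)

theorem refutes_from {m l N : ℕ} (h : ParityResolution.RefutesAll 0 2 (ParityResolution.Clauses m l) N) :
    BitPigeonhole.Refutes 1 (BitPigeonhole.DegLE 0) 2 (BitPigeonhole.Clauses m l) N := by
  obtain ⟨L', hN, hlast, hline⟩ := h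
  choose L hL using fun i => line_from (L' i)
  refine ⟨L, hN, fun x => ?_, fun i hi => ?_⟩
  · rw [hL]
    exact hlast _
  · rcases hline i hi with ⟨C, ⟨a, b, h, hab, rfl⟩, hC⟩ | ⟨J, h1, h2, h3⟩
    · refine Or.inl ⟨_, ⟨a, b, fun t => if h t = true then 1 else 0, hab, rfl⟩, ?_⟩
      rintro x ⟨t, ht⟩
      rw [hL]
      refine hC (toB x) ⟨t, ?_⟩
      have h4 : ∀ z : ZMod 2, z ≠ (if h t = true then 1 else 0) → decide (z = 1) ≠ h t := by
        intro z
        cases h t
        · revert z
          decide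
        · revert z
          decide
      rcases ht with ht | ht
      · exact Or.inl (h4 _ ht)
      · exact Or.inr (h4 _ ht)
    · refine Or.inr ⟨J, h1, h2, fun x hx => ?_⟩
      rw [hL]
      exact h3 _ fun j hj => (hL j x).1 (hx j hj)

end H81BX
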