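import Pool.Agent.H81.BX.Sb
import Pool.Agent.H33.RP.Vr

/-!
The blocks of a reduced monomial.
-/

set_option autoImplicit false
open scoped Classical

namespace H81BX

open ResXor H33RP

variable {n m : ℕ} (F : Frame n m)

theorem proj_blocks (o : Finset (Fin n) → ℕ) (ho : Function.Injective o) (J : Finset (Fin m)) (T : Finset (Fin n))
    (r : Fn n) (hr : r ∈ Submodule.span (ZMod 2) (mono '' {T' | ¬ Red o (Vn (F.Sat J)) T' ∧ o T' ≤ o T}))
    (hV : mono T - r ∈ Vn (F.Sat J)) :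
    r ∈ Submodule.span (ZMod 2)
      (mono '' {T' | ¬ Red o (Vn (F.Sat J)) T' ∧ o T' ≤ o T ∧ F.bl T' ⊆ F.bl T ∪ J}) := by
  set A : Finset (Fin n) := Finset.univ.filter (fun i => F.blk i ∈ F.bl T ∪ J) with hA
  have hTA : T ⊆ A := fun i hi => Finset.mem_filter.2 ⟨Finset.mem_univ _,
    Finset.mem_union_left _ (Finset.mem_image_of_mem _ hi)⟩
  have h1 : setz A r ∈ Submodule.span (ZMod 2)
      (mono '' {T' | ¬ Red o (Vn (F.Sat J)) T' ∧ o T' ≤ o T ∧ F.bl T' ⊆ F.bl T ∪ J}) := by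
    have hle : Submodule.span (ZMod 2) (mono '' {T' | ¬ Red o (Vn (F.Sat J)) T' ∧ o T' ≤ o T}) ≤
        Submodule.comap (setz A) (Submodule.span (ZMod 2)
          (mono '' {T' | ¬ Red o (Vn (F.Sat J)) T' ∧ o T' ≤ o T ∧ F.bl T' ⊆ F.bl T ∪ J})) := by
      rw [Submodule.span_le]
      rintro _ ⟨T', hT', rfl⟩
      show setz A (mono T') ∈ Submodule.span (ZMod 2)
        (mono '' {T' | ¬ Red o (Vn (F.Sat J)) T' ∧ o T' ≤ o T ∧ F.bl T' ⊆ F.bl T ∪ J})
      by_cases hs : T' ⊆ A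
      · rw [setz_mono_of_subset A T' hs]
        refine Submodule.subset_span ⟨T', ⟨hT'.1, hT'.2, fun a ha => ?_⟩, rfl⟩
        obtain ⟨i, hi, rfl⟩ := Finset.mem_image.1 ha
        exact (Finset.mem_filter.1 (hs hi)).2
      · rw [setz_mono_of_not_subset A T' hs]
        exact Submodule.zero_mem _
    exact hle hr
  have hinv : ∀ g ∈ Vn (F.Sat J), setz A g ∈ Vn (F.Sat J) := by
    intro g hg x hx
    rw [setz_apply]
    refine hg _ (F.sat_loc J x _ (fun i hi => ?_) hx)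
    have hiA : i ∈ A := Finset.mem_filter.2 ⟨Finset.mem_univ _, Finset.mem_union_right _ hi⟩
    rw [if_pos hiA]
  have h2 : mono T - setz A r ∈ Vn (F.Sat J) := by
    have := hinv _ hV
    rwa [map_sub, setz_mono_of_subset A T hTA] at this
  have h3 : r - setz A r ∈ Vn (F.Sat J) := by
    have := Submodule.sub_mem _ h2 hV
    rwa [sub_sub_sub_cancel_left] at this
  have h4 : r - setz A r ∈ Submodule.span (ZMod 2) (mono '' {T' | ¬ Red o (Vn (F.Sat J)) T'}) := by
    refine Submodule.sub_mem _ (Submodule.span_mono ?_ hr) (Submodule.span_mono ?_ h1)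
    · rintro _ ⟨T', hT', rfl⟩
      exact ⟨T', hT'.1, rfl⟩
    · rintro _ ⟨T', hT', rfl⟩
      exact ⟨T', hT'.1, rfl⟩
  have h5 := irr_unique o ho _ _ h3 h4
  rw [sub_eq_zero] at h5
  rw [h5]
  exact h1

end H81BX
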